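import Pool.Agent.V8H73.GN.Sys

/-!
# Zeros of systems as functions of the coefficients
-/

set_option autoImplicit false
set_option linter.unusedSectionVars false

open Set Filter MvPolynomial
open scoped Topology

namespace Pool.Agent.V8H73.GN

variable {κ O : Type} [Fintype κ] [DecidableEq κ] [Fintype O] [DecidableEq O] {S : Finset (κ × Ex κ O)} {T : Dat κ O}

theorem elim_an (hT : Ok T) {z : κ → ℂ} (hz : z ∈ T.W) :
    AnalyticAt ℂ (fun z : κ → ℂ => (Sum.elim z (T.fz z) : κ ⊕ O → ℂ)) z := by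
  rw [analyticAt_pi_iff]
  rintro (l | o)
  · exact (pl l).analyticAt z
  · exact hT.fz_an o hz

theorem ev_an (hT : Ok T) (P : MvPolynomial (κ ⊕ O) ℂ) {z : κ → ℂ} (hz : z ∈ T.W) :
    AnalyticAt ℂ (fun z : κ → ℂ => eval (Sum.elim z (T.fz z)) P) z := by
  have h1 : AnalyticOnNhd ℂ (fun v : κ ⊕ O → ℂ => eval v P) univ := AnalyticOnNhd.eval_mvPolynomial _
  exact (h1 _ (mem_univ _)).comp_of_eq (elim_an hT hz) rfl

theorem co_an (q : S) (x : S → ℂ) : AnalyticAt ℂ (fun x : S → ℂ => x q) x :=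
  (ContinuousLinearMap.proj (R := ℂ) (φ := fun _ : S => ℂ) q).analyticAt x

theorem Ph_an (hT : Ok T) (v : (S → ℂ) × (κ → ℂ)) (hv : v.2 ∈ T.W) :
    AnalyticAt ℂ (fun v : (S → ℂ) × (κ → ℂ) => Ph T v.1 v.2) v := by
  rw [analyticAt_pi_iff]
  intro j
  have h1 : (fun v : (S → ℂ) × (κ → ℂ) => Ph T v.1 v.2 j) = fun v =>
      ∑ q : S, if q.1.1 = j then v.1 q * mo q.1.2 v.2 (T.fz v.2) else 0 := funext fun v => Ph_sum v.1 v.2 j
  rw [h1]
  refine Finset.analyticAt_fun_sum _ fun q _ => ?_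
  by_cases h : q.1.1 = j
  · simp only [if_pos h]
    exact ((co_an q v.1).comp_of_eq analyticAt_fst rfl).mul
      ((ev_an hT (monomial q.1.2 1) hv).comp_of_eq analyticAt_snd rfl)
  · simp only [if_neg h]
    exact analyticAt_const

/-- linear in the coefficients -/
theorem dPj_sum (x : S → ℂ) (v : κ ⊕ O → ℂ) (j : κ) (o : κ ⊕ O) :
    eval v (pderiv o (Pj x j)) = ∑ q : S, if q.1.1 = j then x q * eval v (pderiv o (monomial q.1.2 1)) else 0 := by
  unfold Pj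
  rw [map_sum, map_sum]
  refine Finset.sum_congr rfl fun q _ => ?_
  split_ifs
  · have h1 : monomial q.1.2 (x q) = C (x q) * monomial q.1.2 1 := by rw [C_mul_monomial, mul_one]
    rw [h1, Derivation.leibniz, pderiv_C, smul_zero, add_zero, smul_eq_mul, map_mul, eval_C]
  · rw [map_zero, map_zero]

theorem dPj_an (hT : Ok T) (j : κ) (o : κ ⊕ O) (v : (S → ℂ) × (κ → ℂ)) (hv : v.2 ∈ T.W) :
    AnalyticAt ℂ (fun v : (S → ℂ) × (κ → ℂ) => eval (Sum.elim v.2 (T.fz v.2)) (pderiv o (Pj v.1 j))) v := by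
  have h1 : (fun v : (S → ℂ) × (κ → ℂ) => eval (Sum.elim v.2 (T.fz v.2)) (pderiv o (Pj v.1 j))) = fun v =>
      ∑ q : S, if q.1.1 = j then v.1 q * eval (Sum.elim v.2 (T.fz v.2)) (pderiv o (monomial q.1.2 1)) else 0 :=
    funext fun v => dPj_sum v.1 _ j o
  rw [h1]
  refine Finset.analyticAt_fun_sum _ fun q _ => ?_
  by_cases h : q.1.1 = j
  · simp only [if_pos h]
    exact ((co_an q v.1).comp_of_eq analyticAt_fst rfl).mul ((ev_an hT _ hv).comp_of_eq analyticAt_snd rfl)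
  · simp only [if_neg h]
    exact analyticAt_const

theorem Jm_an (hT : Ok T) (j l : κ) (v : (S → ℂ) × (κ → ℂ)) (hv : v.2 ∈ T.W) :
    AnalyticAt ℂ (fun v : (S → ℂ) × (κ → ℂ) => Jm T v.1 v.2 j l) v := by
  have h1 : (fun v : (S → ℂ) × (κ → ℂ) => Jm T v.1 v.2 j l) = fun v =>
      eval (Sum.elim v.2 (T.fz v.2)) (pderiv (Sum.inl l) (Pj v.1 j)) +
      ∑ o, if T.β o = l then T.gz v.2 o * eval (Sum.elim v.2 (T.fz v.2)) (pderiv (Sum.inr o) (Pj v.1 j)) else 0 := rfl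
  rw [h1]
  refine (dPj_an hT j _ v hv).add (Finset.analyticAt_fun_sum _ fun o _ => ?_)
  by_cases h : T.β o = l
  · simp only [if_pos h]
    exact ((hT.gz_an o hv).comp_of_eq analyticAt_snd rfl).mul (dPj_an hT j _ v hv)
  · simp only [if_neg h]
    exact analyticAt_const

theorem det_an (hT : Ok T) (v : (S → ℂ) × (κ → ℂ)) (hv : v.2 ∈ T.W) :
    AnalyticAt ℂ (fun v : (S → ℂ) × (κ → ℂ) => (Jm T v.1 v.2).det) v := by
  simp only [Matrix.det_apply]
  refine Finset.analyticAt_fun_sum _ fun σ _ => ?_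
  have h1 : AnalyticAt ℂ (fun v : (S → ℂ) × (κ → ℂ) => ∏ i, Jm T v.1 v.2 (σ i) i) v :=
    Finset.analyticAt_fun_prod _ fun i _ => Jm_an hT _ _ v hv
  have h2 : (fun v : (S → ℂ) × (κ → ℂ) => Equiv.Perm.sign σ • ∏ i, Jm T v.1 v.2 (σ i) i) = fun v =>
      ((Equiv.Perm.sign σ : ℤ) : ℂ) * ∏ i, Jm T v.1 v.2 (σ i) i := by
    funext v
    rw [Units.smul_def, zsmul_eq_mul]
  rw [h2]
  exact analyticAt_const.mul h1

theorem Ph_add (x ξ : S → ℂ) (t : ℂ) (z : κ → ℂ) (j : κ) :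
    Ph T (x + t • ξ) z j = Ph T x z j + t * ∑ q : S, if q.1.1 = j then ξ q * mo q.1.2 z (T.fz z) else 0 := by
  rw [Ph_sum, Ph_sum, Finset.mul_sum, ← Finset.sum_add_distrib]
  refine Finset.sum_congr rfl fun q _ => ?_
  split_ifs
  · simp only [Pi.add_apply, Pi.smul_apply, smul_eq_mul]
    ring
  · simp

/-- the zeros do not move if the coefficients move in the right directions -/
theorem moving (hT : Ok T) {U : Set (S → ℂ)} {ζ : (S → ℂ) → κ → ℂ} {x0 : S → ℂ} (hU : IsOpen U) (hx0 : x0 ∈ U)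
    (hζ : ContinuousAt ζ x0) (hW : ζ x0 ∈ T.W) (h0 : ∀ x ∈ U, Ph T x (ζ x) = 0) (h1 : (Jm T x0 (ζ x0)).det ≠ 0)
    {ξ : S → ℂ} (hξ : ∀ j, (∑ q : S, if q.1.1 = j then ξ q * mo q.1.2 (ζ x0) (T.fz (ζ x0)) else 0) = 0) :
    ∀ᶠ t : ℂ in 𝓝 0, x0 + t • ξ ∈ U ∧ ζ (x0 + t • ξ) = ζ x0 := by
  obtain ⟨ψ, -, -, -, h2⟩ := Pool.Agent.V8H73.AN.one_zero (Φ := fun v : (S → ℂ) × (κ → ℂ) => Ph T v.1 v.2) (x0 := x0)
    (z0 := ζ x0) (Ph_an hT _ hW) (h0 x0 hx0) (Ph_deriv hT x0 hW) (Dl_inv hT hW h1)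
  have hl : Tendsto (fun t : ℂ => x0 + t • ξ) (𝓝 0) (𝓝 x0) := by
    have h3 : Continuous fun t : ℂ => x0 + t • ξ := continuous_const.add (continuous_id.smul continuous_const)
    have h4 := h3.tendsto 0
    rwa [zero_smul, add_zero] at h4
  have e1 : ∀ᶠ t : ℂ in 𝓝 0, Ph T (x0 + t • ξ) (ζ (x0 + t • ξ)) = 0 → ψ (x0 + t • ξ) = ζ (x0 + t • ξ) := by
    have h3 : Tendsto (fun t : ℂ => (x0 + t • ξ, ζ (x0 + t • ξ))) (𝓝 0) (𝓝 (x0, ζ x0)) :=
      hl.prodMk_nhds (Tendsto.comp hζ hl)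
    exact h3.eventually h2
  have e2 : ∀ᶠ t : ℂ in 𝓝 0, Ph T (x0 + t • ξ) (ζ x0) = 0 → ψ (x0 + t • ξ) = ζ x0 := by
    have h3 : Tendsto (fun t : ℂ => (x0 + t • ξ, ζ x0)) (𝓝 0) (𝓝 (x0, ζ x0)) :=
      hl.prodMk_nhds tendsto_const_nhds
    exact h3.eventually h2
  filter_upwards [e1, e2, hl.eventually (hU.mem_nhds hx0)] with t k1 k2 k3
  refine ⟨k3, ?_⟩
  have k4 : Ph T (x0 + t • ξ) (ζ x0) = 0 := by
    funext j
    rw [Ph_add, hξ j, mul_zero, add_zero]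
    exact congrFun (h0 x0 hx0) j
  rw [← k1 (h0 _ k3), k2 k4]

/-- sums over the exponents of one equation which are concentrated at one exponent -/
theorem sum_at {A : Type*} [AddCommMonoid A] (f : S → A) (q0 : S) (j : κ) (hf : ∀ q, q ≠ q0 → q.1.1 = j → f q = 0) :
    (∑ q : S, if q.1.1 = j then f q else 0) = if q0.1.1 = j then f q0 else 0 := by
  refine Finset.sum_eq_single q0 (fun q _ hq => ?_) fun h => absurd (Finset.mem_univ _) h
  by_cases h : q.1.1 = j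
  · rw [if_pos h, hf q hq h]
  · rw [if_neg h]

theorem ev_Pj_sum (x : S → ℂ) (v : κ ⊕ O → ℂ) (j : κ) :
    eval v (Pj x j) = ∑ q : S, if q.1.1 = j then x q * eval v (monomial q.1.2 1) else 0 := by
  unfold Pj
  rw [map_sum]
  refine Finset.sum_congr rfl fun q _ => ?_
  split_ifs
  · have h1 : monomial q.1.2 (x q) = C (x q) * monomial q.1.2 1 := by rw [C_mul_monomial, mul_one]
    rw [h1, map_mul, eval_C]
  · rw [map_zero]

theorem ev_Pj_add (x ξ : S → ℂ) (t : ℂ) (v : κ ⊕ O → ℂ) (j : κ) :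
    eval v (Pj (x + t • ξ) j) = eval v (Pj x j) +
      t * ∑ q : S, if q.1.1 = j then ξ q * eval v (monomial q.1.2 1) else 0 := by
  rw [ev_Pj_sum, ev_Pj_sum, Finset.mul_sum, ← Finset.sum_add_distrib]
  refine Finset.sum_congr rfl fun q _ => ?_
  split_ifs
  · simp only [Pi.add_apply, Pi.smul_apply, smul_eq_mul]
    ring
  · simp

theorem dPj_add (x ξ : S → ℂ) (t : ℂ) (v : κ ⊕ O → ℂ) (j : κ) (o : κ ⊕ O) :
    eval v (pderiv o (Pj (x + t • ξ) j)) = eval v (pderiv o (Pj x j)) +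
      t * ∑ q : S, if q.1.1 = j then ξ q * eval v (pderiv o (monomial q.1.2 1)) else 0 := by
  rw [dPj_sum, dPj_sum, Finset.mul_sum, ← Finset.sum_add_distrib]
  refine Finset.sum_congr rfl fun q _ => ?_
  split_ifs
  · simp only [Pi.add_apply, Pi.smul_apply, smul_eq_mul]
    ring
  · simp

/-- a sum with two terms in each equation -/
theorem sum_two {A : Type*} [CommRing A] (e : κ → Ex κ O) (he : ∀ j, (j, e j) ∈ S) (h0 : ∀ j, (j, 0) ∈ S)
    (hne : ∀ j, e j ≠ 0) (a b : κ → A) (g : Ex κ O → A) (j : κ) :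
    (∑ q : S, if q.1.1 = j then
      (if q.1.2 = e q.1.1 then a q.1.1 else if q.1.2 = 0 then b q.1.1 else 0) * g q.1.2 else 0) =
      a j * g (e j) + b j * g 0 := by
  have h1 : ∀ q : S, (if q.1.1 = j then
      (if q.1.2 = e q.1.1 then a q.1.1 else if q.1.2 = 0 then b q.1.1 else 0) * g q.1.2 else 0) =
      (if q.1.1 = j then (if q.1.2 = e q.1.1 then a q.1.1 * g q.1.2 else 0) else 0) +
      (if q.1.1 = j then (if q.1.2 = 0 then b q.1.1 * g q.1.2 else 0) else 0) := by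
    intro q
    by_cases hj : q.1.1 = j
    · simp only [if_pos hj]
      by_cases hq : q.1.2 = e q.1.1
      · have : q.1.2 ≠ 0 := by rw [hq]; exact hne _
        rw [if_pos hq, if_pos hq, if_neg this, add_zero]
      · rw [if_neg hq, if_neg hq, zero_add]
        split_ifs <;> ring
    · simp only [if_neg hj, add_zero]
  rw [Finset.sum_congr rfl fun q _ => h1 q, Finset.sum_add_distrib,
    sum_at (fun q : S => if q.1.2 = e q.1.1 then a q.1.1 * g q.1.2 else 0) ⟨(j, e j), he j⟩ j,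
    sum_at (fun q : S => if q.1.2 = 0 then b q.1.1 * g q.1.2 else 0) ⟨(j, 0), h0 j⟩ j]
  · simp
  · intro q hq hj
    refine if_neg fun h2 => hq (Subtype.ext (Prod.ext hj h2))
  · intro q hq hj
    refine if_neg fun h2 => hq (Subtype.ext (Prod.ext hj ?_))
    rw [h2, hj]

theorem single_ne (o : κ ⊕ O) : (Finsupp.single o 1 : Ex κ O) ≠ 0 := by
  rw [Ne, Finsupp.single_eq_zero]
  exact one_ne_zero

/-- the partial Jacobian is generically invertible -/
theorem BB_ne (hT : Ok T) {op : κ → O} (hop : ∀ l, T.β (op l) = l) (hS : Four op S) {U : Set (S → ℂ)}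
    {ζ : (S → ℂ) → κ → ℂ} {x0 : S → ℂ} (hU : IsOpen U) (hx0 : x0 ∈ U)
    (hζ : ContinuousAt ζ x0) (hW : ζ x0 ∈ T.W) (h0 : ∀ x ∈ U, Ph T x (ζ x) = 0) (h1 : (Jm T x0 (ζ x0)).det ≠ 0)
    (hg : ∀ l, T.gz (ζ x0) (op l) ≠ 0) : ∃ x ∈ U, (Bm T x (ζ x)).det ≠ 0 := by
  by_contra hcon
  push Not at hcon
  set y0 := T.fz (ζ x0) with hy0
  let ξ : S → ℂ := fun q => if q.1.2 = Finsupp.single (Sum.inr (op q.1.1)) 1 then 1 else
    if q.1.2 = 0 then - y0 (op q.1.1) else 0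
  have hsum : ∀ (g : Ex κ O → ℂ) (j : κ), (∑ q : S, if q.1.1 = j then ξ q * g q.1.2 else 0) =
      1 * g (Finsupp.single (Sum.inr (op j)) 1) + (- y0 (op j)) * g 0 := fun g j =>
    sum_two (fun j => Finsupp.single (Sum.inr (op j)) 1) (fun j => hS.hy j j) hS.h0 (fun j => single_ne _) (fun _ => 1)
      (fun j => - y0 (op j)) g j
  have hm := moving hT hU hx0 hζ hW h0 h1 (ξ := ξ) fun j => by
    rw [hsum (fun p => mo p (ζ x0) (T.fz (ζ x0))) j, mo_y, mo_zero]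
    ring
  set G : Matrix κ κ ℂ := Matrix.diagonal fun l => T.gz (ζ x0) (op l) with hG
  have hGdet : G.det ≠ 0 := by
    rw [hG, Matrix.det_diagonal]
    exact Finset.prod_ne_zero_iff.2 fun l _ => hg l
  have hGu : IsUnit G.det := isUnit_iff_ne_zero.2 hGdet
  set B0 := Bm T x0 (ζ x0) with hB0
  have hB : ∀ t : ℂ, Bm T (x0 + t • ξ) (ζ x0) = B0 + t • G := by
    intro t
    ext j l
    rw [hB0, hG]
    unfold Bm BB
    rw [Matrix.of_apply, Matrix.add_apply, Matrix.of_apply, Matrix.smul_apply, Matrix.diagonal_apply]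
    have e0 : ∀ o, (if T.β o = l then T.gz (ζ x0) o *
        eval (Sum.elim (ζ x0) (T.fz (ζ x0))) (pderiv (Sum.inr o) (Pj (x0 + t • ξ) j)) else 0) =
        (if T.β o = l then T.gz (ζ x0) o *
          eval (Sum.elim (ζ x0) (T.fz (ζ x0))) (pderiv (Sum.inr o) (Pj x0 j)) else 0) +
        if T.β o = l then t * (if o = op j then T.gz (ζ x0) o else 0) else 0 := by
      intro o
      by_cases ho : T.β o = l
      · simp only [if_pos ho]
        rw [dPj_add, hsum (fun p => eval (Sum.elim (ζ x0) y0) (pderiv (Sum.inr o) (monomial p 1))) j]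
        have e1 : (monomial (Finsupp.single (Sum.inr (op j)) 1) (1 : ℂ) : MvPolynomial (κ ⊕ O) ℂ) = X (Sum.inr (op j)) :=
          rfl
        have e2 : (monomial (0 : Ex κ O) (1 : ℂ) : MvPolynomial (κ ⊕ O) ℂ) = 1 := rfl
        simp only [e1, e2, pderiv_X, pderiv_one, map_zero, mul_zero, add_zero, one_mul]
        by_cases hoj : o = op j
        · subst hoj
          simp
          ring
        · have : (Sum.inr o : κ ⊕ O) ≠ Sum.inr (op j) := fun h => hoj (Sum.inr_injective h)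
          rw [Pi.single_eq_of_ne (Ne.symm this), if_neg hoj]
          simp
      · simp only [if_neg ho, add_zero]
    rw [Finset.sum_congr rfl fun o _ => e0 o, Finset.sum_add_distrib]
    congr 1
    rw [Finset.sum_eq_single (op j) (fun o _ ho => by simp [ho]) (fun h => absurd (Finset.mem_univ _) h), hop]
    by_cases hjl : j = l
    · subst hjl
      simp
    · simp [hjl]
  have hroot : ∀ᶠ t : ℂ in 𝓝 0, ((- (G⁻¹ * B0)).charpoly).IsRoot t := by
    filter_upwards [hm] with t ht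
    rw [Polynomial.IsRoot.def, Matrix.eval_charpoly]
    have h2 := hcon _ ht.1
    rw [ht.2, hB] at h2
    have h3 : B0 + t • G = G * (Matrix.scalar κ t - (- (G⁻¹ * B0))) := by
      rw [sub_neg_eq_add, mul_add, ← mul_assoc, Matrix.mul_nonsing_inv _ hGu, one_mul, add_comm]
      congr 1
      rw [Matrix.scalar_apply, ← Matrix.smul_one_eq_diagonal, Matrix.mul_smul, mul_one]
    rw [h3, Matrix.det_mul] at h2
    exact (mul_eq_zero.1 h2).resolve_left hGdet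
  have hinf : {t : ℂ | ((- (G⁻¹ * B0)).charpoly).IsRoot t}.Infinite := infinite_of_mem_nhds 0 hroot
  exact (Matrix.charpoly_monic _).ne_zero (Polynomial.eq_zero_of_infinite_isRoot _ hinf)

/-- a coordinate is zero -/
theorem coord_zero (hT : Ok T) {op : κ → O} (hS : Four op S) {U : Set (S → ℂ)} {ζ : (S → ℂ) → κ → ℂ} {x0 : S → ℂ}
    (hU : IsOpen U) (hx0 : x0 ∈ U)
    (hζ : ContinuousAt ζ x0) (hW : ζ x0 ∈ T.W) (h0 : ∀ x ∈ U, Ph T x (ζ x) = 0) (h1 : (Jm T x0 (ζ x0)).det ≠ 0)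
    (h : ∀ x ∈ U, ∀ j, eval (Sum.elim 0 (T.fz (ζ x))) (Pj x j) = 0) (l : κ) : ζ x0 l = 0 := by
  let ξ : S → ℂ := fun q => if q.1.2 = Finsupp.single (Sum.inl l) 1 then 1 else if q.1.2 = 0 then - ζ x0 l else 0
  have hsum : ∀ (g : Ex κ O → ℂ) (j : κ), (∑ q : S, if q.1.1 = j then ξ q * g q.1.2 else 0) =
      1 * g (Finsupp.single (Sum.inl l) 1) + (- ζ x0 l) * g 0 := fun g j =>
    sum_two (fun _ => Finsupp.single (Sum.inl l) 1) (fun j => hS.hx j l) hS.h0 (fun j => single_ne _) (fun _ => 1)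
      (fun _ => - ζ x0 l) g j
  have hm := moving hT hU hx0 hζ hW h0 h1 (ξ := ξ) fun j => by
    rw [hsum (fun p => mo p (ζ x0) (T.fz (ζ x0))) j, mo_x, mo_zero]
    ring
  have hm' : ∀ᶠ t : ℂ in 𝓝[≠] 0, x0 + t • ξ ∈ U ∧ ζ (x0 + t • ξ) = ζ x0 := hm.filter_mono nhdsWithin_le_nhds
  obtain ⟨t, ⟨ht1, ht2⟩, ht3⟩ := (hm'.and eventually_mem_nhdsWithin).exists
  have k1 := h _ ht1 l
  rw [ht2, ev_Pj_add, h x0 hx0 l, zero_add,
    hsum (fun p => eval (Sum.elim 0 (T.fz (ζ x0))) (monomial p 1)) l] at k1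
  have e1 : (monomial (Finsupp.single (Sum.inl l) 1) (1 : ℂ) : MvPolynomial (κ ⊕ O) ℂ) = X (Sum.inl l) := rfl
  have e2 : (monomial (0 : Ex κ O) (1 : ℂ) : MvPolynomial (κ ⊕ O) ℂ) = 1 := rfl
  simp only [e1, e2, eval_X, map_one, mul_one, Sum.elim_inl, Pi.zero_apply, zero_add, mul_zero] at k1
  have k2 := (mul_eq_zero.1 k1).resolve_left ht3
  exact neg_eq_zero.1 k2

/-- the derivative of a zero -/
theorem zero_deriv (hT : Ok T) {U : Set (S → ℂ)} (hU : IsOpen U) {ζ : (S → ℂ) → κ → ℂ} (hζ : AnalyticOnNhd ℂ ζ U)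
    (hW : ∀ x ∈ U, ζ x ∈ T.W) (h0 : ∀ x ∈ U, Ph T x (ζ x) = 0) {x : S → ℂ} (hx : x ∈ U) (q : S) (j : κ) :
    (Jm T x (ζ x)).mulVec (fderiv ℂ ζ x (Pi.single q 1)) j =
      - if j = q.1.1 then mo q.1.2 (ζ x) (T.fz (ζ x)) else 0 := by
  set ζ' := fderiv ℂ ζ x (Pi.single q 1) with hζ'
  let m : (κ → ℂ) → ℂ := fun w => if q.1.1 = j then mo q.1.2 w (T.fz w) else 0
  have hline : HasDerivAt (fun t : ℂ => x + t • (Pi.single q (1 : ℂ) : S → ℂ)) (Pi.single q 1) 0 := by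
    have h1 := ((hasDerivAt_id (0 : ℂ)).smul_const (Pi.single q (1 : ℂ) : S → ℂ)).const_add x
    simpa using h1
  have hz1 : HasDerivAt (fun t : ℂ => ζ (x + t • (Pi.single q (1 : ℂ) : S → ℂ))) ζ' 0 := by
    have h1 : HasFDerivAt ζ (fderiv ℂ ζ x) (x + (0 : ℂ) • (Pi.single q (1 : ℂ) : S → ℂ)) := by
      rw [zero_smul, add_zero]
      exact (hζ x hx).differentiableAt.hasFDerivAt
    exact h1.comp_hasDerivAt (0 : ℂ) hline
  have hx00 : x + (0 : ℂ) • (Pi.single q (1 : ℂ) : S → ℂ) = x := by rw [zero_smul, add_zero]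
  have hA : HasDerivAt (fun t : ℂ => Ph T x (ζ (x + t • (Pi.single q (1 : ℂ) : S → ℂ))) j) (Dl T x (ζ x) ζ' j) 0 := by
    have h1 : HasFDerivAt (fun z => Ph T x z j) ((ContinuousLinearMap.proj j).comp (Dl T x (ζ x)))
        (ζ (x + (0 : ℂ) • (Pi.single q (1 : ℂ) : S → ℂ))) := by
      rw [hx00]
      exact (hasFDerivAt_apply j _).comp _ (Ph_deriv hT x (hW x hx))
    exact h1.comp_hasDerivAt (0 : ℂ) hz1
  have hm : AnalyticAt ℂ m (ζ x) := by
    by_cases h : q.1.1 = j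
    · simp only [m, if_pos h]
      exact ev_an hT _ (hW x hx)
    · simp only [m, if_neg h]
      exact analyticAt_const
  have hB : HasDerivAt (fun t : ℂ => t * m (ζ (x + t • (Pi.single q (1 : ℂ) : S → ℂ)))) (m (ζ x)) 0 := by
    have h1 : HasFDerivAt m (fderiv ℂ m (ζ x)) (ζ (x + (0 : ℂ) • (Pi.single q (1 : ℂ) : S → ℂ))) := by
      rw [hx00]
      exact hm.differentiableAt.hasFDerivAt
    have h2 := (hasDerivAt_id (0 : ℂ)).fun_mul (h1.comp_hasDerivAt (0 : ℂ) hz1)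
    refine h2.congr_deriv ?_
    simp only [id_eq, Function.comp_apply, one_mul, zero_mul, add_zero, hx00]
  have hzero : (fun t : ℂ => Ph T x (ζ (x + t • (Pi.single q (1 : ℂ) : S → ℂ))) j +
      t * m (ζ (x + t • (Pi.single q (1 : ℂ) : S → ℂ)))) =ᶠ[𝓝 0] fun _ => 0 := by
    have h1 : ∀ᶠ t : ℂ in 𝓝 0, x + t • (Pi.single q (1 : ℂ) : S → ℂ) ∈ U :=
      hline.continuousAt.eventually (by simpa using hU.mem_nhds hx)
    filter_upwards [h1] with t ht
    have h2 := congrFun (h0 _ ht) j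
    rw [Ph_add, sum_at (fun q' : S => (Pi.single q (1 : ℂ) : S → ℂ) q' * mo q'.1.2 _ _) q j (fun q' hq' _ => by
      rw [Pi.single_eq_of_ne hq', zero_mul]), Pi.single_eq_same, one_mul, Pi.zero_apply] at h2
    exact h2
  have h1 := ((hA.add hB).congr_of_eventuallyEq hzero.symm).unique (hasDerivAt_const (0 : ℂ) (0 : ℂ))
  rw [Dl_apply hT x (hW x hx)] at h1
  have h2 : m (ζ x) = if j = q.1.1 then mo q.1.2 (ζ x) (T.fz (ζ x)) else 0 := by
    by_cases h : q.1.1 = j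
    · rw [if_pos h.symm]
      exact if_pos h
    · rw [if_neg (Ne.symm h)]
      exact if_neg h
  rw [← h2]
  exact eq_neg_of_add_eq_zero_left h1

end Pool.Agent.V8H73.GN
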