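import Pool.Agent.V8H73.AN.NullC
import Pool.Agent.V8H73.GN.Mov

/-!
# Systems with degenerate zeros are a null set
-/

set_option autoImplicit false
set_option linter.unusedSectionVars false

open MeasureTheory Set Filter MvPolynomial
open scoped Topology

namespace Pool.Agent.V8H73.GN

open Pool.Agent.V8H73.AN (det_zero sard null_lin)

variable {κ O : Type} [Fintype κ] [DecidableEq κ] [Fintype O] [DecidableEq O] {S : Finset (κ × Ex κ O)} {T : Dat κ O}

/-- an open set is the union of countably many compact sets -/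
theorem exh {V : Type*} [NormedAddCommGroup V] [ProperSpace V] {W : Set V} (hW : IsOpen W) :
    ∃ K : ℕ → Set V, (∀ m, IsCompact (K m)) ∧ (∀ m, K m ⊆ W) ∧ Monotone K ∧ ∀ z ∈ W, ∃ m, z ∈ K m := by
  have : LocallyCompactSpace W := hW.locallyCompactSpace
  let K := CompactExhaustion.choice W
  refine ⟨fun m => Subtype.val '' K m, fun m => (K.isCompact m).image continuous_subtype_val, ?_, ?_, ?_⟩
  · rintro m _ ⟨z, -, rfl⟩
    exact z.2
  · intro a b hab
    exact image_mono (K.subset hab)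
  · intro z hz
    obtain ⟨m, hm⟩ := K.exists_mem ⟨z, hz⟩
    exact ⟨m, ⟨z, hz⟩, hm, rfl⟩

theorem closed_proj {E V : Type*} [TopologicalSpace E] [TopologicalSpace V] {K : Set V} (hK : IsCompact K)
    {P : E × V → Prop} (hP : IsClosed {v : E × K | P (v.1, v.2)}) : IsClosed {x : E | ∃ z ∈ K, P (x, z)} := by
  have : CompactSpace K := isCompact_iff_compactSpace.1 hK
  have h2 := isClosedMap_fst_of_compactSpace (X := E) (Y := K) _ hP
  have h3 : {x : E | ∃ z ∈ K, P (x, z)} = Prod.fst '' {v : E × K | P (v.1, v.2)} := by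
    ext x
    constructor
    · rintro ⟨z, hz, h4⟩
      exact ⟨(x, ⟨z, hz⟩), h4, rfl⟩
    · rintro ⟨⟨x', z, hz⟩, h4, rfl⟩
      exact ⟨z, hz, h4⟩
  rw [h3]
  exact h2

/-- a degenerate zero -/
def Dg (T : Dat κ O) (x : S → ℂ) (z : κ → ℂ) : Prop := Ph T x z = 0 ∧ (Jm T x z).det = 0

/-- the parameters with a degenerate zero in the set -/
def Bad (T : Dat κ O) (S : Finset (κ × Ex κ O)) (K : Set (κ → ℂ)) : Set (S → ℂ) := {x | ∃ z ∈ K, Dg T x z}

theorem dg_closed (hT : Ok T) {K : Set (κ → ℂ)} (hKW : K ⊆ T.W) :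
    IsClosed {v : (S → ℂ) × K | Dg T v.1 v.2} := by
  have hg : Continuous fun v : (S → ℂ) × K => ((v.1, v.2) : (S → ℂ) × (κ → ℂ)) :=
    continuous_fst.prodMk (continuous_subtype_val.comp continuous_snd)
  have h1 : Continuous fun v : (S → ℂ) × K => Ph T v.1 (v.2 : κ → ℂ) := by
    refine continuous_iff_continuousAt.2 fun v => ?_
    have h2 : ContinuousAt (fun v : (S → ℂ) × (κ → ℂ) => Ph T v.1 v.2) (v.1, (v.2 : κ → ℂ)) :=
      (Ph_an hT (v.1, (v.2 : κ → ℂ)) (hKW v.2.2)).continuousAt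
    exact ContinuousAt.comp (g := fun v : (S → ℂ) × (κ → ℂ) => Ph T v.1 v.2)
      (f := fun v : (S → ℂ) × K => (v.1, (v.2 : κ → ℂ))) (x := v) h2 hg.continuousAt
  have h2 : Continuous fun v : (S → ℂ) × K => (Jm T v.1 (v.2 : κ → ℂ)).det := by
    refine continuous_iff_continuousAt.2 fun v => ?_
    have h2 : ContinuousAt (fun v : (S → ℂ) × (κ → ℂ) => (Jm T v.1 v.2).det) (v.1, (v.2 : κ → ℂ)) :=
      (det_an hT (v.1, (v.2 : κ → ℂ)) (hKW v.2.2)).continuousAt
    exact ContinuousAt.comp (g := fun v : (S → ℂ) × (κ → ℂ) => (Jm T v.1 v.2).det)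
      (f := fun v : (S → ℂ) × K => (v.1, (v.2 : κ → ℂ))) (x := v) h2 hg.continuousAt
  exact (isClosed_eq h1 continuous_const).inter (isClosed_eq h2 continuous_const)

theorem bad_closed (hT : Ok T) {K : Set (κ → ℂ)} (hK : IsCompact K) (hKW : K ⊆ T.W) : IsClosed (Bad T S K) :=
  closed_proj (P := fun v : (S → ℂ) × (κ → ℂ) => Dg T v.1 v.2) hK (dg_closed hT hKW)

/-- the constant terms move -/
def Lc {A : Type*} [CommRing A] (S : Finset (κ × Ex κ O)) : (κ → A) →ₗ[A] (S → A) where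
  toFun t q := if q.1.2 = 0 then t q.1.1 else 0
  map_add' s t := by
    funext q
    by_cases h : q.1.2 = 0
    · simp [h]
    · simp [h]
  map_smul' a t := by
    funext q
    by_cases h : q.1.2 = 0
    · simp [h]
    · simp [h]

theorem Lc_apply {A : Type*} [CommRing A] (t : κ → A) (q : S) : Lc S t q = if q.1.2 = 0 then t q.1.1 else 0 := rfl

theorem Ph_add' (x ξ : S → ℂ) (z : κ → ℂ) (j : κ) :
    Ph T (x + ξ) z j = Ph T x z j + ∑ q : S, if q.1.1 = j then ξ q * mo q.1.2 z (T.fz z) else 0 := by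
  have h1 := Ph_add (T := T) x ξ 1 z j
  rwa [one_smul, one_mul] at h1

theorem dPj_add' (x ξ : S → ℂ) (v : κ ⊕ O → ℂ) (j : κ) (o : κ ⊕ O) :
    eval v (pderiv o (Pj (x + ξ) j)) = eval v (pderiv o (Pj x j)) +
      ∑ q : S, if q.1.1 = j then ξ q * eval v (pderiv o (monomial q.1.2 1)) else 0 := by
  rw [dPj_sum, dPj_sum, ← Finset.sum_add_distrib]
  refine Finset.sum_congr rfl fun q _ => ?_
  split_ifs
  · simp only [Pi.add_apply]
    ring
  · simp

/-- a sum with constant terms -/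
theorem sum_c (h0 : ∀ j, (j, 0) ∈ S) (t : κ → ℂ) (g : Ex κ O → ℂ) (j : κ) :
    (∑ q : S, if q.1.1 = j then (if q.1.2 = 0 then t q.1.1 else 0) * g q.1.2 else 0) = t j * g 0 := by
  rw [sum_at (fun q : S => (if q.1.2 = 0 then t q.1.1 else 0) * g q.1.2) ⟨(j, 0), h0 j⟩ j]
  · simp
  · intro q hq hj
    rw [if_neg fun h2 => hq (Subtype.ext (Prod.ext hj h2)), zero_mul]

theorem Ph_Lc (h0 : ∀ j, (j, 0) ∈ S) (x : S → ℂ) (t z : κ → ℂ) : Ph T (x + Lc S t) z = Ph T x z + t := by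
  funext j
  rw [Ph_add', Pi.add_apply]
  congr 1
  have h1 := sum_c h0 t (fun p => mo p z (T.fz z)) j
  rw [mo_zero, mul_one] at h1
  exact h1

theorem Jm_Lc (h0 : ∀ j, (j, 0) ∈ S) (x : S → ℂ) (t z : κ → ℂ) : Jm T (x + Lc S t) z = Jm T x z := by
  have h1 : ∀ j o, eval (Sum.elim z (T.fz z)) (pderiv o (Pj (x + Lc S t) j)) =
      eval (Sum.elim z (T.fz z)) (pderiv o (Pj x j)) := by
    intro j o
    rw [dPj_add']
    have h2 := sum_c h0 t (fun p => eval (Sum.elim z (T.fz z)) (pderiv o (monomial p 1))) j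
    have h3 : (monomial (0 : Ex κ O) (1 : ℂ) : MvPolynomial (κ ⊕ O) ℂ) = 1 := rfl
    rw [h3, pderiv_one, map_zero, mul_zero] at h2
    change _ + (∑ q : S, if q.1.1 = j then (if q.1.2 = 0 then t q.1.1 else 0) *
      eval (Sum.elim z (T.fz z)) (pderiv o (monomial q.1.2 1)) else 0) = _
    rw [h2, add_zero]
  ext j l
  simp only [Jm, JJ, BB, Matrix.of_apply, h1]

/-- **Complex parameters.** -/
theorem bad_null (hT : Ok T) (h0 : ∀ j, (j, 0) ∈ S) {K : Set (κ → ℂ)} (hK : IsCompact K) (hKW : K ⊆ T.W) :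
    (volume : Measure (S → ℂ)) (Bad T S K) = 0 := by
  refine null_lin (𝕜 := ℂ) (volume : Measure (κ → ℂ)) volume (Lc S) (bad_closed hT hK hKW).measurableSet fun y => ?_
  refine measure_mono_null (t := (fun z => - Ph T y z) '' {z | z ∈ T.W ∧ (Jm T y z).det = 0}) ?_ ?_
  · rintro t ⟨z, hz, hz1, hz2⟩
    rw [Jm_Lc h0] at hz2
    rw [Ph_Lc h0] at hz1
    exact ⟨z, ⟨hKW hz, hz2⟩, (eq_neg_of_add_eq_zero_right hz1).symm⟩
  · refine sard volume (f' := fun z => - (Dl T y z).restrictScalars ℝ)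
      (fun z hz => (Ph_deriv hT y hz.1).neg.restrictScalars ℝ) fun z hz => ?_
    obtain ⟨v, hv, hv'⟩ := Matrix.exists_mulVec_eq_zero_iff.2 hz.2
    refine ⟨v, hv, ?_⟩
    change - (Dl T y z v) = 0
    rw [Dl_apply hT y hz.1, hv', neg_zero]

end Pool.Agent.V8H73.GN
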