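import Pool.Agent.V8H73.GN.Ind
import Pool.Agent.V8H73.GN.NullC
import Pool.Agent.V8H73.AN.AeC

/-!
# The zeros and the coefficients of almost all systems are algebraically independent
-/

set_option autoImplicit false
set_option linter.unusedSectionVars false

open Set Filter MeasureTheory
open scoped Topology

namespace Pool.Agent.V8H73.GN

open Pool.Agent.V8H73.AN (null_rel)

variable {κ O E : Type} [Fintype κ] [DecidableEq κ] [Fintype O] [DecidableEq O] [Fintype E] [DecidableEq E]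
  {S : Finset (κ × Ex κ O)} {T : Dat κ O} {op : κ → O} {γ : E → κ} {eh : E → ℂ → ℂ}

/-- **The zeros in a compact set near parameters without degenerate zeros.** -/
theorem patch_S (hA : Ax T op γ eh) (hS : Four op S) {K : Set (κ → ℂ)} (hK : IsCompact K) (hKW : K ⊆ T.W)
    {x0 : S → ℂ} (h : x0 ∉ Bad T S K) :
    ∃ (δ : ℝ) (N : ℕ) (ζ : Fin N → (S → ℂ) → κ → ℂ), 0 < δ ∧ Br T (Metric.ball x0 δ) ζ ∧
      (Pool.Agent.N207.AX.Ind (Metric.ball x0 δ) fun (q : Fin N × (κ ⊕ E)) x => hv γ eh (ζ q.1 x) q.2) ∧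
      ∀ x ∈ Metric.ball x0 δ, ∀ z ∈ K, Ph T x z = 0 → ∃ i, ζ i x = z ∧ (Jm T x z).det ≠ 0 := by
  have hT := hA.nd.ok
  have hs : ∀ z ∈ K, Ph T x0 z = 0 → (Jm T x0 z).det ≠ 0 := fun z hz h0 h1 => h ⟨z, hz, h0, h1⟩
  obtain ⟨δ, N, ζ, hδ, h1, hW, h2, h3, h4, h5⟩ := patch (E := S → ℂ) (V := κ → ℂ) hT.W_open hK hKW
    (Φ := fun v => Ph T v.1 v.2) (fun v hv => Ph_an hT v hv) (D := Dl T) (d := fun x z => (Jm T x z).det)
    (fun x z hz => Ph_deriv hT x hz) (fun x z hz => Dl_inv hT hz) (fun v hv => (det_an hT v hv).continuousAt)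
    (x0 := x0) hs
  have hB : Br T (Metric.ball x0 δ) ζ := ⟨fun i => ⟨h1 i, hW i, h2 i, h3 i⟩, fun i j hij => ⟨x0,
    Metric.mem_ball_self hδ, h4 i j hij x0 (Metric.mem_ball_self hδ)⟩⟩
  refine ⟨δ, N, ζ, hδ, hB, br_ind hA hS Metric.isOpen_ball (convex_ball x0 δ).isPreconnected
    ⟨x0, Metric.mem_ball_self hδ⟩ hB, fun x hx z hz h0 => ?_⟩
  obtain ⟨i, hi⟩ := h5 x hx z hz h0
  exact ⟨i, hi, by rw [← hi]; exact h3 i x hx⟩

/-- one compact set -/
theorem ae_R (hA : Ax T op γ eh) (hS : Four op S) (L : Subfield ℂ) [Countable L] {K : Set (κ → ℂ)}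
    (hK : IsCompact K) (hKW : K ⊆ T.W) : ∀ᵐ x : S → ℂ, x ∉ Bad T S K ∧
    ∀ s : Finset (κ → ℂ), (∀ z ∈ s, z ∈ K ∧ Ph T x z = 0) → AlgebraicIndependent L
      (Sum.elim x (fun q : s × (κ ⊕ E) => hv γ eh (q.1 : κ → ℂ) q.2) : S ⊕ (s × (κ ⊕ E)) → ℂ) := by
  have h1 : ∀ᵐ x : S → ℂ, x ∉ Bad T S K := by
    rw [ae_iff]
    simp only [not_not]
    exact bad_null hA.nd.ok hS.h0 hK hKW
  have h2 : (volume : Measure (S → ℂ)) {x | x ∉ Bad T S K ∧ ¬ ∀ s : Finset (κ → ℂ),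
      (∀ z ∈ s, z ∈ K ∧ Ph T x z = 0) → AlgebraicIndependent L
      (Sum.elim x (fun q : s × (κ ⊕ E) => hv γ eh (q.1 : κ → ℂ) q.2) : S ⊕ (s × (κ ⊕ E)) → ℂ)} = 0 := by
    refine measure_null_of_locally_null _ fun x0 hx0 => ?_
    obtain ⟨δ, N, ζ, hδ, hB, hI, hcov⟩ := patch_S hA hS hK hKW hx0.1
    have hcount := Pool.Agent.Y563.SE.countable_mvPolynomial (S ⊕ (Fin N × (κ ⊕ E))) L
    refine ⟨⋃ p : {p : MvPolynomial (S ⊕ (Fin N × (κ ⊕ E))) L // p ≠ 0}, {x | x ∈ Metric.ball x0 δ ∧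
      MvPolynomial.eval (Sum.elim x fun q => hv γ eh (ζ q.1 x) q.2) (MvPolynomial.map (algebraMap L ℂ) p.1) = 0},
      ?_, ?_⟩
    · rw [mem_nhdsWithin]
      refine ⟨Metric.ball x0 δ, Metric.isOpen_ball, Metric.mem_ball_self hδ, ?_⟩
      rintro x ⟨hxb, -, hx⟩
      push Not at hx
      obtain ⟨s, hs, hni⟩ := hx
      have hex : ∀ z : s, ∃ i, ζ i x = z := fun z => by
        obtain ⟨i, hi, -⟩ := hcov x hxb z.1 (hs z.1 z.2).1 (hs z.1 z.2).2
        exact ⟨i, hi⟩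
      choose e he using hex
      have hinj : Function.Injective e := fun z z' h => Subtype.ext (by rw [← he z, ← he z', h])
      have hni' : ¬ AlgebraicIndependent L
          (Sum.elim x (fun q => hv γ eh (ζ q.1 x) q.2) : S ⊕ (Fin N × (κ ⊕ E)) → ℂ) := by
        intro h
        apply hni
        have h3 := h.comp (Sum.map id (Prod.map e id))
          (Function.injective_id.sumMap (hinj.prodMap Function.injective_id))
        have h4 : (Sum.elim x (fun q => hv γ eh (ζ q.1 x) q.2) : S ⊕ (Fin N × (κ ⊕ E)) → ℂ) ∘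
            Sum.map id (Prod.map e id) = Sum.elim x (fun q : s × (κ ⊕ E) => hv γ eh (q.1 : κ → ℂ) q.2) := by
          funext o
          rcases o with q | q
          · rfl
          · change hv γ eh (ζ (e q.1) x) q.2 = hv γ eh (q.1 : κ → ℂ) q.2
            rw [he]
        rwa [h4] at h3
      rw [algebraicIndependent_iff] at hni'
      push Not at hni'
      obtain ⟨p, hp1, hp2⟩ := hni'
      refine Set.mem_iUnion.2 ⟨⟨p, hp2⟩, hxb, ?_⟩
      rw [MvPolynomial.eval_map]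
      exact hp1
    · refine measure_iUnion_null fun p => ?_
      refine null_rel Metric.isOpen_ball (convex_ball x0 δ).isPreconnected
        (f := fun (q : Fin N × (κ ⊕ E)) x => hv γ eh (ζ q.1 x) q.2) (fun q => (hB.b q.1).hv hA q.2) hI fun h => p.2 ?_
      exact MvPolynomial.map_injective _ (algebraMap L ℂ).injective (by rw [h, map_zero])
  have h3 : ∀ᵐ x : S → ℂ, ¬ (x ∉ Bad T S K ∧ ¬ ∀ s : Finset (κ → ℂ),
      (∀ z ∈ s, z ∈ K ∧ Ph T x z = 0) → AlgebraicIndependent L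
      (Sum.elim x (fun q : s × (κ ⊕ E) => hv γ eh (q.1 : κ → ℂ) q.2) : S ⊕ (s × (κ ⊕ E)) → ℂ)) := by
    rw [ae_iff]
    simp only [not_not]
    exact h2
  filter_upwards [h1, h3] with x hx1 hx3
  refine ⟨hx1, ?_⟩
  by_contra hcon
  exact hx3 ⟨hx1, hcon⟩

/-- the statement on all zeros from the statement on finitely many zeros -/
theorem all_of_fin {C : Set (κ → ℂ)} {x : S → ℂ} (L : Subfield ℂ)
    (h : ∀ s : Finset (κ → ℂ), (∀ z ∈ s, z ∈ C) → AlgebraicIndependent L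
      (Sum.elim x (fun q : s × (κ ⊕ E) => hv γ eh (q.1 : κ → ℂ) q.2) : S ⊕ (s × (κ ⊕ E)) → ℂ)) :
    AlgebraicIndependent L (Sum.elim x fun q : C × (κ ⊕ E) => hv γ eh (q.1 : κ → ℂ) q.2) := by
  classical
  refine algebraicIndependent_of_finite_type fun t ht => ?_
  let s : Finset (κ → ℂ) := ht.toFinset.biUnion fun o => o.elim (fun _ => ∅) fun q => {(q.1 : κ → ℂ)}
  have hs : ∀ q : C × (κ ⊕ E), Sum.inr q ∈ t → (q.1 : κ → ℂ) ∈ s := by
    intro q hq
    refine Finset.mem_biUnion.2 ⟨Sum.inr q, ht.mem_toFinset.2 hq, ?_⟩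
    exact Finset.mem_singleton_self _
  have hs2 : ∀ z ∈ s, z ∈ C := by
    intro z hz
    obtain ⟨o, -, ho⟩ := Finset.mem_biUnion.1 hz
    rcases o with o | q
    · simp at ho
    · rw [Sum.elim_inr, Finset.mem_singleton] at ho
      rw [ho]
      exact q.1.2
  have h2 := h s hs2
  let g : t → S ⊕ (s × (κ ⊕ E)) := fun i => match i with
    | ⟨Sum.inl q, _⟩ => Sum.inl q
    | ⟨Sum.inr q, h⟩ => Sum.inr (⟨q.1.1, hs q h⟩, q.2)
  have hg : Function.Injective g := by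
    rintro ⟨a | a, ha⟩ ⟨b | b, hb⟩ h
    · simpa [g] using h
    · simp [g] at h
    · simp [g] at h
    · simp only [g, Sum.inr.injEq, Prod.mk.injEq, Subtype.mk.injEq] at h
      have h3 : a = b := Prod.ext (Subtype.ext h.1) h.2
      subst h3
      rfl
  have h3 := h2.comp g hg
  have h4 : ((Sum.elim x (fun q : s × (κ ⊕ E) => hv γ eh (q.1 : κ → ℂ) q.2) : S ⊕ (s × (κ ⊕ E)) → ℂ) ∘ g) =
      fun i : t => (Sum.elim x (fun q : C × (κ ⊕ E) => hv γ eh (q.1 : κ → ℂ) q.2) : _ → ℂ) i := by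
    funext i
    rcases i with ⟨a | a, ha⟩
    · rfl
    · rfl
  rwa [h4] at h3

/-- **Almost all systems.** -/
theorem ae_all (hA : Ax T op γ eh) (hS : Four op S) (L : Subfield ℂ) [Countable L] : ∀ᵐ x : S → ℂ,
    (∀ z ∈ T.W, Ph T x z = 0 → (Jm T x z).det ≠ 0) ∧
    AlgebraicIndependent L (Sum.elim x fun q : {z : κ → ℂ | z ∈ T.W ∧ Ph T x z = 0} × (κ ⊕ E) =>
      hv γ eh (q.1 : κ → ℂ) q.2) := by
  classical
  obtain ⟨K, hK1, hK2, hK3, hK4⟩ := exh hA.nd.ok.W_open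
  have h1 := ae_all_iff.2 fun m : ℕ => ae_R hA hS L (hK1 m) (hK2 m)
  filter_upwards [h1] with x hx
  constructor
  · intro z hzW hz hd
    obtain ⟨m, hm⟩ := hK4 z hzW
    exact (hx m).1 ⟨z, hm, hz, hd⟩
  · refine all_of_fin L fun s hs => ?_
    choose! m hm using hK4
    exact (hx (s.sup m)).2 s fun z hz => ⟨hK3 (Finset.le_sup hz) (hm z (hs z hz).1), (hs z hz).2⟩

end Pool.Agent.V8H73.GN
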