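import Pool.Agent.V8H73.GN.Mov
import Pool.Agent.V8H73.AN.Fun

/-!
# Zeros of systems as functions of the coefficients: the blocks of functions
-/

set_option autoImplicit false
set_option linter.unusedSectionVars false

open Set Filter MvPolynomial
open scoped Topology

namespace Pool.Agent.V8H73.GN

open Pool.Agent.V8H73
open Pool.Agent.V8H73.AN (Mod)

variable {κ O : Type} [Fintype κ] [DecidableEq κ] [Fintype O] [DecidableEq O] {S : Finset (κ × Ex κ O)} {T : Dat κ O}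
  {op : κ → O} {U : Set (S → ℂ)}

/-- the functions of one coordinate are algebraic over one of them -/
structure Nd (T : Dat κ O) (op : κ → O) : Prop where
  ok : Ok T
  ho : ∀ l, T.β (op l) = l
  nz : ∀ l, ∀ t ∈ T.D l, ∀ᶠ s in 𝓝[≠] t, T.g (op l) s ≠ 0
  wr : ∀ {X : Type} [Fintype X] {U : Set (X → ℂ)} {k F : Type} [Field k] [Field F] [Algebra k F]
    {χ : MvPolynomial X ℂ →+* k} {φ : AZ.An U →+* F}, Mod U χ φ → ∀ {u : κ → (X → ℂ) → ℂ},
    (∀ l, ∀ x ∈ U, u l x ∈ T.D l) → ∀ (hf : ∀ o, AnalyticOnNhd ℂ (fun x => T.f o (u (T.β o) x)) U)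
    (hg : ∀ o, AnalyticOnNhd ℂ (fun x => T.g o (u (T.β o) x)) U) (δ : Derivation k F F) (o : O) (l : κ), T.β o = l →
    φ (AZ.el (hg (op l))) * δ (φ (AZ.el (hf o))) = φ (AZ.el (hg o)) * δ (φ (AZ.el (hf (op l))))
  gk : ∀ {X : Type} [Fintype X] {U : Set (X → ℂ)} {k F : Type} [Field k] [Field F] [Algebra k F]
    {χ : MvPolynomial X ℂ →+* k} {φ : AZ.An U →+* F}, Mod U χ φ → ∀ {u : κ → (X → ℂ) → ℂ},
    (∀ l, ∀ x ∈ U, u l x ∈ T.D l) → ∀ (hf : ∀ o, AnalyticOnNhd ℂ (fun x => T.f o (u (T.β o) x)) U)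
    (hg : ∀ o, AnalyticOnNhd ℂ (fun x => T.g o (u (T.β o) x)) U) (δ : Derivation k F F) (l : κ),
    (∀ o, T.β o = l → δ (φ (AZ.el (hf o))) = 0) → ∀ o, T.β o = l → δ (φ (AZ.el (hg o))) = 0

/-- a nondegenerate zero which is an analytic function -/
structure B1 (T : Dat κ O) (U : Set (S → ℂ)) (ζ : (S → ℂ) → κ → ℂ) : Prop where
  an : AnalyticOnNhd ℂ ζ U
  mem : ∀ x ∈ U, ζ x ∈ T.W
  zero : ∀ x ∈ U, Ph T x (ζ x) = 0
  simple : ∀ x ∈ U, (Jm T x (ζ x)).det ≠ 0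

variable {ζ ζ' : (S → ℂ) → κ → ℂ}

theorem B1.z (h : B1 T U ζ) (l : κ) : AnalyticOnNhd ℂ (fun x => ζ x l) U := fun x hx =>
  ((pl l).analyticAt _).comp_of_eq (h.an x hx) rfl

theorem B1.y (h : B1 T U ζ) (hT : Ok T) (o : O) : AnalyticOnNhd ℂ (fun x => T.f o (ζ x (T.β o))) U := fun x hx =>
  (hT.fz_an o (h.mem x hx)).comp_of_eq (h.an x hx) rfl

theorem B1.g (h : B1 T U ζ) (hT : Ok T) (o : O) : AnalyticOnNhd ℂ (fun x => T.g o (ζ x (T.β o))) U := fun x hx =>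
  (hT.gz_an o (h.mem x hx)).comp_of_eq (h.an x hx) rfl

theorem B1.dz (h : B1 T U ζ) (l : κ) (q : S) : AnalyticOnNhd ℂ (fun x => fderiv ℂ ζ x (Pi.single q 1) l) U := by
  intro x hx
  have h1 : AnalyticAt ℂ (fderiv ℂ ζ) x := h.an.fderiv x hx
  have h2 := (((pl l).comp (ContinuousLinearMap.apply ℂ (κ → ℂ) (Pi.single q (1 : ℂ) : S → ℂ))).analyticAt
    (fderiv ℂ ζ x)).comp_of_eq h1 rfl
  exact h2

theorem B1.dsum (h : B1 T U ζ) (m : κ → ℂ) {x : S → ℂ} (hx : x ∈ U) :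
    HasFDerivAt (fun x => ∑ l, m l * ζ x l) (∑ l, m l • (pl l).comp (fderiv ℂ ζ x)) x := by
  refine HasFDerivAt.fun_sum fun l _ => ?_
  exact ((pl_deriv l (ζ x)).comp x (h.an x hx).differentiableAt.hasFDerivAt).const_mul (m l)

/-- the coordinates are not constant -/
theorem B1.nc (h : B1 T U ζ) (hT : Ok T) (h0 : ∀ j, (j, 0) ∈ S) (hU : IsOpen U) {x : S → ℂ} (hx : x ∈ U) (l : κ) :
    ∃ q, fderiv ℂ ζ x (Pi.single q 1) l ≠ 0 := by
  by_contra hcon
  push Not at hcon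
  let Z : Matrix κ κ ℂ := Matrix.of fun l j => fderiv ℂ ζ x (Pi.single ⟨(j, 0), h0 j⟩ 1) l
  have h1 : Jm T x (ζ x) * (-Z) = 1 := by
    ext j j'
    have h2 := zero_deriv hT hU h.an h.mem h.zero hx ⟨(j', 0), h0 j'⟩ j
    rw [Matrix.mul_neg, Matrix.neg_apply, Matrix.mul_apply, Matrix.one_apply]
    have h3 : ∑ i, Jm T x (ζ x) j i * Z i j' = - if j = j' then 1 else 0 := by
      refine h2.trans ?_
      rw [mo_zero]
    rw [h3, neg_neg]
  have h2 := mul_eq_one_comm.1 h1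
  have h3 := congrFun (congrFun h2 l) l
  rw [Matrix.mul_apply, Matrix.one_apply_eq, Finset.sum_eq_zero fun j _ => ?_] at h3
  · exact zero_ne_one h3
  · have h4 : Z l j = 0 := hcon _
    rw [Matrix.neg_apply, h4, neg_zero, zero_mul]

theorem B1.g_ne (h : B1 T U ζ) (hN : Nd T op) (h0 : ∀ j, (j, 0) ∈ S) (hU : IsOpen U) (hne : U.Nonempty) (l : κ) :
    ∃ x ∈ U, T.g (op l) (ζ x l) ≠ 0 := by
  by_contra hcon
  push Not at hcon
  obtain ⟨x0, hx0⟩ := hne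
  obtain ⟨q, hq⟩ := h.nc hN.ok h0 hU hx0 l
  apply hq
  have h1 := hN.nz l _ (h.mem x0 hx0 l)
  rw [eventually_nhdsWithin_iff] at h1
  have h2 : ∀ᶠ x in 𝓝 x0, ζ x l = ζ x0 l := by
    filter_upwards [(h.z l x0 hx0).continuousAt.eventually h1, hU.mem_nhds hx0] with x hx hxU
    by_contra hne
    exact hx hne (hcon x hxU)
  have h3 : HasFDerivAt (fun x => ζ x l) ((pl l).comp (fderiv ℂ ζ x0)) x0 :=
    (pl_deriv l (ζ x0)).comp x0 (h.an x0 hx0).differentiableAt.hasFDerivAt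
  have h4 := (h3.congr_of_eventuallyEq (EventuallyEq.symm h2)).unique (hasFDerivAt_const (ζ x0 l) x0)
  have h5 := congrArg (fun L => L (Pi.single q 1)) h4
  exact h5

variable {k F : Type} [Field k] [Field F] [Algebra k F] {χ : MvPolynomial S ℂ →+* k} {φ : AZ.An U →+* F}

/-- the coefficients -/
noncomputable def cK (χ : MvPolynomial S ℂ →+* k) : S → k := fun q => χ (X q)

theorem cF_cK (hM : Mod U χ φ) : cF F (cK χ) = fun q => φ (AZ.toAn U (X q)) := funext fun q => hM.tow (X q)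

theorem ev_X (x : U) : (fun q : S => AZ.evp x (AZ.toAn U (X q))) = (x : S → ℂ) := funext fun q => eval_X q

theorem B1.g_all (h : B1 T U ζ) (hN : Nd T op) (h0 : ∀ j, (j, 0) ∈ S) (hU : IsOpen U) (hc : IsPreconnected U)
    (hne : U.Nonempty) : ∃ x ∈ U, ∀ l, T.gz (ζ x) (op l) ≠ 0 := by
  have hdom : IsDomain (AZ.An U) := AZ.an_domain hU hc hne
  have h1 : ∏ l, AZ.el (h.g hN.ok (op l)) ≠ 0 := by
    refine Finset.prod_ne_zero_iff.2 fun l _ hl => ?_
    obtain ⟨x, hx, hx'⟩ := h.g_ne hN h0 hU hne l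
    apply hx'
    have h2 := congrArg (AZ.evp (⟨x, hx⟩ : U)) hl
    rw [AZ.evp_el, map_zero, hN.ho l] at h2
    exact h2
  by_contra hcon
  push Not at hcon
  apply h1
  refine AZ.zero_of_evp fun x => ?_
  rw [map_prod]
  obtain ⟨l, hl⟩ := hcon x x.2
  refine Finset.prod_eq_zero (Finset.mem_univ l) ?_
  rw [AZ.evp_el]
  exact hl

theorem blk (hN : Nd T op) (hS : Four op S) (hU : IsOpen U) (hc : IsPreconnected U) (hne : U.Nonempty)
    (hM : Mod U χ φ) (h : B1 T U ζ) :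
    Blk T.β op (cK χ) (fun l => φ (AZ.el (h.z l))) (fun o => φ (AZ.el (h.y hN.ok o)))
      (fun o => φ (AZ.el (h.g hN.ok o))) (fun l q => φ (AZ.el (h.dz l q))) := by
  have hdet : ∀ {A : Matrix κ κ (AZ.An U)}, (∃ x : U, (A.map (AZ.evp x)).det ≠ 0) → (A.map φ).det ≠ 0 := by
    rintro A ⟨x, hx⟩ h0
    have h1 : (A.map φ).det = φ A.det := (RingHom.map_det φ A).symm
    rw [h1] at h0
    have h2 : A.det = 0 := hM.inj (by rw [h0, map_zero])
    apply hx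
    have h3 : (A.map (AZ.evp x)).det = AZ.evp x A.det := (RingHom.map_det (AZ.evp x) A).symm
    rw [h3, h2, map_zero]
  have hne' : ∀ l, φ (AZ.el (h.g hN.ok (op l))) ≠ 0 := by
    intro l hl
    obtain ⟨x, hx, hx'⟩ := h.g_ne hN hS.h0 hU hne l
    apply hx'
    have h2 := congrArg (AZ.evp (⟨x, hx⟩ : U)) (hM.inj (hl.trans (map_zero φ).symm))
    rw [AZ.evp_el, map_zero, hN.ho l] at h2
    exact h2
  have hwr := fun (δ : Derivation k F F) o l ho => hN.wr hM (u := fun l x => ζ x l) (fun l x hx => h.mem x hx l)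
    (h.y hN.ok) (h.g hN.ok) δ o l ho
  refine ⟨fun j => ?_, ?_, ?_, fun q j => ?_, fun δ l => ?_, fun δ l hl => ?_, hne', hN.ho⟩
  · rw [cF_cK hM, ← ev_Pj_map, ← map_zero φ]
    congr 1
    refine AZ.zero_of_evp fun x => ?_
    rw [ev_Pj_map, ev_X]
    exact congrFun (h.zero x x.2) j
  · rw [cF_cK hM, ← BB_map]
    obtain ⟨x0, hx0, hx0'⟩ := h.g_all hN hS.h0 hU hc hne
    obtain ⟨x, hx, hx'⟩ := BB_ne hN.ok hN.ho hS hU hx0 (h.an x0 hx0).continuousAt (h.mem x0 hx0) h.zero (h.simple x0 hx0)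
      hx0'
    refine hdet ⟨⟨x, hx⟩, ?_⟩
    rw [BB_map, ev_X]
    exact hx'
  · rw [cF_cK hM, ← JJ_map]
    obtain ⟨x0, hx0⟩ := hne
    refine hdet ⟨⟨x0, hx0⟩, ?_⟩
    rw [JJ_map, ev_X]
    exact h.simple x0 hx0
  · have h1 : ∀ l, JJ T.β (cF F (cK χ)) (fun l => φ (AZ.el (h.z l))) (fun o => φ (AZ.el (h.y hN.ok o)))
        (fun o => φ (AZ.el (h.g hN.ok o))) j l =
        φ (JJ T.β (fun q => AZ.toAn U (X q)) (fun l => AZ.el (h.z l)) (fun o => AZ.el (h.y hN.ok o))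
          (fun o => AZ.el (h.g hN.ok o)) j l) := by
      intro l
      rw [cF_cK hM, ← JJ_map]
      rfl
    simp only [h1, ← map_mul, ← map_sum]
    rw [← mo_map]
    have h2 : (if j = q.1.1 then φ (mo q.1.2 (fun l => AZ.el (h.z l)) fun o => AZ.el (h.y hN.ok o)) else 0) =
        φ (if j = q.1.1 then (mo q.1.2 (fun l => AZ.el (h.z l)) fun o => AZ.el (h.y hN.ok o)) else 0) := by
      split_ifs
      · rfl
      · rw [map_zero]
    rw [h2, ← map_neg]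
    congr 1
    refine AZ.an_ext fun x => ?_
    have h3 := zero_deriv hN.ok hU h.an h.mem h.zero x.2 q j
    rw [← AZ.evp_apply, ← AZ.evp_apply, map_sum, map_neg]
    have h4 : ∀ l, AZ.evp x (JJ T.β (fun q => AZ.toAn U (X q)) (fun l => AZ.el (h.z l)) (fun o => AZ.el (h.y hN.ok o))
        (fun o => AZ.el (h.g hN.ok o)) j l) = Jm T (x : S → ℂ) (ζ x) j l := by
      intro l
      have h5 := congrFun (congrFun (JJ_map T.β (AZ.evp x) (fun q => AZ.toAn U (X q)) (fun l => AZ.el (h.z l))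
        (fun o => AZ.el (h.y hN.ok o)) (fun o => AZ.el (h.g hN.ok o))) j) l
      rw [ev_X] at h5
      exact h5
    have h5 : AZ.evp x (if j = q.1.1 then (mo q.1.2 (fun l => AZ.el (h.z l)) fun o => AZ.el (h.y hN.ok o)) else 0) =
        if j = q.1.1 then mo q.1.2 (ζ x) (T.fz (ζ x)) else 0 := by
      split_ifs
      · rw [mo_map]
        rfl
      · rw [map_zero]
    rw [h5, ← h3]
    change _ = ∑ l, Jm T (x : S → ℂ) (ζ x) j l * fderiv ℂ ζ x (Pi.single q 1) l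
    refine Finset.sum_congr rfl fun l _ => ?_
    rw [map_mul, h4, AZ.evp_el]
  · refine ⟨(φ (AZ.el (h.g hN.ok (op l))))⁻¹ * δ (φ (AZ.el (h.y hN.ok (op l)))), fun o ho => ?_⟩
    have h1 := hwr δ o l ho
    rw [mul_comm (φ (AZ.el (h.g hN.ok (op l))))⁻¹, mul_assoc, mul_comm, mul_assoc, ← h1, ← mul_assoc,
      inv_mul_cancel₀ (hne' l), one_mul]
  · exact hN.gk hM (u := fun l x => ζ x l) (fun l x hx => h.mem x hx l) (h.y hN.ok) (h.g hN.ok) δ l hl

theorem rel_F (hM : Mod U χ φ) (hU : IsOpen U) {ι : Type} [Fintype ι] {z : ι → (S → ℂ) → κ → ℂ}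
    (h : ∀ i, B1 T U (z i)) (h' : B1 T U ζ') {m : ι → κ → ℂ} {m' : κ → ℂ} {C0 : ℂ}
    (hC : ∀ x ∈ U, ∑ i, ∑ l, m i l * z i x l + ∑ l, m' l * ζ' x l = C0) (q : S) :
    ∑ i, ∑ l, algebraMap k F (χ (C (m i l))) * φ (AZ.el ((h i).dz l q)) +
      ∑ l, algebraMap k F (χ (C (m' l))) * φ (AZ.el (h'.dz l q)) = 0 := by
  simp only [hM.tow, ← map_mul, ← map_sum, ← map_add]
  rw [← map_zero φ]
  congr 1
  refine AZ.zero_of_evp fun x => ?_
  simp only [map_add, map_sum, map_mul, AZ.evp_el, AZ.evp_toAn, eval_C]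
  have h1 := (HasFDerivAt.fun_sum (u := Finset.univ) fun i (_ : i ∈ Finset.univ) => (h i).dsum (m i) x.2).add
    (h'.dsum m' x.2)
  have h2 : (fun x => ∑ i, ∑ l, m i l * z i x l + ∑ l, m' l * ζ' x l) =ᶠ[𝓝 (x : S → ℂ)] fun _ => C0 := by
    filter_upwards [hU.mem_nhds x.2] with y hy using hC y hy
  have h3 := (h1.congr_of_eventuallyEq h2.symm).unique (hasFDerivAt_const C0 (x : S → ℂ))
  have h4 := congrArg (fun L => L (Pi.single q 1)) h3
  simpa [pl_apply] using h4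

end Pool.Agent.V8H73.GN
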