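import Pool.Agent.V8H73.GN.NullC
import Pool.Agent.V8H73.GN.Bra
import Pool.Agent.V8H73.AN.AeR

/-!
# Real systems with degenerate zeros are a null set
-/

set_option autoImplicit false
set_option linter.unusedSectionVars false

open MeasureTheory Set Filter MvPolynomial
open scoped Topology

namespace Pool.Agent.V8H73.GN

open Pool.Agent.V8H73.AN (det_zero sard null_lin ιX ιX_apply ιX_norm)

variable {κ O : Type} [Fintype κ] [DecidableEq κ] [Fintype O] [DecidableEq O] {S : Finset (κ × Ex κ O)} {T : Dat κ O}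
  {op : κ → O}

/-- functions of one coordinate which are real if the first one is real -/
def Rl (T : Dat κ O) (op : κ → O) : Prop := ∀ (l : κ) (s : ℝ), (s : ℂ) ∈ T.D l →
  (∀ᶠ t : ℝ in 𝓝 s, (T.f (op l) t).im = 0) → ∀ o, T.β o = l → ∀ᶠ t : ℝ in 𝓝 s, (T.f o t).im = 0

theorem cr_Lc (y : S → ℝ) (t : κ → ℝ) : ιX S (y + Lc S t) = ιX S y + Lc S (ιX κ t) := by
  funext q
  rw [Pi.add_apply, ιX_apply, ιX_apply, Pi.add_apply, Lc_apply, Lc_apply]
  split_ifs
  · push_cast
    rfl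
  · push_cast
    rfl

theorem iso_c (X : Type) [Fintype X] : Topology.IsClosedEmbedding (ιX X) :=
  (AddMonoidHomClass.isometry_of_norm (ιX X) (ιX_norm (X := X))).isClosedEmbedding

/-- real zeros with a fixed coordinate -/
theorem null_fix (hT : Ok T) (h0 : ∀ j, (j, 0) ∈ S) {K : Set (κ → ℂ)} (hK : IsCompact K) (hKW : K ⊆ T.W)
    (l : κ) (a : ℝ) : (volume : Measure (S → ℝ)) {u | ∃ s ∈ (ιX κ) ⁻¹' K, s l = a ∧ Ph T (ιX S u) (ιX κ s) = 0} = 0 := by
  have hKc : IsCompact ((ιX κ) ⁻¹' K) := (iso_c κ).isCompact_preimage hK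
  have hcl : IsClosed {v : (S → ℝ) × ((ιX κ) ⁻¹' K) | (v.2 : κ → ℝ) l = a ∧ Ph T (ιX S v.1) (ιX κ v.2) = 0} := by
    have h1 : Continuous fun v : (S → ℝ) × ((ιX κ) ⁻¹' K) => Ph T (ιX S v.1) (ιX κ (v.2 : κ → ℝ)) := by
      refine continuous_iff_continuousAt.2 fun v => ?_
      have h2 : ContinuousAt (fun v : (S → ℂ) × (κ → ℂ) => Ph T v.1 v.2) (ιX S v.1, ιX κ (v.2 : κ → ℝ)) :=
        (Ph_an hT (ιX S v.1, ιX κ (v.2 : κ → ℝ)) (hKW v.2.2)).continuousAt
      have hg : Continuous fun v : (S → ℝ) × ((ιX κ) ⁻¹' K) => (ιX S v.1, ιX κ (v.2 : κ → ℝ)) :=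
        ((ιX S).continuous.comp continuous_fst).prodMk
          ((ιX κ).continuous.comp (continuous_subtype_val.comp continuous_snd))
      exact ContinuousAt.comp (g := fun v : (S → ℂ) × (κ → ℂ) => Ph T v.1 v.2)
        (f := fun v : (S → ℝ) × ((ιX κ) ⁻¹' K) => (ιX S v.1, ιX κ (v.2 : κ → ℝ))) (x := v) h2 hg.continuousAt
    have h2 : Continuous fun v : (S → ℝ) × ((ιX κ) ⁻¹' K) => (v.2 : κ → ℝ) l :=
      (continuous_apply l).comp (continuous_subtype_val.comp continuous_snd)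
    exact (isClosed_eq h2 continuous_const).inter (isClosed_eq h1 continuous_const)
  have hB := closed_proj (P := fun v : (S → ℝ) × (κ → ℝ) => v.2 l = a ∧ Ph T (ιX S v.1) (ιX κ v.2) = 0) hKc hcl
  refine null_lin (𝕜 := ℝ) (volume : Measure (κ → ℝ)) volume (Lc S) hB.measurableSet fun y => ?_
  let re : (κ → ℂ) →L[ℝ] (κ → ℝ) :=
    ContinuousLinearMap.pi fun l => Complex.reCLM.comp (ContinuousLinearMap.proj l)
  let A : (κ → ℝ) →L[ℝ] (κ → ℝ) :=
    ContinuousLinearMap.pi fun i => if i = l then 0 else ContinuousLinearMap.proj i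
  let B : (κ → ℝ) → (κ → ℝ) := fun s => A s + Pi.single l a
  have hBs : ∀ s : κ → ℝ, s l = a → B s = s := by
    intro s hs
    funext i
    by_cases hi : i = l
    · subst hi
      simp [B, A, hs]
    · simp [B, A, hi]
  refine measure_mono_null (t := (fun s => - re (Ph T (ιX S y) (ιX κ (B s)))) '' {s | ιX κ (B s) ∈ T.W}) ?_ ?_
  · rintro t ⟨s, hsK, hs, hz⟩
    change Ph T (ιX S (y + Lc S t)) (ιX κ s) = 0 at hz
    rw [cr_Lc, Ph_Lc h0] at hz
    refine ⟨s, ?_, ?_⟩
    · change ιX κ (B s) ∈ T.W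
      rw [hBs s hs]
      exact hKW hsK
    · change - re (Ph T (ιX S y) (ιX κ (B s))) = t
      rw [hBs s hs]
      have h1 := congrArg re hz
      rw [map_add, map_zero] at h1
      have h2 : re (ιX κ t) = t := rfl
      rw [h2] at h1
      exact (eq_neg_of_add_eq_zero_right h1).symm
  · refine sard volume (f' := fun s => - (re.comp (((Dl T (ιX S y) (ιX κ (B s))).restrictScalars ℝ).comp
      ((ιX κ).comp A)))) (fun s hs => ?_) fun s hs => ?_
    · have h0 : HasFDerivAt B A s := A.hasFDerivAt.add_const _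
      have h2 : HasFDerivAt (fun z => Ph T (ιX S y) z) ((Dl T (ιX S y) (ιX κ (B s))).restrictScalars ℝ)
          (ιX κ (B s)) := (Ph_deriv hT (ιX S y) hs).restrictScalars ℝ
      have h3 : HasFDerivAt (fun s => ιX κ (B s)) ((ιX κ).comp A) s := (ιX κ).hasFDerivAt.comp s h0
      have h1 : HasFDerivAt (fun s => Ph T (ιX S y) (ιX κ (B s)))
          (((Dl T (ιX S y) (ιX κ (B s))).restrictScalars ℝ).comp ((ιX κ).comp A)) s :=
        HasFDerivAt.comp (g := fun z => Ph T (ιX S y) z) (f := fun s => ιX κ (B s)) s h2 h3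
      exact (re.hasFDerivAt.comp s h1).neg
    · refine ⟨Pi.single l 1, fun h => one_ne_zero (α := ℝ) (by simpa using congrFun h l), ?_⟩
      have h1 : A (Pi.single l 1) = 0 := by
        funext i
        by_cases hi : i = l
        · simp [A, hi]
        · simp [A, hi]
      change - re (Dl T (ιX S y) (ιX κ (B s)) (ιX κ (A (Pi.single l 1)))) = 0
      rw [h1, map_zero, map_zero, map_zero, neg_zero]

/-- the derivatives are real -/
theorem g_real (hT : Ok T) {o : O} {s : ℝ} (hs : (s : ℂ) ∈ T.D (T.β o)) (h : ∀ᶠ t : ℝ in 𝓝 s, (T.f o t).im = 0) :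
    (T.g o s).im = 0 := by
  have h1 : HasDerivAt (fun t : ℝ => T.f o t) (T.g o s) s := (hT.dv o s hs).comp_ofReal
  have h2 : HasDerivAt (fun t : ℝ => (T.f o t).im) (T.g o s).im s := Complex.imCLM.hasFDerivAt.comp_hasDerivAt s h1
  exact (h2.congr_of_eventuallyEq (EventuallyEq.symm h)).unique (hasDerivAt_const s (0 : ℝ))

/-- real zeros, real functions -/
theorem null_real (hT : Ok T) (hR : Rl T op) (h0 : ∀ j, (j, 0) ∈ S) {K : Set (κ → ℝ)} (hK : IsCompact K)
    (hKW : ∀ s ∈ K, ιX κ s ∈ T.W ∧ ∀ l, ∀ᶠ t : ℝ in 𝓝 (s l), (T.f (op l) t).im = 0) :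
    (volume : Measure (S → ℝ)) {u | ∃ s ∈ K, Dg T (ιX S u) (ιX κ s)} = 0 := by
  have hcl : IsClosed {v : (S → ℝ) × K | Dg T (ιX S v.1) (ιX κ v.2)} := by
    have hg : Continuous fun v : (S → ℝ) × K => (ιX S v.1, ιX κ (v.2 : κ → ℝ)) :=
      ((ιX S).continuous.comp continuous_fst).prodMk
        ((ιX κ).continuous.comp (continuous_subtype_val.comp continuous_snd))
    have h1 : Continuous fun v : (S → ℝ) × K => Ph T (ιX S v.1) (ιX κ (v.2 : κ → ℝ)) := by
      refine continuous_iff_continuousAt.2 fun v => ?_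
      have h2 : ContinuousAt (fun v : (S → ℂ) × (κ → ℂ) => Ph T v.1 v.2) (ιX S v.1, ιX κ (v.2 : κ → ℝ)) :=
        (Ph_an hT (ιX S v.1, ιX κ (v.2 : κ → ℝ)) (hKW _ v.2.2).1).continuousAt
      exact ContinuousAt.comp (g := fun v : (S → ℂ) × (κ → ℂ) => Ph T v.1 v.2)
        (f := fun v : (S → ℝ) × K => (ιX S v.1, ιX κ (v.2 : κ → ℝ))) (x := v) h2 hg.continuousAt
    have h2 : Continuous fun v : (S → ℝ) × K => (Jm T (ιX S v.1) (ιX κ (v.2 : κ → ℝ))).det := by
      refine continuous_iff_continuousAt.2 fun v => ?_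
      have h2 : ContinuousAt (fun v : (S → ℂ) × (κ → ℂ) => (Jm T v.1 v.2).det) (ιX S v.1, ιX κ (v.2 : κ → ℝ)) :=
        (det_an hT (ιX S v.1, ιX κ (v.2 : κ → ℝ)) (hKW _ v.2.2).1).continuousAt
      exact ContinuousAt.comp (g := fun v : (S → ℂ) × (κ → ℂ) => (Jm T v.1 v.2).det)
        (f := fun v : (S → ℝ) × K => (ιX S v.1, ιX κ (v.2 : κ → ℝ))) (x := v) h2 hg.continuousAt
    exact (isClosed_eq h1 continuous_const).inter (isClosed_eq h2 continuous_const)
  have hB := closed_proj (P := fun v : (S → ℝ) × (κ → ℝ) => Dg T (ιX S v.1) (ιX κ v.2)) hK hcl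
  refine null_lin (𝕜 := ℝ) (volume : Measure (κ → ℝ)) volume (Lc S) hB.measurableSet fun y => ?_
  let re : (κ → ℂ) →L[ℝ] (κ → ℝ) :=
    ContinuousLinearMap.pi fun l => Complex.reCLM.comp (ContinuousLinearMap.proj l)
  refine measure_mono_null (t := (fun s => - re (Ph T (ιX S y) (ιX κ s))) ''
    {s | s ∈ K ∧ (Jm T (ιX S y) (ιX κ s)).det = 0}) ?_ ?_
  · rintro t ⟨s, hsK, hz1, hz2⟩
    simp only [cr_Lc] at hz1 hz2
    rw [Jm_Lc h0] at hz2
    rw [Ph_Lc h0] at hz1
    refine ⟨s, ⟨hsK, hz2⟩, ?_⟩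
    have h1 := congrArg re hz1
    rw [map_add, map_zero] at h1
    have h2 : re (ιX κ t) = t := rfl
    rw [h2] at h1
    exact (eq_neg_of_add_eq_zero_right h1).symm
  · refine sard volume (f' := fun s => - (re.comp (((Dl T (ιX S y) (ιX κ s)).restrictScalars ℝ).comp (ιX κ))))
      (fun s hs => ?_) fun s hs => ?_
    · have h1 : HasFDerivAt (fun s => Ph T (ιX S y) (ιX κ s))
          (((Dl T (ιX S y) (ιX κ s)).restrictScalars ℝ).comp (ιX κ)) s :=
        ((Ph_deriv hT (ιX S y) (hKW s hs.1).1).restrictScalars ℝ).comp s (ιX κ).hasFDerivAt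
      exact (re.hasFDerivAt.comp s h1).neg
    · obtain ⟨hs1, hs2⟩ := hs
      obtain ⟨hW, hre⟩ := hKW s hs1
      have hf : ∀ o, (T.f o (s (T.β o))).im = 0 := fun o =>
        (hR (T.β o) (s (T.β o)) (hW _) (hre _) o rfl).self_of_nhds
      have hg : ∀ o, (T.g o (s (T.β o))).im = 0 := fun o =>
        g_real hT (hW _) (hR (T.β o) (s (T.β o)) (hW _) (hre _) o rfl)
      have hJ : Jm T (ιX S y) (ιX κ s) = (JJ T.β y s (fun o => (T.f o (s (T.β o))).re)
          (fun o => (T.g o (s (T.β o))).re)).map Complex.ofRealHom := by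
        rw [JJ_map]
        unfold Jm
        have e1 : T.fz (ιX κ s) = fun o => Complex.ofRealHom (T.f o (s (T.β o))).re := by
          funext o
          exact Complex.ext rfl (hf o)
        have e2 : T.gz (ιX κ s) = fun o => Complex.ofRealHom (T.g o (s (T.β o))).re := by
          funext o
          exact Complex.ext rfl (hg o)
        rw [e1, e2]
        rfl
      set M := JJ T.β y s (fun o => (T.f o (s (T.β o))).re) (fun o => (T.g o (s (T.β o))).re) with hM
      have h1 : M.det = 0 := by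
        rw [hJ] at hs2
        have h3 : (M.map Complex.ofRealHom).det = Complex.ofRealHom M.det := (RingHom.map_det _ _).symm
        rw [h3] at hs2
        exact Complex.ofReal_eq_zero.1 hs2
      obtain ⟨v, hv, hv'⟩ := Matrix.exists_mulVec_eq_zero_iff.2 h1
      refine ⟨v, hv, ?_⟩
      have h2 : Dl T (ιX S y) (ιX κ s) (ιX κ v) = 0 := by
        rw [Dl_apply hT _ hW, hJ]
        funext j
        have h3 := congrArg (fun r : ℝ => (r : ℂ)) (congrFun hv' j)
        change ∑ l, Complex.ofRealHom (M j l) * (v l : ℂ) = 0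
        change ((∑ l, M j l * v l : ℝ) : ℂ) = ((0 : ℝ) : ℂ) at h3
        push_cast at h3
        exact h3
      change - re (Dl T (ιX S y) (ιX κ s) (ιX κ v)) = 0
      rw [h2, map_zero, neg_zero]

/-- the coefficients of `1` and of one monomial move -/
noncomputable def Lx (S : Finset (κ × Ex κ O)) (p : Ex κ O) : (κ → ℂ) →ₗ[ℝ] (S → ℝ) where
  toFun w q := if q.1.2 = p then (w q.1.1).im else if q.1.2 = 0 then (w q.1.1).re else 0
  map_add' s t := by
    funext q
    change (if q.1.2 = p then ((s + t) q.1.1).im else if q.1.2 = 0 then ((s + t) q.1.1).re else 0) =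
      (if q.1.2 = p then (s q.1.1).im else if q.1.2 = 0 then (s q.1.1).re else 0) +
      (if q.1.2 = p then (t q.1.1).im else if q.1.2 = 0 then (t q.1.1).re else 0)
    split_ifs <;> simp
  map_smul' a t := by
    funext q
    change (if q.1.2 = p then ((a • t) q.1.1).im else if q.1.2 = 0 then ((a • t) q.1.1).re else 0) =
      a * (if q.1.2 = p then (t q.1.1).im else if q.1.2 = 0 then (t q.1.1).re else 0)
    split_ifs <;> simp

theorem Ph_Lx (h0 : ∀ j, (j, 0) ∈ S) {p : Ex κ O} (hp : ∀ j, (j, p) ∈ S) (hp0 : p ≠ 0) (y : S → ℝ) (w z : κ → ℂ)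
    (j : κ) : Ph T (ιX S (y + Lx S p w)) z j =
      Ph T (ιX S y) z j + ((w j).im : ℂ) * mo p z (T.fz z) + ((w j).re : ℂ) := by
  have h1 : ιX S (y + Lx S p w) = ιX S y + fun q : S => if q.1.2 = p then ((w q.1.1).im : ℂ)
      else if q.1.2 = 0 then ((w q.1.1).re : ℂ) else 0 := by
    funext q
    rw [Pi.add_apply, ιX_apply, ιX_apply, Pi.add_apply]
    have h2 : Lx S p w q = if q.1.2 = p then (w q.1.1).im else if q.1.2 = 0 then (w q.1.1).re else 0 := rfl
    rw [h2]
    split_ifs <;> push_cast <;> rfl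
  rw [h1, Ph_add']
  have h2 := sum_two (fun _ => p) hp h0 (fun _ => hp0)
    (fun j => ((w j).im : ℂ)) (fun j => ((w j).re : ℂ)) (fun p => mo p z (T.fz z)) j
  rw [mo_zero, mul_one] at h2
  rw [h2]
  ring

/-- the derivative of a monomial -/
noncomputable def dmo (T : Dat κ O) (p : Ex κ O) (z : κ → ℂ) : (κ → ℂ) →L[ℂ] ℂ :=
  fderiv ℂ (fun z => mo p z (T.fz z)) z

theorem mo_deriv (hT : Ok T) (p : Ex κ O) {z : κ → ℂ} (hz : z ∈ T.W) :
    HasFDerivAt (fun z => mo p z (T.fz z)) (dmo T p z) z :=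
  (ev_an hT (monomial p 1) hz).differentiableAt.hasFDerivAt

theorem Dl_Lx (hT : Ok T) (h0 : ∀ j, (j, 0) ∈ S) {p : Ex κ O} (hp : ∀ j, (j, p) ∈ S) (hp0 : p ≠ 0) (y : S → ℝ)
    (w : κ → ℂ) {z : κ → ℂ} (hz : z ∈ T.W) (v : κ → ℂ) (j : κ) :
    Dl T (ιX S (y + Lx S p w)) z v j = Dl T (ιX S y) z v j + ((w j).im : ℂ) * dmo T p z v := by
  have h1 : HasFDerivAt (fun z => Ph T (ιX S (y + Lx S p w)) z j) ((pl j).comp (Dl T (ιX S (y + Lx S p w)) z)) z :=
    (pl_deriv j _).comp z (Ph_deriv hT _ hz)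
  have h2 : HasFDerivAt (fun z => Ph T (ιX S y) z j + ((w j).im : ℂ) * mo p z (T.fz z) + ((w j).re : ℂ))
      ((pl j).comp (Dl T (ιX S y) z) + ((w j).im : ℂ) • dmo T p z) z :=
    (((pl_deriv j _).comp z (Ph_deriv hT _ hz)).add ((mo_deriv hT p hz).const_mul _)).add_const _
  have h3 : (fun z => Ph T (ιX S (y + Lx S p w)) z j) =
      fun z => Ph T (ιX S y) z j + ((w j).im : ℂ) * mo p z (T.fz z) + ((w j).re : ℂ) :=
    funext fun z => Ph_Lx h0 hp hp0 y w z j
  rw [h3] at h1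
  have h4 := congrArg (fun L => L v) (h1.unique h2)
  exact h4

/-- zeros at which a monomial is not real -/
theorem null_nonreal (hT : Ok T) (h0 : ∀ j, (j, 0) ∈ S) {p : Ex κ O} (hpS : ∀ j, (j, p) ∈ S) (hp0 : p ≠ 0)
    {K : Set (κ → ℂ)} (hK : IsCompact K) (hKW : K ⊆ T.W) {c : ℝ} (hc : 0 < c) :
    (volume : Measure (S → ℝ)) {u | ∃ z ∈ K, c ≤ |(mo p z (T.fz z)).im| ∧ Dg T (ιX S u) z} = 0 := by
  have hcl : IsClosed {v : (S → ℝ) × K | c ≤ |(mo p (v.2 : κ → ℂ) (T.fz v.2)).im| ∧ Dg T (ιX S v.1) v.2} := by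
    have hg : Continuous fun v : (S → ℝ) × K => (ιX S v.1, v.2) :=
      ((ιX S).continuous.comp continuous_fst).prodMk continuous_snd
    have h1 : Continuous fun v : (S → ℝ) × K => mo p (v.2 : κ → ℂ) (T.fz v.2) := by
      refine continuous_iff_continuousAt.2 fun v => ?_
      have h2 : ContinuousAt (fun z : κ → ℂ => mo p z (T.fz z)) (v.2 : κ → ℂ) :=
        (ev_an hT (monomial p 1) (hKW v.2.2)).continuousAt
      exact ContinuousAt.comp (g := fun z : κ → ℂ => mo p z (T.fz z))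
        (f := fun v : (S → ℝ) × K => (v.2 : κ → ℂ)) (x := v) h2
        (continuous_subtype_val.comp continuous_snd).continuousAt
    have h3 : IsClosed {v : (S → ℝ) × K | c ≤ |(mo p (v.2 : κ → ℂ) (T.fz v.2)).im|} :=
      isClosed_le continuous_const ((Complex.continuous_im.comp h1).abs)
    exact h3.inter ((dg_closed hT hKW).preimage hg)
  have hB := closed_proj (P := fun v : (S → ℝ) × (κ → ℂ) => c ≤ |(mo p v.2 (T.fz v.2)).im| ∧ Dg T (ιX S v.1) v.2)
    hK hcl
  refine null_lin (𝕜 := ℝ) (volume : Measure (κ → ℂ)) volume (Lx S p) hB.measurableSet fun y => ?_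
  let m : (κ → ℂ) → ℂ := fun z => mo p z (T.fz z)
  let pp : κ → (κ → ℂ) → ℝ := fun j z => - (Ph T (ιX S y) z j).im / (m z).im
  let f : (κ → ℂ) → (κ → ℂ) := fun z j => - (Ph T (ιX S y) z j + (pp j z : ℂ) * m z) + (pp j z : ℂ) * Complex.I
  have hp : ∀ (z : κ → ℂ) j, (m z).im ≠ 0 → (Ph T (ιX S y) z j + (pp j z : ℂ) * m z).im = 0 := by
    intro z j hz
    simp only [pp, Complex.add_im, Complex.mul_im, Complex.ofReal_re, Complex.ofReal_im, zero_mul, add_zero]
    field_simp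
    ring
  refine measure_mono_null (t := f '' {z | (z ∈ T.W ∧ (m z).im ≠ 0) ∧
    (Jm T (ιX S (y + Lx S p (f z))) z).det = 0}) ?_ ?_
  · rintro w ⟨z, hzK, hz0, hz1, hz2⟩
    change c ≤ |(m z).im| at hz0
    have him : (m z).im ≠ 0 := fun h => by
      rw [h, abs_zero] at hz0
      linarith
    have hw : f z = w := by
      funext j
      have h1 : Ph T (ιX S (y + Lx S p w)) z j = 0 := congrFun hz1 j
      rw [Ph_Lx h0 hpS hp0] at h1
      have h2 := congrArg Complex.im h1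
      simp only [Complex.add_im, Complex.mul_im, Complex.ofReal_re, Complex.ofReal_im, zero_mul, add_zero,
        Complex.zero_im] at h2
      have h3 : pp j z = (w j).im := by
        simp only [pp, m]
        rw [div_eq_iff him]
        linear_combination -h2
      simp only [f, h3]
      have h4 : Ph T (ιX S y) z j + ((w j).im : ℂ) * m z = - ((w j).re : ℂ) := by linear_combination h1
      rw [h4, neg_neg, Complex.re_add_im]
    refine ⟨z, ⟨⟨hKW hzK, him⟩, ?_⟩, hw⟩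
    rw [hw]
    exact hz2
  · have hHd : ∀ j, ∀ z ∈ T.W, HasFDerivAt (fun z => Ph T (ιX S y) z j)
        (((pl j).comp (Dl T (ιX S y) z)).restrictScalars ℝ) z :=
      fun j z hz => ((pl_deriv j _).comp z (Ph_deriv hT _ hz)).restrictScalars ℝ
    have hzd : ∀ z ∈ T.W, HasFDerivAt m ((dmo T p z).restrictScalars ℝ) z :=
      fun z hz => (mo_deriv hT p hz).restrictScalars ℝ
    have hpd : ∀ j z, z ∈ T.W ∧ (m z).im ≠ 0 → ∃ p' : (κ → ℂ) →L[ℝ] ℝ, HasFDerivAt (pp j) p' z := by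
      rintro j z ⟨hzW, hz⟩
      have h1 : HasFDerivAt (fun z => (Ph T (ιX S y) z j).im)
          (Complex.imCLM.comp (((pl j).comp (Dl T (ιX S y) z)).restrictScalars ℝ)) z :=
        Complex.imCLM.hasFDerivAt.comp z (hHd j z hzW)
      have h2 : HasFDerivAt (fun z : κ → ℂ => (m z).im) (Complex.imCLM.comp ((dmo T p z).restrictScalars ℝ)) z :=
        Complex.imCLM.hasFDerivAt.comp z (hzd z hzW)
      have h3 : DifferentiableAt ℝ (pp j) z := by
        have h4 : DifferentiableAt ℝ (fun z : κ → ℂ => - (Ph T (ιX S y) z j).im * ((m z).im)⁻¹) z :=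
          (h1.differentiableAt.neg).mul (h2.differentiableAt.inv hz)
        exact h4
      exact ⟨_, h3.hasFDerivAt⟩
    choose! p' hp' using hpd
    have hfd : ∀ z, z ∈ T.W ∧ (m z).im ≠ 0 → HasFDerivAt f (ContinuousLinearMap.pi fun j =>
        - (((pl j).comp (Dl T (ιX S y) z)).restrictScalars ℝ + ((pp j z : ℂ) • (dmo T p z).restrictScalars ℝ +
          m z • Complex.ofRealCLM.comp (p' j z))) + Complex.I • Complex.ofRealCLM.comp (p' j z)) z := by
      intro z hz
      refine hasFDerivAt_pi.2 fun j => ?_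
      have h1 : HasFDerivAt (fun z => (pp j z : ℂ)) (Complex.ofRealCLM.comp (p' j z)) z :=
        Complex.ofRealCLM.hasFDerivAt.comp z (hp' j z hz)
      have h2 : HasFDerivAt (fun z => (pp j z : ℂ) * m z) ((pp j z : ℂ) • (dmo T p z).restrictScalars ℝ +
          m z • Complex.ofRealCLM.comp (p' j z)) z := h1.mul (hzd z hz.1)
      have h3 : HasFDerivAt (fun z => (pp j z : ℂ) * Complex.I) (Complex.I • Complex.ofRealCLM.comp (p' j z)) z :=
        h1.mul_const Complex.I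
      exact ((hHd j z hz.1).add h2).neg.add h3
    refine sard volume (fun z hz => hfd z hz.1) fun z hz => ?_
    obtain ⟨hz1, hz2⟩ := hz
    obtain ⟨v, hv, hv'⟩ := Matrix.exists_mulVec_eq_zero_iff.2 hz2
    rw [← Dl_apply hT _ hz1.1] at hv'
    have him : ∀ j, (f z j).im = pp j z := by
      intro j
      have h1 := hp z j hz1.2
      simp only [f, Complex.add_im, Complex.neg_im, Complex.mul_im, Complex.ofReal_re, Complex.ofReal_im,
        Complex.I_re, Complex.I_im, mul_zero, mul_one, zero_mul, add_zero] at h1 ⊢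
      linarith
    have h1 : ∀ j, Dl T (ιX S y) z v j + (pp j z : ℂ) * dmo T p z v = 0 := by
      intro j
      have h2 := congrFun hv' j
      rw [Dl_Lx hT h0 hpS hp0 _ _ hz1.1, him] at h2
      exact h2
    have h2 : ∀ j, p' j z v = 0 := by
      intro j
      have h3 : HasFDerivAt (fun z => (Ph T (ιX S y) z j + (pp j z : ℂ) * m z).im) (Complex.imCLM.comp
          (((pl j).comp (Dl T (ιX S y) z)).restrictScalars ℝ + ((pp j z : ℂ) • (dmo T p z).restrictScalars ℝ +
          m z • Complex.ofRealCLM.comp (p' j z)))) z := by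
        have h4 : HasFDerivAt (fun z => (pp j z : ℂ)) (Complex.ofRealCLM.comp (p' j z)) z :=
          Complex.ofRealCLM.hasFDerivAt.comp z (hp' j z hz1)
        exact Complex.imCLM.hasFDerivAt.comp z ((hHd j z hz1.1).add (h4.mul (hzd z hz1.1)))
      have h5 : (fun z => (Ph T (ιX S y) z j + (pp j z : ℂ) * m z).im) =ᶠ[𝓝 z] fun _ => 0 := by
        have h6 : ∀ᶠ z' : κ → ℂ in 𝓝 z, (m z').im ≠ 0 :=
          ContinuousAt.eventually_ne (g := fun z' => (m z').im)
            (Complex.continuous_im.continuousAt.comp (mo_deriv hT p hz1.1).continuousAt) hz1.2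
        filter_upwards [h6] with z' hz' using hp z' j hz'
      have h6 := (h3.congr_of_eventuallyEq h5.symm).unique (hasFDerivAt_const (0 : ℝ) z)
      have h7 := congrArg (fun L => L v) h6
      change (Dl T (ιX S y) z v j + ((pp j z : ℂ) * dmo T p z v + m z * ((p' j z v : ℝ) : ℂ))).im = 0 at h7
      have h8 : Dl T (ιX S y) z v j + ((pp j z : ℂ) * dmo T p z v + m z * ((p' j z v : ℝ) : ℂ)) =
          m z * ((p' j z v : ℝ) : ℂ) := by
        linear_combination h1 j
      rw [h8] at h7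
      simp only [Complex.mul_im, Complex.ofReal_re, Complex.ofReal_im, mul_zero, zero_add] at h7
      exact (mul_eq_zero.1 h7).resolve_left hz1.2
    refine ⟨v, hv, ?_⟩
    funext j
    change - (Dl T (ιX S y) z v j + ((pp j z : ℂ) * dmo T p z v + m z * ((p' j z v : ℝ) : ℂ))) +
      Complex.I * ((p' j z v : ℝ) : ℂ) = 0
    rw [h2 j]
    push_cast
    linear_combination - h1 j

theorem countable_iso {N : Set ℝ} (h : ∀ s ∈ N, ∀ᶠ t in 𝓝[≠] s, t ∉ N) : N.Countable := by
  have h1 : DiscreteTopology N := by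
    rw [discreteTopology_subtype_iff]
    intro s hs
    rw [← disjoint_iff, Filter.disjoint_principal_right]
    exact h s hs
  exact Set.countable_coe_iff.1 (TopologicalSpace.separableSpace_iff_countable.1 inferInstance)

theorem countable_N (hT : Ok T) (ho : ∀ l, T.β (op l) = l) (l : κ) : {s : ℝ | (s : ℂ) ∈ T.D l ∧
    (T.f (op l) s).im = 0 ∧ ¬ ∀ᶠ t : ℝ in 𝓝 s, (T.f (op l) t).im = 0}.Countable := by
  refine countable_iso ?_
  rintro s ⟨hs1, hs2, hs3⟩
  have h1 : AnalyticAt ℂ (T.f (op l)) (s : ℂ) := hT.an (op l) s (by rw [ho]; exact hs1)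
  have h2 : AnalyticAt ℝ (fun t : ℝ => T.f (op l) (t : ℂ)) s :=
    AnalyticAt.comp_of_eq (g := T.f (op l)) (f := fun t : ℝ => (t : ℂ)) (y := (s : ℂ)) h1.restrictScalars
      (Complex.ofRealCLM.analyticAt s) rfl
  have h3 : AnalyticAt ℝ (fun t : ℝ => (T.f (op l) (t : ℂ)).im) s :=
    AnalyticAt.comp_of_eq (g := Complex.imCLM) (f := fun t : ℝ => T.f (op l) (t : ℂ)) (y := T.f (op l) (s : ℂ))
      (Complex.imCLM.analyticAt _) h2 rfl
  rcases h3.eventually_eq_zero_or_eventually_ne_zero with h4 | h4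
  · exact absurd h4 hs3
  · filter_upwards [h4] with t ht hmem using ht hmem.2.1

/-- **Real parameters.** -/
theorem bad_null_R (hT : Ok T) (hR : Rl T op) (ho : ∀ l, T.β (op l) = l) (hS : Four op S) {K : Set (κ → ℂ)}
    (hK : IsCompact K) (hKW : K ⊆ T.W) : (volume : Measure (S → ℝ)) ((ιX S) ⁻¹' Bad T S K) = 0 := by
  let V : Set (κ → ℝ) := {s | ιX κ s ∈ T.W ∧ ∀ l, ∀ᶠ t : ℝ in 𝓝 (s l), (T.f (op l) t).im = 0}
  have hV : IsOpen V := by
    have h1 : IsOpen {s : κ → ℝ | ιX κ s ∈ T.W} := hT.W_open.preimage (ιX κ).continuous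
    have h2 : IsOpen {s : κ → ℝ | ∀ l, ∀ᶠ t : ℝ in 𝓝 (s l), (T.f (op l) t).im = 0} := by
      have h3 : {s : κ → ℝ | ∀ l, ∀ᶠ t : ℝ in 𝓝 (s l), (T.f (op l) t).im = 0} =
          ⋂ l, (fun s : κ → ℝ => s l) ⁻¹' {r : ℝ | ∀ᶠ t : ℝ in 𝓝 r, (T.f (op l) t).im = 0} := by
        ext s
        simp
      rw [h3]
      exact isOpen_iInter_of_finite fun l => isOpen_setOfPred_eventually_nhds.preimage (continuous_apply l)
    exact h1.inter h2
  obtain ⟨K', hK1, hK2, -, hK4⟩ := exh hV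
  let N : κ → Set ℝ := fun l => {s : ℝ | (s : ℂ) ∈ T.D l ∧ (T.f (op l) s).im = 0 ∧
    ¬ ∀ᶠ t : ℝ in 𝓝 s, (T.f (op l) t).im = 0}
  have hN : ∀ l, (N l).Countable := fun l => countable_N hT ho l
  refine measure_mono_null (t := (((⋃ (l : κ) (m : ℕ), {u | ∃ z ∈ K, 1 / ((m : ℝ) + 1) ≤
        |(mo (Finsupp.single (Sum.inl l) 1) z (T.fz z)).im| ∧ Dg T (ιX S u) z}) ∪
      ⋃ (l : κ) (m : ℕ), {u | ∃ z ∈ K, 1 / ((m : ℝ) + 1) ≤
        |(mo (Finsupp.single (Sum.inr (op l)) 1) z (T.fz z)).im| ∧ Dg T (ιX S u) z}) ∪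
      ⋃ (l : κ), ⋃ a ∈ N l, {u | ∃ s ∈ (ιX κ) ⁻¹' K, s l = a ∧ Ph T (ιX S u) (ιX κ s) = 0}) ∪
      ⋃ m : ℕ, {u | ∃ s ∈ K' m, Dg T (ιX S u) (ιX κ s)}) ?_ ?_
  · rintro u ⟨z, hz, hz1⟩
    by_cases h1 : ∃ l, (z l).im ≠ 0
    · obtain ⟨l, hl⟩ := h1
      obtain ⟨m, hm⟩ := exists_nat_one_div_lt (abs_pos.2 hl)
      refine Or.inl (Or.inl (Or.inl (mem_iUnion₂.2 ⟨l, m, z, hz, ?_, hz1⟩)))
      rw [mo_x]
      exact hm.le
    by_cases h2 : ∃ l, (T.f (op l) (z l)).im ≠ 0
    · obtain ⟨l, hl⟩ := h2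
      obtain ⟨m, hm⟩ := exists_nat_one_div_lt (abs_pos.2 hl)
      refine Or.inl (Or.inl (Or.inr (mem_iUnion₂.2 ⟨l, m, z, hz, ?_, hz1⟩)))
      rw [mo_y]
      have h3 : T.fz z (op l) = T.f (op l) (z l) := by
        unfold Dat.fz
        rw [ho]
      rw [h3]
      exact hm.le
    push Not at h1 h2
    have hzs : z = ιX κ fun l => (z l).re := by
      funext l
      rw [ιX_apply]
      exact Complex.ext rfl (h1 l)
    set s : κ → ℝ := fun l => (z l).re with hs
    have hsz : ∀ l, ((s l : ℝ) : ℂ) = z l := fun l => (congrFun hzs l).symm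
    by_cases h3 : ∃ l, ¬ ∀ᶠ t : ℝ in 𝓝 (s l), (T.f (op l) t).im = 0
    · obtain ⟨l, hl⟩ := h3
      refine Or.inl (Or.inr (mem_iUnion.2 ⟨l, mem_iUnion₂.2 ⟨s l, ⟨?_, ?_, hl⟩, s, ?_, rfl, ?_⟩⟩))
      · rw [hsz]
        exact hKW hz l
      · rw [hsz]
        exact h2 l
      · rw [mem_preimage, ← hzs]
        exact hz
      · rw [← hzs]
        exact hz1.1
    · push Not at h3
      have hsV : s ∈ V := ⟨by rw [← hzs]; exact hKW hz, h3⟩
      obtain ⟨m, hm⟩ := hK4 s hsV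
      refine Or.inr (mem_iUnion.2 ⟨m, s, hm, ?_⟩)
      rw [← hzs]
      exact hz1
  · refine measure_union_null (measure_union_null (measure_union_null ?_ ?_) ?_) ?_
    · exact measure_iUnion_null fun l => measure_iUnion_null fun m =>
        null_nonreal hT hS.h0 (fun j => hS.hx j l) (single_ne _) hK hKW (by positivity)
    · exact measure_iUnion_null fun l => measure_iUnion_null fun m =>
        null_nonreal hT hS.h0 (fun j => hS.hy j l) (single_ne _) hK hKW (by positivity)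
    · exact measure_iUnion_null fun l => (measure_biUnion_null_iff (hN l)).2 fun a _ =>
        null_fix hT hS.h0 hK hKW l a
    · exact measure_iUnion_null fun m => null_real hT hR hS.h0 (hK1 m) fun s hs => hK2 m hs

end Pool.Agent.V8H73.GN
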