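import Pool.Agent.V8H73.GN.AeC
import Pool.Agent.V8H73.GN.NullR

/-!
# The zeros and the coefficients of almost all real systems are algebraically independent
-/

set_option autoImplicit false
set_option linter.unusedSectionVars false

open Set Filter MeasureTheory
open scoped Topology

namespace Pool.Agent.V8H73.GN

open Pool.Agent.V8H73.AN (null_rel_R ιX ιX_apply ιX_norm)

variable {κ O E : Type} [Fintype κ] [DecidableEq κ] [Fintype O] [DecidableEq O] [Fintype E] [DecidableEq E]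
  {S : Finset (κ × Ex κ O)} {T : Dat κ O} {op : κ → O} {γ : E → κ} {eh : E → ℂ → ℂ}

/-- one compact set -/
theorem aeR_R (hA : Ax T op γ eh) (hR : Rl T op) (hS : Four op S) (L : Subfield ℂ) [Countable L] {K : Set (κ → ℂ)}
    (hK : IsCompact K) (hKW : K ⊆ T.W) : ∀ᵐ u : S → ℝ, ιX S u ∉ Bad T S K ∧
    ∀ s : Finset (κ → ℂ), (∀ z ∈ s, z ∈ K ∧ Ph T (ιX S u) z = 0) → AlgebraicIndependent L
      (Sum.elim (ιX S u) (fun q : s × (κ ⊕ E) => hv γ eh (q.1 : κ → ℂ) q.2) : S ⊕ (s × (κ ⊕ E)) → ℂ) := by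
  have h1 : ∀ᵐ u : S → ℝ, ιX S u ∉ Bad T S K := by
    rw [ae_iff]
    simp only [not_not]
    exact bad_null_R hA.nd.ok hR hA.nd.ho hS hK hKW
  have h2 : (volume : Measure (S → ℝ)) {u | ιX S u ∉ Bad T S K ∧ ¬ ∀ s : Finset (κ → ℂ),
      (∀ z ∈ s, z ∈ K ∧ Ph T (ιX S u) z = 0) → AlgebraicIndependent L
      (Sum.elim (ιX S u) (fun q : s × (κ ⊕ E) => hv γ eh (q.1 : κ → ℂ) q.2) : S ⊕ (s × (κ ⊕ E)) → ℂ)} = 0 := by
    refine measure_null_of_locally_null _ fun u0 hu0 => ?_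
    obtain ⟨δ, N, ζ, hδ, hB, hI, hcov⟩ := patch_S hA hS hK hKW hu0.1
    have hcount := Pool.Agent.Y563.SE.countable_mvPolynomial (S ⊕ (Fin N × (κ ⊕ E))) L
    refine ⟨⋃ p : {p : MvPolynomial (S ⊕ (Fin N × (κ ⊕ E))) L // p ≠ 0},
      {u : S → ℝ | ιX S u ∈ Metric.ball (ιX S u0) δ ∧
      MvPolynomial.eval (Sum.elim (ιX S u) fun q => hv γ eh (ζ q.1 (ιX S u)) q.2)
        (MvPolynomial.map (algebraMap L ℂ) p.1) = 0}, ?_, ?_⟩
    · rw [mem_nhdsWithin]
      refine ⟨(ιX S) ⁻¹' Metric.ball (ιX S u0) δ, Metric.isOpen_ball.preimage (ιX S).continuous,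
        Metric.mem_ball_self hδ, ?_⟩
      rintro u ⟨hxb, -, hx⟩
      push Not at hx
      obtain ⟨s, hs, hni⟩ := hx
      have hex : ∀ z : s, ∃ i, ζ i (ιX S u) = z := fun z => by
        obtain ⟨i, hi, -⟩ := hcov (ιX S u) hxb z.1 (hs z.1 z.2).1 (hs z.1 z.2).2
        exact ⟨i, hi⟩
      choose e he using hex
      have hinj : Function.Injective e := fun z z' h => Subtype.ext (by rw [← he z, ← he z', h])
      have hni' : ¬ AlgebraicIndependent L
          (Sum.elim (ιX S u) (fun q => hv γ eh (ζ q.1 (ιX S u)) q.2) : S ⊕ (Fin N × (κ ⊕ E)) → ℂ) := by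
        intro h
        apply hni
        have h3 := h.comp (Sum.map id (Prod.map e id))
          (Function.injective_id.sumMap (hinj.prodMap Function.injective_id))
        have h4 : (Sum.elim (ιX S u) (fun q => hv γ eh (ζ q.1 (ιX S u)) q.2) : S ⊕ (Fin N × (κ ⊕ E)) → ℂ) ∘
            Sum.map id (Prod.map e id) =
            Sum.elim (ιX S u) (fun q : s × (κ ⊕ E) => hv γ eh (q.1 : κ → ℂ) q.2) := by
          funext o
          rcases o with q | q
          · rfl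
          · change hv γ eh (ζ (e q.1) (ιX S u)) q.2 = hv γ eh (q.1 : κ → ℂ) q.2
            rw [he]
        rwa [h4] at h3
      rw [algebraicIndependent_iff] at hni'
      push Not at hni'
      obtain ⟨p, hp1, hp2⟩ := hni'
      refine Set.mem_iUnion.2 ⟨⟨p, hp2⟩, hxb, ?_⟩
      rw [MvPolynomial.eval_map]
      exact hp1
    · refine measure_iUnion_null fun p => ?_
      refine null_rel_R Metric.isOpen_ball (convex_ball (ιX S u0) δ).isPreconnected
        (f := fun (q : Fin N × (κ ⊕ E)) x => hv γ eh (ζ q.1 x) q.2) (fun q => (hB.b q.1).hv hA q.2) hI fun h => p.2 ?_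
      exact MvPolynomial.map_injective _ (algebraMap L ℂ).injective (by rw [h, map_zero])
  have h3 : ∀ᵐ u : S → ℝ, ¬ (ιX S u ∉ Bad T S K ∧ ¬ ∀ s : Finset (κ → ℂ),
      (∀ z ∈ s, z ∈ K ∧ Ph T (ιX S u) z = 0) → AlgebraicIndependent L
      (Sum.elim (ιX S u) (fun q : s × (κ ⊕ E) => hv γ eh (q.1 : κ → ℂ) q.2) : S ⊕ (s × (κ ⊕ E)) → ℂ)) := by
    rw [ae_iff]
    simp only [not_not]
    exact h2
  filter_upwards [h1, h3] with x hx1 hx3
  refine ⟨hx1, ?_⟩
  by_contra hcon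
  exact hx3 ⟨hx1, hcon⟩

/-- **Almost all real systems.** -/
theorem ae_all_R (hA : Ax T op γ eh) (hR : Rl T op) (hS : Four op S) (L : Subfield ℂ) [Countable L] :
    ∀ᵐ u : S → ℝ, (∀ z ∈ T.W, Ph T (ιX S u) z = 0 → (Jm T (ιX S u) z).det ≠ 0) ∧
    AlgebraicIndependent L (Sum.elim (ιX S u) fun q : {z : κ → ℂ | z ∈ T.W ∧ Ph T (ιX S u) z = 0} × (κ ⊕ E) =>
      hv γ eh (q.1 : κ → ℂ) q.2) := by
  classical
  obtain ⟨K, hK1, hK2, hK3, hK4⟩ := exh hA.nd.ok.W_open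
  have h1 := ae_all_iff.2 fun m : ℕ => aeR_R hA hR hS L (hK1 m) (hK2 m)
  filter_upwards [h1] with x hx
  constructor
  · intro z hzW hz hd
    obtain ⟨m, hm⟩ := hK4 z hzW
    exact (hx m).1 ⟨z, hm, hz, hd⟩
  · refine all_of_fin L fun s hs => ?_
    choose! m hm using hK4
    exact (hx (s.sup m)).2 s fun z hz => ⟨hK3 (Finset.le_sup hz) (hm z (hs z hz).1), (hs z hz).2⟩

end Pool.Agent.V8H73.GN
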