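import Pool.Agent.V8H73.AN.Core

/-!
# Systems of equations with functions of the coordinates: algebra
-/

set_option autoImplicit false
set_option linter.unusedSectionVars false

open MvPolynomial

namespace Pool.Agent.V8H73.GN

open Pool.Agent.V8H73.AN (Over over_self Lin)

variable {κ O : Type} [Fintype κ] [DecidableEq κ] [Fintype O] [DecidableEq O]

/-- the exponents -/
abbrev Ex (κ O : Type) : Type := κ ⊕ O →₀ ℕ

section ring

variable {A B : Type*} [CommRing A] [CommRing B] {S : Finset (κ × Ex κ O)} (β : O → κ)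

/-- the equations -/
noncomputable def Pj (c : S → A) (j : κ) : MvPolynomial (κ ⊕ O) A :=
  ∑ q : S, if q.1.1 = j then monomial q.1.2 (c q) else 0

/-- the part of the Jacobian matrix which comes from the functions -/
noncomputable def BB (c : S → A) (z : κ → A) (y g : O → A) : Matrix κ κ A := Matrix.of fun j l =>
  ∑ o, if β o = l then g o * eval (Sum.elim z y) (pderiv (Sum.inr o) (Pj c j)) else 0

/-- the Jacobian matrix -/
noncomputable def JJ (c : S → A) (z : κ → A) (y g : O → A) : Matrix κ κ A := Matrix.of fun j l =>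
  eval (Sum.elim z y) (pderiv (Sum.inl l) (Pj c j)) + BB β c z y g j l

/-- the value of a monomial -/
noncomputable def mo (p : Ex κ O) (z : κ → A) (y : O → A) : A := eval (Sum.elim z y) (monomial p 1)

theorem ev_map (φ : A →+* B) (v : κ ⊕ O → A) (P : MvPolynomial (κ ⊕ O) A) :
    φ (eval v P) = eval (fun o => φ (v o)) (map φ P) := by
  rw [eval_map, ← eval₂_id, eval₂_comp_left, RingHom.comp_id]
  rfl

theorem Pj_map (φ : A →+* B) (c : S → A) (j : κ) : map φ (Pj c j) = Pj (fun q => φ (c q)) j := by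
  unfold Pj
  rw [map_sum]
  refine Finset.sum_congr rfl fun q _ => ?_
  split_ifs
  · rw [map_monomial]
  · rw [map_zero]

theorem elim_map (φ : A →+* B) (z : κ → A) (y : O → A) :
    (fun o => φ ((Sum.elim z y : κ ⊕ O → A) o)) = Sum.elim (fun l => φ (z l)) (fun l => φ (y l)) := by
  funext o
  rcases o with l | l <;> rfl

theorem ev_Pj_map (φ : A →+* B) (c : S → A) (z : κ → A) (y : O → A) (j : κ) :
    φ (eval (Sum.elim z y) (Pj c j)) =
      eval (Sum.elim (fun l => φ (z l)) (fun l => φ (y l))) (Pj (fun q => φ (c q)) j) := by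
  rw [ev_map, Pj_map, elim_map]

theorem ev_dPj_map (φ : A →+* B) (c : S → A) (z : κ → A) (y : O → A) (j : κ) (o : κ ⊕ O) :
    φ (eval (Sum.elim z y) (pderiv o (Pj c j))) =
      eval (Sum.elim (fun l => φ (z l)) (fun l => φ (y l))) (pderiv o (Pj (fun q => φ (c q)) j)) := by
  rw [ev_map, ← pderiv_map, Pj_map, elim_map]

theorem BB_map (φ : A →+* B) (c : S → A) (z : κ → A) (y g : O → A) :
    (BB β c z y g).map φ = BB β (fun q => φ (c q)) (fun l => φ (z l)) (fun l => φ (y l)) fun l => φ (g l) := by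
  ext j l
  simp only [BB, Matrix.map_apply, Matrix.of_apply, map_sum]
  refine Finset.sum_congr rfl fun o _ => ?_
  split_ifs
  · rw [map_mul, ev_dPj_map]
  · rw [map_zero]

theorem BB_map' (φ : A →+* B) (c : S → A) (z : κ → A) (y g : O → A) (j l : κ) :
    φ (BB β c z y g j l) = BB β (fun q => φ (c q)) (fun l => φ (z l)) (fun l => φ (y l)) (fun l => φ (g l)) j l :=
  congrFun (congrFun (BB_map β φ c z y g) j) l

theorem JJ_map (φ : A →+* B) (c : S → A) (z : κ → A) (y g : O → A) :
    (JJ β c z y g).map φ = JJ β (fun q => φ (c q)) (fun l => φ (z l)) (fun l => φ (y l)) fun l => φ (g l) := by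
  ext j l
  simp only [JJ, Matrix.map_apply, Matrix.of_apply, map_add, ev_dPj_map, BB_map']

theorem JJ_map' (φ : A →+* B) (c : S → A) (z : κ → A) (y g : O → A) (j l : κ) :
    φ (JJ β c z y g j l) = JJ β (fun q => φ (c q)) (fun l => φ (z l)) (fun l => φ (y l)) (fun l => φ (g l)) j l :=
  congrFun (congrFun (JJ_map β φ c z y g) j) l

theorem mo_map (φ : A →+* B) (p : Ex κ O) (z : κ → A) (y : O → A) :
    φ (mo p z y) = mo p (fun l => φ (z l)) (fun l => φ (y l)) := by
  unfold mo
  rw [ev_map, map_monomial, map_one, elim_map]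

theorem mo_zero (z : κ → A) (y : O → A) : mo 0 z y = 1 := by
  unfold mo
  rw [monomial_zero', map_one, map_one]

theorem mo_x (l : κ) (z : κ → A) (y : O → A) : mo (Finsupp.single (Sum.inl l) 1) z y = z l := by
  unfold mo
  rw [← X, eval_X]
  rfl

theorem mo_y (o : O) (z : κ → A) (y : O → A) : mo (Finsupp.single (Sum.inr o) 1) z y = y o := by
  unfold mo
  rw [← X, eval_X]
  rfl

theorem mo_xy (l : κ) (o : O) (z : κ → A) (y : O → A) :
    mo (Finsupp.single (Sum.inl l) 1 + Finsupp.single (Sum.inr o) 1) z y = z l * y o := by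
  unfold mo
  have h1 : (monomial (Finsupp.single (Sum.inl l) 1 + Finsupp.single (Sum.inr o) 1) (1 : A)) =
      X (Sum.inl l) * X (Sum.inr o) := by
    unfold X
    rw [monomial_mul, one_mul]
  rw [h1, map_mul, eval_X, eval_X]
  rfl

end ring

variable {k F : Type*} [Field k] [Field F] [Algebra k F]

/-- the chain rule for polynomials with constant coefficients -/
theorem der_ev {σ : Type*} [Fintype σ] [DecidableEq σ] (δ : Derivation k F F) (v : σ → F) (P : MvPolynomial σ k) :
    δ (eval v (map (algebraMap k F) P)) = ∑ o, eval v (map (algebraMap k F) (pderiv o P)) * δ (v o) := by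
  induction P using MvPolynomial.induction_on with
  | C a => simp
  | add p q hp hq =>
    simp only [map_add, hp, hq, add_mul, Finset.sum_add_distrib]
  | mul_X p o hp =>
    simp only [map_mul, map_X, eval_X, Derivation.leibniz, hp, smul_eq_mul, pderiv_X, map_add, add_mul,
      Finset.sum_add_distrib]
    have h1 : ∀ x : σ, eval v (map (algebraMap k F) ((Pi.single x 1 : σ → MvPolynomial σ k) o)) =
        if x = o then 1 else 0 := by
      intro x
      by_cases h : x = o
      · subst h
        simp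
      · rw [if_neg h, Pi.single_eq_of_ne (Ne.symm h)]
        simp
    simp only [h1, mul_ite, mul_one, mul_zero, ite_mul, zero_mul, Finset.sum_ite_eq', Finset.mem_univ, if_true]
    rw [Finset.mul_sum]
    congr 1
    exact Finset.sum_congr rfl fun x _ => by ring

variable {S : Finset (κ × Ex κ O)} {c : S → k} {β : O → κ}

/-- the coefficients in the large field -/
def cF (F : Type*) [Field F] [Algebra k F] (c : S → k) : S → F := fun q => algebraMap k F (c q)

theorem der_Pj (δ : Derivation k F F) (z : κ → F) (y : O → F) (j : κ) :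
    δ (eval (Sum.elim z y) (Pj (cF F c) j)) =
      ∑ l, eval (Sum.elim z y) (pderiv (Sum.inl l) (Pj (cF F c) j)) * δ (z l) +
      ∑ o, eval (Sum.elim z y) (pderiv (Sum.inr o) (Pj (cF F c) j)) * δ (y o) := by
  have h1 : Pj (cF F c) j = map (algebraMap k F) (Pj c j) := (Pj_map (algebraMap k F) c j).symm
  rw [h1, der_ev, Fintype.sum_sum_type]
  simp only [pderiv_map, Sum.elim_inl, Sum.elim_inr]

/-- values of polynomials with constant coefficients at killed elements are killed -/
theorem der_ev_zero {σ : Type*} [Fintype σ] [DecidableEq σ] (δ : Derivation k F F) {v : σ → F} (h : ∀ o, δ (v o) = 0)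
    (P : MvPolynomial σ k) : δ (eval v (map (algebraMap k F) P)) = 0 := by
  rw [der_ev]
  exact Finset.sum_eq_zero fun o _ => by rw [h, mul_zero]

/-- one block -/
structure Blk (β : O → κ) (op : κ → O) (c : S → k) (z : κ → F) (y g : O → F) (dz : κ → S → F) : Prop where
  P : ∀ j, eval (Sum.elim z y) (Pj (cF F c) j) = 0
  B : (BB β (cF F c) z y g).det ≠ 0
  J : (JJ β (cF F c) z y g).det ≠ 0
  d : ∀ q j, ∑ l, JJ β (cF F c) z y g j l * dz l q = - if j = q.1.1 then mo q.1.2 z y else 0
  mu : ∀ (δ : Derivation k F F) (l : κ), ∃ μ : F, ∀ o, β o = l → δ (y o) = μ * g o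
  gk : ∀ (δ : Derivation k F F) (l : κ), (∀ o, β o = l → δ (y o) = 0) → ∀ o, β o = l → δ (g o) = 0
  ne : ∀ l, g (op l) ≠ 0
  op : ∀ l, β (op l) = l

variable {op : κ → O} {z : κ → F} {y g : O → F} {dz : κ → S → F}

theorem Blk.over_y (h : Blk β op c z y g dz) (o : O) : Over k z (y o) := by
  intro δ hδ
  choose μ hμ using h.mu δ
  have h1 : (BB β (cF F c) z y g).mulVec μ = 0 := by
    funext j
    have h2 := der_Pj (c := c) δ z y j
    rw [h.P, map_zero] at h2
    simp only [hδ, mul_zero, Finset.sum_const_zero, zero_add] at h2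
    rw [Pi.zero_apply, h2]
    change ∑ l, BB β (cF F c) z y g j l * μ l = _
    simp only [BB, Matrix.of_apply, Finset.sum_mul]
    rw [Finset.sum_comm]
    refine Finset.sum_congr rfl fun o _ => ?_
    rw [Finset.sum_eq_single (β o) (fun l _ hl => by rw [if_neg (Ne.symm hl), zero_mul])
      (fun h => absurd (Finset.mem_univ _) h), if_pos rfl, hμ (β o) o rfl]
    ring
  have h2 := Matrix.eq_zero_of_mulVec_eq_zero h.B h1
  rw [hμ (β o) o rfl, h2, Pi.zero_apply, zero_mul]

theorem Blk.over_g (h : Blk β op c z y g dz) (o : O) : Over k z (g o) := fun δ hδ =>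
  h.gk δ (β o) (fun o' _ => h.over_y o' δ hδ) o rfl

theorem JJ_der (δ : Derivation k F F) (hz : ∀ l, δ (z l) = 0) (hy : ∀ o, δ (y o) = 0) (hg : ∀ o, δ (g o) = 0)
    (j l : κ) : δ (JJ β (cF F c) z y g j l) = 0 := by
  have hv : ∀ o, δ ((Sum.elim z y : κ ⊕ O → F) o) = 0 := by
    rintro (o | o)
    · exact hz o
    · exact hy o
  have h1 : Pj (cF F c) j = map (algebraMap k F) (Pj c j) := (Pj_map (algebraMap k F) c j).symm
  unfold JJ BB
  rw [Matrix.of_apply, Matrix.of_apply, h1, pderiv_map, map_add, der_ev_zero δ hv, zero_add, map_sum]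
  refine Finset.sum_eq_zero fun o _ => ?_
  split_ifs
  · rw [pderiv_map, Derivation.leibniz, der_ev_zero δ hv, hg, smul_zero, smul_zero, add_zero]
  · rw [map_zero]

/-- the weights -/
theorem Blk.over_w (h : Blk β op c z y g dz) {m : κ → k}
    {w : κ → F} (hw : Matrix.vecMul w (JJ β (cF F c) z y g) = fun l => algebraMap k F (m l)) (j : κ) :
    Over k z (w j) := by
  intro δ hδ
  have h1 : Matrix.vecMul (fun j => δ (w j)) (JJ β (cF F c) z y g) = 0 := by
    funext l
    have h2 := congrArg δ (congrFun hw l)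
    rw [Derivation.map_algebraMap] at h2
    have h3 : δ (Matrix.vecMul w (JJ β (cF F c) z y g) l) =
        ∑ j, (w j * δ (JJ β (cF F c) z y g j l) + JJ β (cF F c) z y g j l * δ (w j)) := by
      change δ (∑ j, w j * JJ β (cF F c) z y g j l) = _
      rw [map_sum]
      refine Finset.sum_congr rfl fun j _ => ?_
      rw [Derivation.leibniz, smul_eq_mul, smul_eq_mul]
    rw [h3] at h2
    simp only [JJ_der δ hδ (fun o => h.over_y o δ hδ) (fun o => h.over_g o δ hδ), mul_zero, zero_add] at h2
    rw [Pi.zero_apply, ← h2]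
    change ∑ j, δ (w j) * JJ β (cF F c) z y g j l = _
    exact Finset.sum_congr rfl fun j _ => by ring
  exact congrFun (Matrix.eq_zero_of_vecMul_eq_zero h.J h1) j

theorem Blk.weight_rel (h : Blk β op c z y g dz) {m : κ → k} {q : S} {w : κ → F}
    (hw : Matrix.vecMul w (JJ β (cF F c) z y g) = fun l => algebraMap k F (m l)) :
    ∑ l, algebraMap k F (m l) * dz l q = - (w q.1.1 * mo q.1.2 z y) := by
  have h1 : ∀ l, algebraMap k F (m l) = ∑ j, w j * JJ β (cF F c) z y g j l := fun l => (congrFun hw l).symm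
  simp only [h1, Finset.sum_mul]
  rw [Finset.sum_comm]
  have h2 : ∀ j, ∑ l, w j * JJ β (cF F c) z y g j l * dz l q = w j * (- if j = q.1.1 then mo q.1.2 z y else 0) := by
    intro j
    rw [← h.d q j, Finset.mul_sum]
    exact Finset.sum_congr rfl fun l _ => by ring
  simp only [h2, mul_neg, mul_ite, mul_zero, Finset.sum_neg_distrib, Finset.sum_ite_eq', Finset.mem_univ, if_true]

theorem Blk.exists_w (h : Blk β op c z y g dz) (m : κ → k) :
    ∃ w : κ → F, Matrix.vecMul w (JJ β (cF F c) z y g) = fun l => algebraMap k F (m l) := by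
  refine ⟨Matrix.vecMul (fun l => algebraMap k F (m l)) (JJ β (cF F c) z y g)⁻¹, ?_⟩
  rw [Matrix.vecMul_vecMul, Matrix.nonsing_inv_mul _ (isUnit_iff_ne_zero.2 h.J), Matrix.vecMul_one]

theorem w_ne {m : κ → k} (hm : m ≠ 0) {w : κ → F}
    (hw : Matrix.vecMul w (JJ β (cF F c) z y g) = fun l => algebraMap k F (m l)) : ∃ j, w j ≠ 0 := by
  by_contra hcon
  push Not at hcon
  apply hm
  funext l
  have h1 := congrFun hw l
  have h2 : w = 0 := funext hcon
  rw [h2, Matrix.zero_vecMul] at h1
  exact (algebraMap k F).injective (by rw [Pi.zero_apply, map_zero]; exact h1.symm)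

/-- the monomials `1, x_l, y_l, x_l y_l` in all equations -/
structure Four (op : κ → O) (S : Finset (κ × Ex κ O)) : Prop where
  h0 : ∀ j, (j, 0) ∈ S
  hx : ∀ j l, (j, Finsupp.single (Sum.inl l) 1) ∈ S
  hy : ∀ j l, (j, Finsupp.single (Sum.inr (op l)) 1) ∈ S
  hxy : ∀ j l, (j, Finsupp.single (Sum.inl l) 1 + Finsupp.single (Sum.inr (op l)) 1) ∈ S

/-- the killed elements -/
def kil (k F : Type*) [Field k] [Field F] [Algebra k F] : Subring F where
  carrier := {u | ∀ δ : Derivation k F F, δ u = 0}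
  zero_mem' := fun δ => map_zero δ
  one_mem' := fun δ => Derivation.map_one_eq_zero δ
  add_mem' := fun {a b} ha hb δ => by rw [map_add, ha δ, hb δ, add_zero]
  mul_mem' := fun {a b} ha hb δ => by rw [Derivation.leibniz, ha δ, hb δ, smul_zero, smul_zero, add_zero]
  neg_mem' := fun {a} ha δ => by rw [map_neg, ha δ, neg_zero]

/-- a polynomial relation with killed coefficients, restricted to zero -/
theorem zero_at {z' : κ → F} {y' : O → F} [CharZero F] {D : κ → Derivation k F F}
    (hD : ∀ b l, D b (z' l) = if l = b then 1 else 0) (hy' : ∀ o (δ : Derivation k F F), δ (y' o) = 0)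
    (P : MvPolynomial (κ ⊕ O) k) (h : eval (Sum.elim z' y') (map (algebraMap k F) P) = 0) :
    eval (Sum.elim 0 y') (map (algebraMap k F) P) = 0 := by
  let i1 : k →+* kil k F := (algebraMap k F).codRestrict (kil k F) fun a δ => Derivation.map_algebraMap δ a
  let yk : O → kil k F := fun l => ⟨y' l, hy' l⟩
  let θ : MvPolynomial (κ ⊕ O) k →+* MvPolynomial κ (kil k F) :=
    eval₂Hom (C.comp i1) (Sum.elim X fun l => C (yk l))
  have hθ : ∀ (t : κ → F) (Q : MvPolynomial (κ ⊕ O) k),
      eval t (map (kil k F).subtype (θ Q)) = eval (Sum.elim t y') (map (algebraMap k F) Q) := by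
    intro t Q
    have h1 : ((eval t).comp (map (kil k F).subtype)).comp θ =
        (eval (Sum.elim t y')).comp (map (algebraMap k F)) := by
      refine MvPolynomial.ringHom_ext (fun a => ?_) fun o => ?_
      · simp only [RingHom.comp_apply, θ, eval₂Hom_C, map_C, eval_C]
        rfl
      · rcases o with l | l
        · simp only [RingHom.comp_apply, θ, eval₂Hom_X', Sum.elim_inl, map_X, eval_X]
        · simp only [RingHom.comp_apply, θ, eval₂Hom_X', Sum.elim_inr, map_X, eval_X, map_C, eval_C]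
          rfl
    exact RingHom.congr_fun h1 Q
  have h2 : map (kil k F).subtype (θ P) = 0 := by
    refine Pool.Agent.V8H73.AN.mv_zero hD _ _ le_rfl (fun b m => ?_) ?_
    · rw [coeff_map]
      exact (coeff m (θ P)).2 (D b)
    · rw [hθ]
      exact h
  rw [← hθ, h2, map_zero]

variable {ι : Type*} [Fintype ι] [DecidableEq ι] {zz : ι → κ → F} {yy gg : ι → O → F} {z' : κ → F} {y' g' : O → F}
  {A : ι → Matrix κ κ k} {C : κ → k} {a b : ι}
  {m : ι → κ → k} {m' : κ → k} {dzz : ι → κ → S → F} {dz' : κ → S → F}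

theorem rels (hb : ∀ i, Blk β op c (zz i) (yy i) (gg i) (dzz i)) (hb' : Blk β op c z' y' g' dz')
    (hrel : ∀ q, ∑ i, ∑ l, algebraMap k F (m i l) * dzz i l q + ∑ l, algebraMap k F (m' l) * dz' l q = 0)
    {w : ι → κ → F} {w' : κ → F}
    (hw : ∀ i, Matrix.vecMul (w i) (JJ β (cF F c) (zz i) (yy i) (gg i)) = fun l => algebraMap k F (m i l))
    (hw' : Matrix.vecMul w' (JJ β (cF F c) z' y' g') = fun l => algebraMap k F (m' l)) {j0 : κ} {p : Ex κ O}
    (hp : (j0, p) ∈ S) : ∑ i, w i j0 * mo p (zz i) (yy i) + w' j0 * mo p z' y' = 0 := by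
  have h1 := hrel ⟨(j0, p), hp⟩
  rw [hb'.weight_rel hw', Finset.sum_congr rfl fun i _ => (hb i).weight_rel (hw i),
    Finset.sum_neg_distrib] at h1
  linear_combination -h1

/-- the last block is algebraic over the other ones -/
theorem last_killed (hS : Four op S) (hb : ∀ i, Blk β op c (zz i) (yy i) (gg i) (dzz i))
    (hb' : Blk β op c z' y' g' dz') (hm' : m' ≠ 0)
    (hrel : ∀ q, ∑ i, ∑ l, algebraMap k F (m i l) * dzz i l q + ∑ l, algebraMap k F (m' l) * dz' l q = 0)
    (δ : Derivation k F F) (hδ : ∀ i l, δ (zz i l) = 0) (l : κ) : δ (z' l) = 0 := by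
  choose w hw using fun i => (hb i).exists_w (m i)
  obtain ⟨w', hw'⟩ := hb'.exists_w m'
  obtain ⟨j0, hj0⟩ := w_ne hm' hw'
  have hk : ∀ p, (j0, p) ∈ S → δ (w' j0 * mo p z' y') = 0 := by
    intro p hp
    have h1 := congrArg δ (rels hb hb' hrel hw hw' hp)
    rw [map_add, map_sum, map_zero] at h1
    rw [Finset.sum_eq_zero (fun i _ => ?_), zero_add] at h1
    · exact h1
    rw [Derivation.leibniz, (hb i).over_w (hw i) j0 δ (hδ i), smul_zero, add_zero]
    have h2 : δ (mo p (zz i) (yy i)) = 0 := by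
      have h3 : mo p (zz i) (yy i) = eval (Sum.elim (zz i) (yy i)) (map (algebraMap k F) (monomial p 1)) := by
        unfold mo
        rw [map_monomial, map_one (algebraMap k F)]
      rw [h3]
      refine der_ev_zero δ ?_ _
      rintro (o | o)
      · exact hδ i o
      · exact (hb i).over_y o δ (hδ i)
    rw [h2, smul_zero]
  have h1 := hk 0 (hS.h0 j0)
  rw [mo_zero, mul_one] at h1
  have h2 := hk _ (hS.hx j0 l)
  rw [mo_x, Derivation.leibniz, h1, smul_zero, add_zero, smul_eq_mul] at h2
  exact (mul_eq_zero.1 h2).resolve_left hj0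

/-- **The blocks.** -/
theorem blocks [CharZero k] [CharZero F] (h : Lin k zz z' A C a b) (hS : Four op S)
    (hb : ∀ i, Blk β op c (zz i) (yy i) (gg i) (dzz i)) (hb' : Blk β op c z' y' g' dz') (hm' : m' ≠ 0)
    (hrel : ∀ q, ∑ i, ∑ l, algebraMap k F (m i l) * dzz i l q + ∑ l, algebraMap k F (m' l) * dz' l q = 0) (j : κ) :
    eval (Sum.elim 0 y') (Pj (cF F c) j) = 0 := by
  choose w hw using fun i => (hb i).exists_w (m i)
  obtain ⟨w', hw'⟩ := hb'.exists_w m'
  obtain ⟨j0, hj0⟩ := w_ne hm' hw'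
  obtain ⟨D, hD, hk⟩ := h.core (y := fun i l => yy i (op l)) (w := fun i => w i j0) (y' := fun l => y' (op l))
    (w' := w' j0) (fun i l => (hb i).over_y _)
    (fun i => (hb i).over_w (hw i) j0) (fun l => hb'.over_y _) (hb'.over_w hw' j0) hj0
    (by
      have := rels hb hb' hrel hw hw' (hS.h0 j0)
      simpa only [mo_zero, mul_one] using this)
    (fun l => by
      have := rels hb hb' hrel hw hw' (hS.hx j0 l)
      simpa only [mo_x] using this)
    (fun l => by
      have := rels hb hb' hrel hw hw' (hS.hy j0 l)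
      simpa only [mo_y] using this)
    (fun l => by
      have := rels hb hb' hrel hw hw' (hS.hxy j0 l)
      simpa only [mo_xy] using this)
  have hk' : ∀ o (δ : Derivation k F F), δ (y' o) = 0 := by
    intro o δ
    obtain ⟨μ, hμ⟩ := hb'.mu δ (β o)
    have h1 := hμ (op (β o)) (hb'.op _)
    rw [hk] at h1
    have h2 : μ = 0 := (mul_eq_zero.1 h1.symm).resolve_right (hb'.ne _)
    rw [hμ o rfl, h2, zero_mul]
  have h1 : Pj (cF F c) j = map (algebraMap k F) (Pj c j) := (Pj_map (algebraMap k F) c j).symm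
  have h2 := hb'.P j
  rw [h1] at h2 ⊢
  exact zero_at hD hk' _ h2

end Pool.Agent.V8H73.GN
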