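import Pool.Agent.V8H73.GN.Ind
import Pool.Agent.N945.AX.ELL
import Pool.Agent.H667R3.W4

/-!
# Exponentials and Weierstrass functions
-/

set_option autoImplicit false
set_option linter.unusedSectionVars false

open Set Filter MvPolynomial
open scoped Topology PeriodPair

namespace Pool.Agent.V8H73.GN

open Pool.Agent.V8H73
open Pool.Agent.V8H73.AN (Mod)

theorem half_ev (L : PeriodPair) (z0 : ℂ) : ∀ᶠ z in 𝓝[≠] z0, 2 * z ∉ L.lattice := by
  have h1 := L.compl_lattice_sdiff_singleton_mem_nhds (2 * z0)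
  have h2 : Tendsto (fun z : ℂ => 2 * z) (𝓝 z0) (𝓝 (2 * z0)) := (continuous_const.mul continuous_id).tendsto z0
  rw [eventually_nhdsWithin_iff]
  filter_upwards [h2.eventually h1] with z hz hne hmem
  exact hz ⟨hmem, fun h => hne (mul_left_cancel₀ two_ne_zero h)⟩

theorem wp2 (L : PeriodPair) {z0 : ℂ} (hz0 : z0 ∉ L.lattice) :
    HasDerivAt ℘'[L] (6 * ℘[L] z0 ^ 2 - L.g₂ / 2) z0 := by
  have han : AnalyticAt ℂ ℘'[L] z0 := L.analyticOnNhd_derivWeierstrassP z0 hz0
  have han2 : AnalyticAt ℂ (fun z => 6 * ℘[L] z ^ 2 - L.g₂ / 2) z0 :=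
    (analyticAt_const.mul ((L.analyticOnNhd_weierstrassP z0 hz0).pow 2)).sub analyticAt_const
  have h1 : ∀ᶠ z in 𝓝[≠] z0, 6 * ℘[L] z ^ 2 - L.g₂ / 2 = deriv ℘'[L] z := by
    filter_upwards [half_ev L z0] with z hz using (H667R3.hasDerivAt_wp' L hz).deriv.symm
  have hc1 : Tendsto (deriv ℘'[L]) (𝓝[≠] z0) (𝓝 (deriv ℘'[L] z0)) :=
    han.deriv.continuousAt.tendsto.mono_left nhdsWithin_le_nhds
  have hc2 : Tendsto (fun z => 6 * ℘[L] z ^ 2 - L.g₂ / 2) (𝓝[≠] z0) (𝓝 (6 * ℘[L] z0 ^ 2 - L.g₂ / 2)) :=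
    han2.continuousAt.tendsto.mono_left nhdsWithin_le_nhds
  have h2 : deriv ℘'[L] z0 = 6 * ℘[L] z0 ^ 2 - L.g₂ / 2 := tendsto_nhds_unique hc1 (hc2.congr' h1)
  rw [← h2]
  exact han.differentiableAt.hasDerivAt

variable {q s n : ℕ}

/-- the functions -/
noncomputable def TE (s : ℕ) (Λ : Fin q → PeriodPair) (ty : Fin n → Fin q) :
    Dat (Fin s ⊕ Fin n) (Fin s ⊕ (Fin n ⊕ Fin n)) where
  β := Sum.elim Sum.inl (Sum.elim Sum.inr Sum.inr)
  f := Sum.elim (fun _ => Complex.exp) (Sum.elim (fun i => ℘[Λ (ty i)]) fun i => ℘'[Λ (ty i)])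
  g := Sum.elim (fun _ => Complex.exp) (Sum.elim (fun i => ℘'[Λ (ty i)])
    fun i t => 6 * ℘[Λ (ty i)] t ^ 2 - (Λ (ty i)).g₂ / 2)
  D := Sum.elim (fun _ => univ) fun i => ((Λ (ty i)).lattice : Set ℂ)ᶜ

/-- the first function of each coordinate -/
def opE (s n : ℕ) : Fin s ⊕ Fin n → Fin s ⊕ (Fin n ⊕ Fin n) := Sum.elim Sum.inl fun i => Sum.inr (Sum.inl i)

variable {Λ : Fin q → PeriodPair} {ty : Fin n → Fin q}

theorem TE_ok : Ok (TE s Λ ty) where
  op := by
    rintro (k | i)
    · exact isOpen_univ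
    · exact H667R3.isOpen_compl (Λ (ty i))
  an := by
    rintro (k | i | i)
    · exact fun t _ => analyticAt_cexp
    · exact (Λ (ty i)).analyticOnNhd_weierstrassP
    · exact (Λ (ty i)).analyticOnNhd_derivWeierstrassP
  dv := by
    rintro (k | i | i) t ht
    · exact Complex.hasDerivAt_exp t
    · exact H667R3.hasDerivAt_weierstrassP (Λ (ty i)) ht
    · exact wp2 (Λ (ty i)) ht

section rel

variable {X : Type} [Fintype X] {U : Set (X → ℂ)} {k F : Type} [Field k] [Field F] [Algebra k F]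
  {χ : MvPolynomial X ℂ →+* k} {φ : AZ.An U →+* F}

theorem rel_wp (L : PeriodPair) (hM : Mod U χ φ) {u : (X → ℂ) → ℂ} (hu : ∀ x ∈ U, u x ∉ L.lattice)
    (h1 : AnalyticOnNhd ℂ (fun x => ℘[L] (u x)) U) (h2 : AnalyticOnNhd ℂ (fun x => ℘'[L] (u x)) U) :
    φ (AZ.el h2) ^ 2 = 4 * φ (AZ.el h1) ^ 3 - algebraMap k F (χ (C L.g₂)) * φ (AZ.el h1) -
      algebraMap k F (χ (C L.g₃)) := by
  have h3 : (4 : F) = φ 4 := (map_ofNat φ 4).symm
  rw [hM.tow, hM.tow, h3, ← map_pow, ← map_pow, ← map_mul, ← map_mul, ← map_sub, ← map_sub]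
  congr 1
  refine AZ.an_ext fun x => ?_
  rw [← AZ.evp_apply, ← AZ.evp_apply]
  simp only [map_sub, map_mul, map_pow, AZ.evp_el, AZ.evp_toAn, eval_C, map_ofNat]
  exact L.derivWeierstrassP_sq _ (hu x x.2)

theorem rel_wp2 (L : PeriodPair) (hM : Mod U χ φ) {u : (X → ℂ) → ℂ}
    (h1 : AnalyticOnNhd ℂ (fun x => ℘[L] (u x)) U) (h2 : AnalyticOnNhd ℂ (fun x => 6 * ℘[L] (u x) ^ 2 - L.g₂ / 2) U) :
    2 * φ (AZ.el h2) = 12 * φ (AZ.el h1) ^ 2 - algebraMap k F (χ (C L.g₂)) := by
  have h3 : (12 : F) = φ 12 := (map_ofNat φ 12).symm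
  have h4 : (2 : F) = φ 2 := (map_ofNat φ 2).symm
  rw [hM.tow, h3, h4, ← map_pow, ← map_mul, ← map_mul, ← map_sub]
  congr 1
  refine AZ.an_ext fun x => ?_
  rw [← AZ.evp_apply, ← AZ.evp_apply]
  simp only [map_sub, map_mul, map_pow, AZ.evp_el, AZ.evp_toAn, eval_C, map_ofNat]
  ring

theorem der_rel [CharZero F] {δ : Derivation k F F} {P Q R : F} {a b : k}
    (h1 : Q ^ 2 = 4 * P ^ 3 - algebraMap k F a * P - algebraMap k F b) (h2 : 2 * R = 12 * P ^ 2 - algebraMap k F a) :
    Q * δ Q = R * δ P := by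
  have h3 := congrArg δ h1
  have e4 : δ (4 : F) = 0 := by simpa using Derivation.map_natCast δ 4
  simp only [map_sub, Derivation.leibniz, Derivation.leibniz_pow, Derivation.map_algebraMap, smul_eq_mul, mul_zero,
    add_zero, sub_zero, nsmul_eq_mul, e4] at h3
  have h4 : 2 * (Q * δ Q) = 2 * (R * δ P) := by
    push_cast at h3
    linear_combination h3 - δ P * h2
  exact mul_left_cancel₀ two_ne_zero h4

theorem der_rel2 [CharZero F] {δ : Derivation k F F} {P R : F} {a : k} (h2 : 2 * R = 12 * P ^ 2 - algebraMap k F a)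
    (h : δ P = 0) : δ R = 0 := by
  have h3 := congrArg δ h2
  have e2 : δ (2 : F) = 0 := by simpa using Derivation.map_natCast δ 2
  have e12 : δ (12 : F) = 0 := by simpa using Derivation.map_natCast δ 12
  simp only [map_sub, Derivation.leibniz, Derivation.leibniz_pow, Derivation.map_algebraMap, smul_eq_mul, mul_zero,
    add_zero, sub_zero, nsmul_eq_mul, e2, e12, h] at h3
  exact (mul_eq_zero.1 h3).resolve_left two_ne_zero

end rel

theorem TE_nd : Nd (TE s Λ ty) (opE s n) where
  ok := TE_ok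
  ho := by
    rintro (k | i) <;> rfl
  nz := by
    rintro (k | i) t ht
    · exact Eventually.of_forall fun x => Complex.exp_ne_zero x
    · filter_upwards [half_ev (Λ (ty i)) t] with z hz using H667R3.wp'_ne_zero (Λ (ty i)) hz
  wr := by
    intro X _ U k F _ _ _ χ φ hM u hD hf hg δ o l ho
    have := hM.cF
    rcases o with k | i | i
    · subst ho
      rfl
    · subst ho
      rfl
    · subst ho
      exact der_rel (rel_wp (Λ (ty i)) hM (u := u (Sum.inr i)) (fun x hx => hD (Sum.inr i) x hx)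
        (hf (Sum.inr (Sum.inl i))) (hf (Sum.inr (Sum.inr i))))
        (rel_wp2 (Λ (ty i)) hM (u := u (Sum.inr i)) (hf (Sum.inr (Sum.inl i))) (hg (Sum.inr (Sum.inr i))))
  gk := by
    intro X _ U k F _ _ _ χ φ hM u hD hf hg δ l hl o ho
    have := hM.cF
    rcases o with k | i | i
    · subst ho
      exact hl (Sum.inl k) rfl
    · subst ho
      exact hl (Sum.inr (Sum.inr i)) rfl
    · subst ho
      exact der_rel2 (rel_wp2 (Λ (ty i)) hM (u := u (Sum.inr i)) (hf (Sum.inr (Sum.inl i)))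
        (hg (Sum.inr (Sum.inr i)))) (hl (Sum.inr (Sum.inl i)) rfl)

open Classical in
theorem TE_cn (hno : ∀ c c', c ≠ c' → Pool.Agent.TH813.G.NoHom (Λ c) (Λ c')) :
    Cn (TE s Λ ty) (Sum.inr : Fin n → Fin s ⊕ Fin n) fun i => H667R3.zeta (Λ (ty i)) := by
  intro X _ U k F _ _ _ χ φ hM hU hc hne σ _ t u hu hD hfree hf hh ρ _ Z h
  have := hM.ck
  let εA := (Fintype.equivFin {a : σ // (t a).isLeft}).symm
  let εB := (Fintype.equivFin {a : σ // (t a).isRight}).symm
  let ia : {a : σ // (t a).isLeft} → Fin s := fun a => (t a.1).getLeft a.2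
  let ib : {a : σ // (t a).isRight} → Fin n := fun a => (t a.1).getRight a.2
  have hia : ∀ a : {a : σ // (t a).isLeft}, t a.1 = Sum.inl (ia a) := fun a => (Sum.inl_getLeft (t a.1) a.2).symm
  have hib : ∀ a : {a : σ // (t a).isRight}, t a.1 = Sum.inr (ib a) := fun a => (Sum.inr_getRight (t a.1) a.2).symm
  have hDB : ∀ a : {a : σ // (t a).isRight}, ∀ x ∈ U, u a.1 x ∉ (Λ (ty (ib a))).lattice := by
    intro a x hx
    have h1 := hD a.1 x hx
    rw [hib a] at h1
    exact h1
  obtain ⟨e, he, hI⟩ := Pool.Agent.N945.AX.ell (Pool.Agent.N301.AX.ind Pool.Agent.N878.AX.line) X q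
    (Fintype.card {a : σ // (t a).isRight}) (Fintype.card {a : σ // (t a).isLeft}) U Λ (fun j => ty (ib (εB j)))
    (fun j => u (εB j).1) (fun j => u (εA j).1) hU hc hne hno (fun j => hu _) (fun j => hDB (εB j))
    (fun c a b _ _ hab => by
      have h1 := hfree (fun s => if hs : (t s).isRight then a (εB.symm ⟨s, hs⟩) else 0) b fun x hx => by
        rw [← hab x hx]
        have h2 : ∀ s : σ, (if hs : (t s).isRight then a (εB.symm ⟨s, hs⟩) else 0) * u s x =
            if hs : (t s).isRight then a (εB.symm ⟨s, hs⟩) * u s x else 0 := by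
          intro s
          split_ifs
          · rfl
          · rw [zero_mul]
        rw [Finset.sum_congr rfl fun s _ => h2 s, ← Finset.sum_filter_add_sum_filter_not Finset.univ
          (fun s => (t s).isRight = true)]
        have h3 : ∑ s ∈ Finset.univ.filter fun s => ¬ (t s).isRight = true,
            (if hs : (t s).isRight then a (εB.symm ⟨s, hs⟩) * u s x else 0) = 0 :=
          Finset.sum_eq_zero fun s hs => dif_neg (Finset.mem_filter.1 hs).2
        rw [h3, add_zero, Finset.sum_subtype (p := fun s => (t s).isRight = true) _ (fun s => by simp)]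
        refine (Equiv.sum_comp εB _).symm.trans ?_
        refine Finset.sum_congr rfl fun i _ => ?_
        rw [dif_pos (εB i).2]
        congr 2
        exact εB.symm_apply_apply i
      funext j
      have h2 := congrFun h1 (εB j).1
      rw [dif_pos (εB j).2] at h2
      have h3 : εB.symm ⟨(εB j).1, (εB j).2⟩ = j := εB.symm_apply_apply j
      rw [h3] at h2
      exact h2)
    (fun j => hu _)
    (fun a b hab => by
      have h1 := hfree (fun s => if hs : (t s).isLeft then (a (εA.symm ⟨s, hs⟩) : ℂ) else 0) b fun x hx => by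
        rw [← hab x hx]
        have h2 : ∀ s : σ, (if hs : (t s).isLeft then (a (εA.symm ⟨s, hs⟩) : ℂ) else 0) * u s x =
            if hs : (t s).isLeft then (a (εA.symm ⟨s, hs⟩) : ℂ) * u s x else 0 := by
          intro s
          split_ifs
          · rfl
          · rw [zero_mul]
        rw [Finset.sum_congr rfl fun s _ => h2 s, ← Finset.sum_filter_add_sum_filter_not Finset.univ
          (fun s => (t s).isLeft = true)]
        have h3 : ∑ s ∈ Finset.univ.filter fun s => ¬ (t s).isLeft = true,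
            (if hs : (t s).isLeft then (a (εA.symm ⟨s, hs⟩) : ℂ) * u s x else 0) = 0 :=
          Finset.sum_eq_zero fun s hs => dif_neg (Finset.mem_filter.1 hs).2
        rw [h3, add_zero, Finset.sum_subtype (p := fun s => (t s).isLeft = true) _ (fun s => by simp)]
        refine (Equiv.sum_comp εA _).symm.trans ?_
        refine Finset.sum_congr rfl fun i _ => ?_
        rw [dif_pos (εA i).2]
        congr 3
        exact εA.symm_apply_apply i
      funext j
      have h2 := congrFun h1 (εA j).1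
      rw [dif_pos (εA j).2] at h2
      have h3 : εA.symm ⟨(εA j).1, (εA j).2⟩ = j := εA.symm_apply_apply j
      rw [h3, Pi.zero_apply] at h2
      rw [Pi.zero_apply]
      exact_mod_cast h2)
  have hyan := Pool.Agent.N945.AX.ye_an (U := U) (Λ := Λ) (ty := fun j => ty (ib (εB j))) (u := fun j => u (εB j).1)
    (l := fun j => u (εA j).1) (fun j => hu _) (fun j => hDB (εB j)) (fun j => hu _)
  have hW := hM.ind (fun k => hyan (e k)) hI
  have h1 := AN.count hW (Z := Z) fun δ hδ i => by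
    have h2 : ∀ o, δ (φ (AZ.el (hyan o))) = 0 := by
      rintro (j | j | j | j | j)
      · exact (h δ hδ (εA j).1).1
      · exact (h δ hδ (εA j).1).2.1 (Sum.inl (ia (εA j))) (hia (εA j)).symm
      · exact (h δ hδ (εB j).1).1
      · exact (h δ hδ (εB j).1).2.2 (ib (εB j)) (hib (εB j)).symm
      · exact (h δ hδ (εB j).1).2.1 (Sum.inr (Sum.inl (ib (εB j)))) (hib (εB j)).symm
    exact h2 (e i)
  rw [Fintype.card_fin] at h1
  have hcard : Fintype.card σ + Fintype.card {p : σ × Fin n // Sum.inr p.2 = t p.1} =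
      Fintype.card {a : σ // (t a).isLeft} + 2 * Fintype.card {a : σ // (t a).isRight} := by
    let ε : {p : σ × Fin n // Sum.inr p.2 = t p.1} ≃ {a : σ // (t a).isRight} :=
      { toFun := fun p => ⟨p.1.1, by rw [← p.2]; rfl⟩
        invFun := fun a => ⟨(a.1, ib a), (hib a).symm⟩
        left_inv := by
          rintro ⟨⟨a, i⟩, hai⟩
          refine Subtype.ext (Prod.ext rfl ?_)
          have h5 := hib ⟨a, by rw [← hai]; rfl⟩
          exact (Sum.inr_injective (hai.trans h5)).symm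
        right_inv := fun a => rfl }
    have h5 : Fintype.card σ = Fintype.card {a : σ // (t a).isLeft} + Fintype.card {a : σ // (t a).isRight} := by
      rw [← Fintype.card_congr (Equiv.sumCompl fun a : σ => ((t a).isLeft : Prop)), Fintype.card_sum]
      congr 1
      exact Fintype.card_congr (Equiv.subtypeEquivRight fun a => by simp)
    rw [Fintype.card_congr ε, h5]
    ring
  rw [hcard]
  exact h1

/-- exponentials and elliptic functions -/
theorem TE_ax (hno : ∀ c c', c ≠ c' → Pool.Agent.TH813.G.NoHom (Λ c) (Λ c')) :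
    Ax (TE s Λ ty) (opE s n) (Sum.inr : Fin n → Fin s ⊕ Fin n) fun i => H667R3.zeta (Λ (ty i)) :=
  ⟨TE_nd, fun i => (H667R3.differentiableOn_zeta (Λ (ty i))).analyticOnNhd (H667R3.isOpen_compl (Λ (ty i))), TE_cn hno⟩

end Pool.Agent.V8H73.GN
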