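import Pool.Agent.V8H73.GN.Bra

/-!
# Zeros of systems as functions of the coefficients: no linear relations
-/

set_option autoImplicit false
set_option linter.unusedSectionVars false

open Set Filter MvPolynomial
open scoped Topology

namespace Pool.Agent.V8H73.GN

open Pool.Agent.V8H73
open Pool.Agent.V8H73.AN (Mod Lin Over)

variable {κ O E : Type} [Fintype κ] [DecidableEq κ] [Fintype O] [DecidableEq O] [Fintype E] [DecidableEq E]
  {S : Finset (κ × Ex κ O)} {T : Dat κ O} {op : κ → O} {γ : E → κ} {eh : E → ℂ → ℂ} {U : Set (S → ℂ)}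

/-- the theorem of Ax and counting -/
def Cn (T : Dat κ O) (γ : E → κ) (h : E → ℂ → ℂ) : Prop :=
  ∀ {X : Type} [Fintype X] {U : Set (X → ℂ)} {k F : Type} [Field k] [Field F] [Algebra k F]
    {χ : MvPolynomial X ℂ →+* k} {φ : AZ.An U →+* F}, Mod U χ φ → IsOpen U → IsPreconnected U → U.Nonempty →
    ∀ {σ : Type} [Fintype σ] {t : σ → κ} {u : σ → (X → ℂ) → ℂ} (hu : ∀ s, AnalyticOnNhd ℂ (u s) U),
    (∀ s, ∀ x ∈ U, u s x ∈ T.D (t s)) → (∀ (m : σ → ℂ) (C : ℂ), (∀ x ∈ U, ∑ s, m s * u s x = C) → m = 0) →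
    ∀ (hf : ∀ s o, T.β o = t s → AnalyticOnNhd ℂ (fun x => T.f o (u s x)) U)
      (hh : ∀ s e, γ e = t s → AnalyticOnNhd ℂ (fun x => h e (u s x)) U) {ρ : Type} [Fintype ρ] {Z : ρ → F},
    (∀ δ : Derivation k F F, (∀ r, δ (Z r) = 0) → ∀ s, δ (φ (AZ.el (hu s))) = 0 ∧
      (∀ o (ho : T.β o = t s), δ (φ (AZ.el (hf s o ho))) = 0) ∧ ∀ e (he : γ e = t s), δ (φ (AZ.el (hh s e he))) = 0) →
    Fintype.card σ + Fintype.card {p : σ × E // γ p.2 = t p.1} ≤ Fintype.card ρ ∧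
      (Fintype.card σ + Fintype.card {p : σ × E // γ p.2 = t p.1} = Fintype.card ρ → AlgebraicIndependent k Z)

/-- everything -/
structure Ax (T : Dat κ O) (op : κ → O) (γ : E → κ) (h : E → ℂ → ℂ) : Prop where
  nd : Nd T op
  han : ∀ e, AnalyticOnNhd ℂ (h e) (T.D (γ e))
  cn : Cn T γ h

/-- different nondegenerate zeros which are analytic functions -/
structure Br {ι : Type} (T : Dat κ O) (U : Set (S → ℂ)) (ζ : ι → (S → ℂ) → κ → ℂ) : Prop where
  b : ∀ i, B1 T U (ζ i)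
  dist : ∀ i j, i ≠ j → ∃ x ∈ U, ζ i x ≠ ζ j x

theorem Br.comp {ι ι' : Type} {ζ : ι → (S → ℂ) → κ → ℂ} (hb : Br T U ζ) {e : ι' → ι} (he : Function.Injective e) :
    Br T U fun i => ζ (e i) := ⟨fun _ => hb.b _, fun _ _ hij => hb.dist _ _ fun h1 => hij (he h1)⟩

variable {k F : Type} [Field k] [Field F] [Algebra k F] {χ : MvPolynomial S ℂ →+* k} {φ : AZ.An U →+* F}

/-- no linear relation between the coordinates -/
def Fr {ι : Type} [Fintype ι] (U : Set (S → ℂ)) (ζ : ι → (S → ℂ) → κ → ℂ) : Prop :=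
  ∀ (m : ι → κ → ℂ) (C : ℂ), (∀ x ∈ U, ∑ i, ∑ l, m i l * ζ i x l = C) → m = 0

theorem B1.e {ζ : (S → ℂ) → κ → ℂ} (hb : B1 T U ζ) (hA : Ax T op γ eh) (e : E) :
    AnalyticOnNhd ℂ (fun x => eh e (ζ x (γ e))) U := fun x hx =>
  (hA.han e _ (hb.mem x hx (γ e))).comp_of_eq (hb.z (γ e) x hx) rfl

/-- the independent functions -/
noncomputable def hv (γ : E → κ) (h : E → ℂ → ℂ) (z : κ → ℂ) : κ ⊕ E → ℂ := Sum.elim z fun e => h e (z (γ e))

theorem B1.hv {ζ : (S → ℂ) → κ → ℂ} (hb : B1 T U ζ) (hA : Ax T op γ eh) (r : κ ⊕ E) :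
    AnalyticOnNhd ℂ (fun x => GN.hv γ eh (ζ x) r) U := by
  rcases r with l | e
  · exact hb.z l
  · exact hb.e hA e

theorem el_congr {V : Set (S → ℂ)} {f g : (S → ℂ) → ℂ} (hf : AnalyticOnNhd ℂ f V) (hg : AnalyticOnNhd ℂ g V)
    (hfg : f = g) : AZ.el hf = AZ.el hg := by
  subst hfg
  rfl

/-- (E1) -/
theorem ind_of_free (hA : Ax T op γ eh) (hS : Four op S) (hM : Mod U χ φ) (hU : IsOpen U) (hc : IsPreconnected U)
    (hne : U.Nonempty) {ι : Type} [Fintype ι] [DecidableEq ι] {ζ : ι → (S → ℂ) → κ → ℂ} (hb : Br T U ζ) (hf : Fr U ζ) :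
    AlgebraicIndependent k fun q : ι × (κ ⊕ E) => φ (AZ.el ((hb.b q.1).hv hA q.2)) := by
  have hfy : ∀ (s : ι × κ) o, T.β o = s.2 → AnalyticOnNhd ℂ (fun x => T.f o (ζ s.1 x s.2)) U := by
    rintro ⟨i, l⟩ o rfl
    exact (hb.b i).y hA.nd.ok o
  have hhy : ∀ (s : ι × κ) e, γ e = s.2 → AnalyticOnNhd ℂ (fun x => eh e (ζ s.1 x s.2)) U := by
    rintro ⟨i, l⟩ e rfl
    exact (hb.b i).e hA e
  refine (hA.cn hM hU hc hne (σ := ι × κ) (t := fun s => s.2) (u := fun s x => ζ s.1 x s.2)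
    (fun q => (hb.b q.1).z q.2) (fun s x hx => (hb.b s.1).mem x hx s.2)
    (fun m C hC => ?_) hfy hhy (Z := fun q : ι × (κ ⊕ E) => φ (AZ.el ((hb.b q.1).hv hA q.2)))
      fun δ hδ s => ⟨hδ (s.1, Sum.inl s.2), ?_, ?_⟩).2 ?_
  · have h1 := hf (fun i l => m (i, l)) C fun x hx => by
      rw [← hC x hx, Fintype.sum_prod_type]
    funext q
    exact congrFun (congrFun h1 q.1) q.2
  · rcases s with ⟨i, l⟩
    intro o ho
    change T.β o = l at ho
    subst ho
    exact (blk hA.nd hS hU hc hne hM (hb.b i)).over_y o δ fun l => hδ (i, Sum.inl l)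
  · rcases s with ⟨i, l⟩
    intro e ho
    change γ e = l at ho
    subst ho
    exact hδ (i, Sum.inr e)
  · let ε : {p : (ι × κ) × E // γ p.2 = p.1.2} ≃ ι × E :=
      { toFun := fun p => (p.1.1.1, p.1.2)
        invFun := fun q => ⟨((q.1, γ q.2), q.2), rfl⟩
        left_inv := by
          rintro ⟨⟨⟨i, l⟩, e⟩, h1⟩
          change γ e = l at h1
          subst h1
          rfl
        right_inv := fun q => rfl }
    rw [Fintype.card_congr ε]
    simp only [Fintype.card_prod, Fintype.card_sum]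
    ring

/-- (E2) -/
theorem last_rel (hA : Ax T op γ eh) (hS : Four op S) (hM : Mod U χ φ) (hU : IsOpen U) (hc : IsPreconnected U)
    (hne : U.Nonempty) {ι : Type} [Fintype ι] [DecidableEq ι] {ζ : ι → (S → ℂ) → κ → ℂ} (hb : ∀ i, B1 T U (ζ i))
    (hf : Fr U ζ) {ζ' : (S → ℂ) → κ → ℂ} (hb' : B1 T U ζ') {m : ι → κ → ℂ} {m' : κ → ℂ} (hm' : m' ≠ 0) {C0 : ℂ}
    (hC : ∀ x ∈ U, ∑ i, ∑ l, m i l * ζ i x l + ∑ l, m' l * ζ' x l = C0) (l : κ) :
    ∃ (A : ι → κ → ℂ) (C1 : ℂ), ∀ x ∈ U, ζ' x l = C1 + ∑ i, ∑ c, A i c * ζ i x c := by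
  have hB := fun i => blk hA.nd hS hU hc hne hM (hb i)
  have hB' := blk hA.nd hS hU hc hne hM hb'
  have hkm : (fun l => χ (C (m' l))) ≠ 0 := by
    intro h0
    apply hm'
    funext l
    have h1 := congrFun h0 l
    have h2 : (C (m' l) : MvPolynomial S ℂ) = 0 := hM.kinj (by rw [map_zero]; exact h1)
    exact C_eq_zero.1 h2
  by_contra hcon
  let t : (ι × κ) ⊕ Unit → κ := Sum.elim (fun s => s.2) fun _ => l
  let u : (ι × κ) ⊕ Unit → (S → ℂ) → ℂ := Sum.elim (fun q x => ζ q.1 x q.2) fun _ x => ζ' x l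
  have hu : ∀ s, AnalyticOnNhd ℂ (u s) U := by
    rintro (q | _)
    · exact (hb q.1).z q.2
    · exact hb'.z l
  have hfy : ∀ (s : (ι × κ) ⊕ Unit) o, T.β o = t s → AnalyticOnNhd ℂ (fun x => T.f o (u s x)) U := by
    rintro (⟨i, l'⟩ | _) o ho
    · change T.β o = l' at ho
      subst ho
      exact (hb i).y hA.nd.ok o
    · change T.β o = l at ho
      subst ho
      exact hb'.y hA.nd.ok o
  have hhy : ∀ (s : (ι × κ) ⊕ Unit) e, γ e = t s → AnalyticOnNhd ℂ (fun x => eh e (u s x)) U := by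
    rintro (⟨i, l'⟩ | _) e ho
    · change γ e = l' at ho
      subst ho
      exact (hb i).e hA e
    · change γ e = l at ho
      subst ho
      exact hb'.e hA e
  let Z : (ι × (κ ⊕ E)) ⊕ {e // γ e = l} → F := Sum.elim (fun q => φ (AZ.el ((hb q.1).hv hA q.2)))
    fun e => φ (AZ.el (hb'.e hA e.1))
  have h1 := (hA.cn hM hU hc hne (t := t) (u := u) hu ?_ (fun a C2 ha => ?_) hfy hhy (Z := Z) fun δ hδ s => ?_).1
  · let ε : {p : ((ι × κ) ⊕ Unit) × E // γ p.2 = t p.1} ≃ (ι × E) ⊕ {e // γ e = l} :=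
      { toFun := fun p => match p with
          | ⟨(Sum.inl s, e), _⟩ => Sum.inl (s.1, e)
          | ⟨(Sum.inr _, e), h⟩ => Sum.inr ⟨e, h⟩
        invFun := fun q => match q with
          | Sum.inl q => ⟨(Sum.inl (q.1, γ q.2), q.2), rfl⟩
          | Sum.inr e => ⟨(Sum.inr (), e.1), e.2⟩
        left_inv := by
          rintro ⟨⟨⟨i, l'⟩ | _, e⟩, h1⟩
          · change γ e = l' at h1
            subst h1
            rfl
          · rfl
        right_inv := by
          rintro (q | e)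
          · rfl
          · rfl }
    rw [Fintype.card_congr ε] at h1
    simp only [Fintype.card_sum, Fintype.card_prod, Fintype.card_unit] at h1
    have h2 : Fintype.card ι * (Fintype.card κ + Fintype.card E) =
      Fintype.card ι * Fintype.card κ + Fintype.card ι * Fintype.card E := Nat.mul_add _ _ _
    omega
  · rintro (q | _) x hx
    · exact (hb q.1).mem x hx q.2
    · exact hb'.mem x hx l
  · have ha' : ∀ x ∈ U, ∑ i, ∑ c, a (Sum.inl (i, c)) * ζ i x c + a (Sum.inr ()) * ζ' x l = C2 := by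
      intro x hx
      have h2 := ha x hx
      have h3 : ∑ s : Unit, a (Sum.inr s) * u (Sum.inr s) x = a (Sum.inr ()) * ζ' x l := Fintype.sum_unique _
      rw [Fintype.sum_sum_type, Fintype.sum_prod_type, h3] at h2
      exact h2
    by_cases h0 : a (Sum.inr ()) = 0
    · have h2 := hf (fun i c => a (Sum.inl (i, c))) C2 fun x hx => by
        have h3 := ha' x hx
        rw [h0, zero_mul, add_zero] at h3
        exact h3
      funext s
      rcases s with q | _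
      · exact congrFun (congrFun h2 q.1) q.2
      · exact h0
    · exfalso
      apply hcon
      refine ⟨fun i c => - a (Sum.inl (i, c)) / a (Sum.inr ()), C2 / a (Sum.inr ()), fun x hx => ?_⟩
      have h3 := ha' x hx
      have h4 : ∑ i, ∑ c, - a (Sum.inl (i, c)) / a (Sum.inr ()) * ζ i x c =
          - (∑ i, ∑ c, a (Sum.inl (i, c)) * ζ i x c) / a (Sum.inr ()) := by
        rw [neg_div, Finset.sum_div, ← Finset.sum_neg_distrib]
        refine Finset.sum_congr rfl fun i _ => ?_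
        rw [Finset.sum_div, ← Finset.sum_neg_distrib]
        exact Finset.sum_congr rfl fun c _ => by ring
      rw [h4]
      field_simp
      linear_combination h3
  · have h2 : ∀ l, δ (φ (AZ.el (hb'.z l))) = 0 := fun l =>
      last_killed hS hB hB' hkm (fun q => rel_F hM hU hb hb' hC q) δ (fun i l => hδ (Sum.inl (i, Sum.inl l))) l
    rcases s with ⟨i, l'⟩ | _
    · refine ⟨hδ (Sum.inl (i, Sum.inl l')), fun o ho => ?_, fun e ho => ?_⟩
      · change T.β o = l' at ho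
        subst ho
        exact (hB i).over_y o δ fun l => hδ (Sum.inl (i, Sum.inl l))
      · change γ e = l' at ho
        subst ho
        exact hδ (Sum.inl (i, Sum.inr e))
    · refine ⟨h2 l, fun o ho => ?_, fun e ho => ?_⟩
      · change T.β o = l at ho
        subst ho
        exact hB'.over_y o δ h2
      · change γ e = l at ho
        subst ho
        exact hδ (Sum.inr ⟨e, rfl⟩)

/-- one or two blocks -/
theorem no_rel_one (hA : Ax T op γ eh) (hS : Four op S) (hM : Mod U χ φ) (hU : IsOpen U) (hc : IsPreconnected U)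
    (hne : U.Nonempty) {ζ : Fin 0 → (S → ℂ) → κ → ℂ} {ζ' : (S → ℂ) → κ → ℂ} (h' : B1 T U ζ') {m' : κ → ℂ}
    (hm' : m' ≠ 0) {C0 : ℂ} (hC : ∀ x ∈ U, ∑ l, m' l * ζ' x l = C0) : False := by
  have hb' := blk hA.nd hS hU hc hne hM h'
  have hkm : (fun l => χ (C (m' l))) ≠ 0 := by
    intro h0
    apply hm'
    funext l
    have h1 := congrFun h0 l
    have h2 : (C (m' l) : MvPolynomial S ℂ) = 0 := hM.kinj (by rw [map_zero]; exact h1)
    exact C_eq_zero.1 h2
  obtain ⟨w', hw'⟩ := hb'.exists_w fun l => χ (C (m' l))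
  obtain ⟨j, hj⟩ := w_ne hkm hw'
  have h1 := rels (ι := Fin 0) (zz := fun i => i.elim0) (yy := fun i => i.elim0) (gg := fun i => i.elim0)
    (dzz := fun i => i.elim0) (m := fun i => i.elim0) (w := fun i => i.elim0) (fun i => i.elim0) hb'
    (fun q => by
      have h2 := rel_F hM hU (ι := Fin 0) (z := ζ) (fun i => i.elim0) h' (m := fun i => i.elim0) (m' := m')
        (C0 := C0) (fun x hx => by rw [Finset.univ_eq_empty, Finset.sum_empty, zero_add]; exact hC x hx) q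
      rw [Finset.univ_eq_empty, Finset.sum_empty, zero_add] at h2 ⊢
      exact h2) (fun i => i.elim0) hw' (hS.h0 j)
  rw [Finset.univ_eq_empty, Finset.sum_empty, zero_add, mo_zero, mul_one] at h1
  exact hj h1

theorem no_rel_two (hA : Ax T op γ eh) (hS : Four op S) (hM : Mod U χ φ) (hU : IsOpen U) (hc : IsPreconnected U)
    (hne : U.Nonempty) {ζ : (S → ℂ) → κ → ℂ} {ζ' : (S → ℂ) → κ → ℂ} (h1' : B1 T U ζ) (h' : B1 T U ζ')
    {m m' : κ → ℂ} (hm' : m' ≠ 0) {C0 : ℂ} (hC : ∀ x ∈ U, ∑ l, m l * ζ x l + ∑ l, m' l * ζ' x l = C0)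
    (hd : ∃ x ∈ U, ζ x ≠ ζ' x) : False := by
  have hb := blk hA.nd hS hU hc hne hM h1'
  have hb' := blk hA.nd hS hU hc hne hM h'
  have hkm : (fun l => χ (C (m' l))) ≠ 0 := by
    intro h0
    apply hm'
    funext l
    have h1 := congrFun h0 l
    have h2 : (C (m' l) : MvPolynomial S ℂ) = 0 := hM.kinj (by rw [map_zero]; exact h1)
    exact C_eq_zero.1 h2
  obtain ⟨w, hw⟩ := hb.exists_w fun l => χ (C (m l))
  obtain ⟨w', hw'⟩ := hb'.exists_w fun l => χ (C (m' l))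
  obtain ⟨j, hj⟩ := w_ne hkm hw'
  have h0 : ∀ q, ∑ i : Unit, ∑ l, algebraMap k F (χ (C (m l))) * φ (AZ.el (h1'.dz l q)) +
      ∑ l, algebraMap k F (χ (C (m' l))) * φ (AZ.el (h'.dz l q)) = 0 := fun q =>
    rel_F hM hU (ι := Unit) (z := fun _ => ζ) (fun _ => h1') h' (m := fun _ => m) (m' := m')
      (C0 := C0) (fun x hx => by rw [Fintype.sum_unique]; exact hC x hx) q
  have hr : ∀ p, (j, p) ∈ S → w j * mo p (fun l => φ (AZ.el (h1'.z l))) (fun o => φ (AZ.el (h1'.y hA.nd.ok o))) +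
      w' j * mo p (fun l => φ (AZ.el (h'.z l))) (fun o => φ (AZ.el (h'.y hA.nd.ok o))) = 0 := by
    intro p hp
    have h1 := rels (ι := Unit) (zz := fun _ l => φ (AZ.el (h1'.z l)))
      (yy := fun _ o => φ (AZ.el (h1'.y hA.nd.ok o))) (gg := fun _ o => φ (AZ.el (h1'.g hA.nd.ok o)))
      (dzz := fun _ l q => φ (AZ.el (h1'.dz l q))) (m := fun _ l => χ (C (m l))) (w := fun _ => w) (fun _ => hb) hb'
      h0 (fun _ => hw) hw' hp
    rw [Fintype.sum_unique] at h1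
    exact h1
  obtain ⟨x, hx, hxx⟩ := hd
  apply hxx
  funext l
  have h1 := hr 0 (hS.h0 j)
  have h2 := hr _ (hS.hx j l)
  rw [mo_zero, mo_zero, mul_one, mul_one] at h1
  rw [mo_x, mo_x] at h2
  have h3 : w' j * (φ (AZ.el (h'.z l)) - φ (AZ.el (h1'.z l))) = 0 := by
    linear_combination h2 - φ (AZ.el (h1'.z l)) * h1
  have h4 := sub_eq_zero.1 ((mul_eq_zero.1 h3).resolve_left hj)
  have h5 := congrArg (AZ.evp (⟨x, hx⟩ : U)) (hM.inj h4)
  exact h5.symm

/-- (E5) -/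
theorem no_rel_lin (hA : Ax T op γ eh) (hS : Four op S) (hM : Mod U χ φ) (hU : IsOpen U) (hc : IsPreconnected U)
    (hne : U.Nonempty) {ι : Type} [Fintype ι] [DecidableEq ι] {ζ : ι → (S → ℂ) → κ → ℂ} (hb0 : ∀ i, B1 T U (ζ i))
    {ζ' : (S → ℂ) → κ → ℂ} (h' : B1 T U ζ') {m : ι → κ → ℂ} {m' : κ → ℂ} (hm' : m' ≠ 0) {C0 : ℂ}
    (hC : ∀ x ∈ U, ∑ i, ∑ l, m i l * ζ i x l + ∑ l, m' l * ζ' x l = C0)
    {A : ι → Matrix κ κ k} {C1 : κ → k} {a b : ι}
    (hL : Lin k (fun i l => φ (AZ.el ((hb0 i).z l))) (fun l => φ (AZ.el (h'.z l))) A C1 a b) (l : κ) :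
    ∀ x ∈ U, ζ' x l = 0 := by
  have := hM.ck
  have := hM.cF
  have hb := fun i => blk hA.nd hS hU hc hne hM (hb0 i)
  have hb' := blk hA.nd hS hU hc hne hM h'
  have hkm : (fun l => χ (C (m' l))) ≠ 0 := by
    intro h0
    apply hm'
    funext l
    have h1 := congrFun h0 l
    have h2 : (C (m' l) : MvPolynomial S ℂ) = 0 := hM.kinj (by rw [map_zero]; exact h1)
    exact C_eq_zero.1 h2
  have h1 := blocks hL hS hb hb' hkm (fun q => rel_F hM hU hb0 h' hC q)
  have h2 : ∀ x ∈ U, ∀ j, eval (Sum.elim 0 (T.fz (ζ' x))) (Pj x j) = 0 := by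
    intro x hx j
    have h3 := h1 j
    rw [cF_cK hM] at h3
    have h4 : φ (eval (Sum.elim 0 fun o => AZ.el (h'.y hA.nd.ok o)) (Pj (fun q => AZ.toAn U (X q)) j)) = 0 := by
      rw [ev_Pj_map]
      have h5 : (fun l : κ => φ ((0 : κ → AZ.An U) l)) = 0 := funext fun l => map_zero φ
      rw [h5]
      exact h3
    have h5 := congrArg (AZ.evp (⟨x, hx⟩ : U)) (hM.inj (h4.trans (map_zero φ).symm))
    rw [ev_Pj_map, ev_X, map_zero] at h5
    have h6 : (fun l : κ => AZ.evp (⟨x, hx⟩ : U) ((0 : κ → AZ.An U) l)) = 0 := funext fun l => map_zero _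
    rw [h6] at h5
    exact h5
  intro x hx
  exact coord_zero hA.nd.ok hS hU hx (h'.an x hx).continuousAt (h'.mem x hx) h'.zero (h'.simple x hx) h2 l

end Pool.Agent.V8H73.GN
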