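import Pool.Agent.V8H73.GN.AeR
import Pool.Agent.V8H73.AZ.IntP

/-!
# The zeros of almost all integral systems
-/

set_option autoImplicit false
set_option linter.unusedSectionVars false

open Set Filter MeasureTheory MvPolynomial
open scoped Topology

namespace Pool.Agent.V8H73.GN

open Pool.Agent.V8H73.RN
open Pool.Agent.V8H73.AZ (bx mem_bx bx_card pq marg near_null norel_comp norel_mono diag)
open Pool.Agent.V8H73.AN (ιX ιX_apply ιX_norm)

variable {κ O E : Type} [Fintype κ] [DecidableEq κ] [Fintype O] [DecidableEq O] [Fintype E] [DecidableEq E]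
  {S : Finset (κ × Ex κ O)} {T : Dat κ O} {op : κ → O} {γ : E → κ} {eh : E → ℂ → ℂ}

theorem Ph_smul (c : ℂ) (x : S → ℂ) (z : κ → ℂ) : Ph T (c • x) z = c • Ph T x z := by
  funext j
  rw [Pi.smul_apply, Ph_sum, Ph_sum, smul_eq_mul, Finset.mul_sum]
  refine Finset.sum_congr rfl fun q _ => ?_
  split_ifs
  · rw [Pi.smul_apply, smul_eq_mul]
    ring
  · rw [mul_zero]

theorem Jm_smul (c : ℂ) (x : S → ℂ) (z : κ → ℂ) : Jm T (c • x) z = c • Jm T x z := by
  have h1 : ∀ j o, eval (Sum.elim z (T.fz z)) (pderiv o (Pj (c • x) j)) =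
      c * eval (Sum.elim z (T.fz z)) (pderiv o (Pj x j)) := by
    intro j o
    rw [dPj_sum, dPj_sum, Finset.mul_sum]
    refine Finset.sum_congr rfl fun q _ => ?_
    split_ifs
    · rw [Pi.smul_apply, smul_eq_mul]
      ring
    · rw [mul_zero]
  ext j l
  simp only [Jm, JJ, BB, Matrix.of_apply, h1, Matrix.smul_apply, smul_eq_mul, mul_add, Finset.mul_sum]
  congr 1
  refine Finset.sum_congr rfl fun o _ => ?_
  split_ifs
  · ring
  · rw [mul_zero]

theorem det_smul' (c : ℂ) (x : S → ℂ) (z : κ → ℂ) :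
    (Jm T (c • x) z).det = c ^ Fintype.card κ * (Jm T x z).det := by
  rw [Jm_smul, Matrix.det_smul]

theorem bad_smul {K : Set (κ → ℂ)} {x : S → ℂ} (h : x ∈ Bad T S K) (c : ℂ) : c • x ∈ Bad T S K := by
  obtain ⟨z, hz, h1, h2⟩ := h
  exact ⟨z, hz, by rw [Ph_smul, h1, smul_zero], by rw [det_smul', h2, mul_zero]⟩

/-- integral coefficients -/
noncomputable def cn (w : S → ℤ) : S → ℂ := fun q => (w q : ℂ)

/-- no degenerate zeros in the set, and no relation between the coordinates of the zeros -/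
def GoodS (T : Dat κ O) (γ : E → κ) (eh : E → ℂ → ℂ) (K : Set (κ → ℂ)) (ξ : ℕ → ℂ) (k : ℕ) (H : ℝ) (w : S → ℤ) :
    Prop :=
  (∀ z ∈ K, Ph T (cn w) z = 0 → (Jm T (cn w) z).det ≠ 0) ∧
  NoRel ξ k H fun q : {z : κ → ℂ // z ∈ K ∧ Ph T (cn w) z = 0} × (κ ⊕ E) => hv γ eh (q.1 : κ → ℂ) q.2

/-- a vector with a denominator -/
def od (w : S → ℤ) (d : ℕ) : Option S → ℤ := fun o => o.elim (d : ℤ) w

theorem pq_od (w : S → ℤ) {d : ℕ} (hd : d ≠ 0) : cn w = (d : ℂ) • pq (od w d) := by
  have hd' : (d : ℂ) ≠ 0 := by exact_mod_cast hd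
  funext q
  rw [Pi.smul_apply, smul_eq_mul]
  unfold cn pq od
  simp only [Option.elim_some, Option.elim_none, Int.cast_natCast]
  field_simp

theorem cr_pq (w : S → ℤ) (d : ℕ) : ιX S (fun q => (w q : ℝ) / d) = pq (od w d) := by
  funext q
  rw [ιX_apply]
  unfold pq od
  push_cast
  rfl

theorem cr_smul (c : ℝ) (u : S → ℝ) : ιX S (c • u) = (c : ℂ) • ιX S u := by
  funext q
  rw [Pi.smul_apply, ιX_apply, ιX_apply, Pi.smul_apply, smul_eq_mul, smul_eq_mul]
  push_cast
  rfl

open scoped Classical in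
/-- **One compact set.** -/
theorem fixed (hA : Ax T op γ eh) (hR : Rl T op) (hS : Four op S) {K : Set (κ → ℂ)} (hK : IsCompact K)
    (hKW : K ⊆ T.W) (ξ : ℕ → ℂ) (m : ℕ) : ∃ T₀ : ℕ, ∀ H : ℕ, T₀ ≤ H →
    m * ((bx S H).filter fun w => ¬ GoodS T γ eh K ξ m H w).card ≤ (bx S H).card := by
  let Bd : Set (S → ℝ) := Metric.closedBall 0 2 ∩ (ιX S) ⁻¹' Bad T S K
  have hBdc : IsCompact Bd := (isCompact_closedBall _ _).inter_right
    ((bad_closed hA.nd.ok hK hKW).preimage (ιX S).continuous)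
  have hBd0 : volume Bd = 0 := measure_mono_null Set.inter_subset_right
    (bad_null_R hA.nd.ok hR hA.nd.ho hS hK hKW)
  obtain ⟨r, hr, T₁, hT₁⟩ := near_null hBdc hBd0 (ε := 1 / (2 * ((m : ℝ) + 1))) (by positivity)
  let C : Set (S → ℝ) := Metric.closedBall 0 2 ∩ (Metric.thickening r Bd)ᶜ
  have hCc : IsCompact C := (isCompact_closedBall _ _).inter_right Metric.isOpen_thickening.isClosed_compl
  have hCb : ∀ u ∈ C, ιX S u ∉ Bad T S K := fun u hu h =>
    hu.2 (Metric.self_subset_thickening hr _ ⟨hu.1, h⟩)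
  have hex : ∀ u : S → ℝ, ∃ (δ : ℝ) (N : ℕ) (ζ : Fin N → (S → ℂ) → κ → ℂ), u ∈ C → 0 < δ ∧
      Br T (Metric.ball (ιX S u) δ) ζ ∧
      (Pool.Agent.N207.AX.Ind (Metric.ball (ιX S u) δ) fun (q : Fin N × (κ ⊕ E)) x => hv γ eh (ζ q.1 x) q.2) ∧
      ∀ x ∈ Metric.ball (ιX S u) δ, ∀ z ∈ K, Ph T x z = 0 → ∃ i, ζ i x = z ∧ (Jm T x z).det ≠ 0 := by
    intro u
    by_cases hu : u ∈ C
    · obtain ⟨δ, N, ζ, h⟩ := patch_S hA hS hK hKW (hCb u hu)
      exact ⟨δ, N, ζ, fun _ => h⟩
    · exact ⟨0, 0, Fin.elim0, fun h => absurd h hu⟩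
  choose δ NB ζ hζ using hex
  obtain ⟨t, ht1, ht2⟩ := hCc.elim_nhds_subcover (fun u => (ιX S) ⁻¹' Metric.ball (ιX S u) (δ u / 2)) fun u hu =>
      (ιX S).continuous.continuousAt (Metric.ball_mem_nhds _ (half_pos (hζ u hu).1))
  set NN : ℕ := 8 * (m + 1) * (t.card + 1) + m with hNN
  have hmarg : ∀ u : S → ℝ, ∃ T₀ : ℕ, u ∈ t → ∀ H : ℕ, T₀ ≤ H →
      NN * ((bx (Option S) H).filter fun w => w none ≠ 0 ∧ pq w ∈ Metric.closedBall (ιX S u) (δ u / 2) ∧
        ¬ NoRel ξ NN H fun s : Fin (NB u) × (κ ⊕ E) => hv γ eh (ζ u s.1 (pq w)) s.2).card ≤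
        (bx (Option S) H).card := by
    intro u
    by_cases hu : u ∈ t
    · obtain ⟨h1, h2, h3, -⟩ := hζ u (ht1 u hu)
      obtain ⟨T₀, hT₀⟩ := marg (convex_ball (ιX S u) (δ u)).isPreconnected Metric.isOpen_ball
        (f := fun (q : Fin (NB u) × (κ ⊕ E)) x => hv γ eh (ζ u q.1 x) q.2) (fun q => (h2.b q.1).hv hA q.2) h3
        (K := Metric.closedBall (ιX S u) (δ u / 2)) Metric.isClosed_closedBall
        (Metric.closedBall_subset_ball (half_lt_self h1)) ξ NN
      exact ⟨T₀, fun _ => hT₀⟩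
    · exact ⟨0, fun h => absurd h hu⟩
  choose T₂ hT₂ using hmarg
  refine ⟨max (max T₁ 1) (t.sup T₂), fun H hT => ?_⟩
  simp only [max_le_iff] at hT
  obtain ⟨⟨hTa, hTb⟩, hTc⟩ := hT
  have hTr : (1 : ℝ) ≤ H := by exact_mod_cast hTb
  have hTp : (0 : ℝ) < H := by linarith
  set near := (bx S H).filter fun w => (fun i => (w i : ℝ) / H) ∈ Metric.thickening r Bd with hnear
  set bad := (bx S H).filter fun w => ¬ GoodS T γ eh K ξ m H w ∧
    ¬ (fun i => (w i : ℝ) / H) ∈ Metric.thickening r Bd with hbad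
  let Ex : (S → ℝ) → Finset (Option S → ℤ) := fun u => (bx (Option S) H).filter fun w => w none ≠ 0 ∧
    pq w ∈ Metric.closedBall (ιX S u) (δ u / 2) ∧
    ¬ NoRel ξ NN H fun s : Fin (NB u) × (κ ⊕ E) => hv γ eh (ζ u s.1 (pq w)) s.2
  set D : Finset ℕ := (Finset.Icc 1 H).filter fun d => H ≤ 2 * d with hD
  have hsub : ((bx S H).filter fun w => ¬ GoodS T γ eh K ξ m H w) ⊆ near ∪ bad := by
    intro w hw
    rw [Finset.mem_filter] at hw
    rw [Finset.mem_union, hnear, hbad, Finset.mem_filter, Finset.mem_filter]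
    by_cases h : (fun i => (w i : ℝ) / H) ∈ Metric.thickening r Bd
    · exact Or.inl ⟨hw.1, h⟩
    · exact Or.inr ⟨hw.1, hw.2, h⟩
  -- the vectors with denominators
  have hpair : ∀ w ∈ bad, ∀ d ∈ D, od w d ∈ t.biUnion Ex := by
    intro w hw d hd
    rw [hbad, Finset.mem_filter] at hw
    obtain ⟨hw1, hw2, hw3⟩ := hw
    rw [hD, Finset.mem_filter, Finset.mem_Icc] at hd
    obtain ⟨⟨hd1, hd2⟩, hd3⟩ := hd
    have hd0 : d ≠ 0 := by omega
    have hdp : (0 : ℝ) < d := by exact_mod_cast hd1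
    have hd2' : (d : ℝ) ≤ H := by exact_mod_cast hd2
    have hd3' : (H : ℝ) ≤ 2 * d := by exact_mod_cast hd3
    have hvC : (fun i => (w i : ℝ) / d) ∈ C := by
      constructor
      · rw [Metric.mem_closedBall, dist_zero_right, pi_norm_le_iff_of_nonneg zero_le_two]
        intro i
        rw [Real.norm_eq_abs, abs_div, abs_of_pos hdp, div_le_iff₀ hdp]
        have h1 := (mem_bx.1 hw1) i
        have h2 : |(w i : ℝ)| ≤ H := by exact_mod_cast h1
        linarith
      · intro h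
        apply hw3
        rw [Metric.mem_thickening_iff] at h ⊢
        obtain ⟨b, hb, hbd⟩ := h
        refine ⟨((d : ℝ) / H) • b, ⟨?_, ?_⟩, ?_⟩
        · have h1 := hb.1
          rw [Metric.mem_closedBall, dist_zero_right] at h1 ⊢
          rw [norm_smul, Real.norm_eq_abs, abs_of_pos (by positivity)]
          have h2 : (d : ℝ) / H ≤ 1 := (div_le_one hTp).2 hd2'
          calc (d : ℝ) / H * ‖b‖ ≤ 1 * ‖b‖ := mul_le_mul_of_nonneg_right h2 (norm_nonneg _)
            _ ≤ 2 := by rw [one_mul]; exact h1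
        · rw [Set.mem_preimage, cr_smul]
          exact bad_smul hb.2 _
        · have h1 : (fun i => (w i : ℝ) / H) = ((d : ℝ) / H) • fun i => (w i : ℝ) / d := by
            funext i
            rw [Pi.smul_apply, smul_eq_mul]
            field_simp
          rw [h1, dist_eq_norm, ← smul_sub, norm_smul, ← dist_eq_norm, Real.norm_eq_abs, abs_of_pos (by positivity)]
          have h2 : (d : ℝ) / H ≤ 1 := (div_le_one hTp).2 hd2'
          calc (d : ℝ) / H * dist (fun i => (w i : ℝ) / d) b ≤ 1 * dist (fun i => (w i : ℝ) / d) b :=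
                mul_le_mul_of_nonneg_right h2 dist_nonneg
            _ < r := by rw [one_mul]; exact hbd
    obtain ⟨u, hu, huv⟩ := Set.mem_iUnion₂.1 (ht2 hvC)
    rw [Set.mem_preimage, cr_pq] at huv
    refine Finset.mem_biUnion.2 ⟨u, hu, ?_⟩
    rw [Finset.mem_filter, mem_bx]
    refine ⟨?_, ?_, Metric.ball_subset_closedBall huv, fun hnr => hw2 ?_⟩
    · rintro (_ | i)
      · change |(d : ℤ)| ≤ H
        rw [abs_of_nonneg (by positivity)]
        exact_mod_cast hd2
      · exact (mem_bx.1 hw1) i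
    · change (d : ℤ) ≠ 0
      exact_mod_cast hd0
    obtain ⟨h1, h2, h3, h4⟩ := hζ u (ht1 u hu)
    have hxb : pq (od w d) ∈ Metric.ball (ιX S u) (δ u) := Metric.ball_subset_ball (by linarith) huv
    have hdc : (d : ℂ) ≠ 0 := by exact_mod_cast hd0
    have key : ∀ z ∈ K, Ph T (cn w) z = 0 →
        ∃ i, ζ u i (pq (od w d)) = z ∧ (Jm T (cn w) z).det ≠ 0 := by
      intro z hz hz0
      rw [pq_od w hd0, Ph_smul] at hz0
      obtain ⟨i, hi, hi'⟩ := h4 _ hxb z hz ((smul_eq_zero.1 hz0).resolve_left hdc)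
      refine ⟨i, hi, ?_⟩
      rw [pq_od w hd0, det_smul']
      exact mul_ne_zero (pow_ne_zero _ hdc) hi'
    constructor
    · intro z hz hz0
      obtain ⟨i, -, hi⟩ := key z hz hz0
      exact hi
    · choose e he using fun z : {z : κ → ℂ // z ∈ K ∧ Ph T (cn w) z = 0} => key z.1 z.2.1 z.2.2
      have hinj : Function.Injective e := fun z z' h => Subtype.ext (by rw [← (he z).1, ← (he z').1, h])
      have h5 := norel_comp hTp.le (norel_mono (show m ≤ NN by rw [hNN]; omega) hTr hnr) (Prod.map e id)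
        (hinj.prodMap Function.injective_id)
      have h6 : (fun q : {z : κ → ℂ // z ∈ K ∧ Ph T (cn w) z = 0} × (κ ⊕ E) => hv γ eh (q.1 : κ → ℂ) q.2) =
          fun q => hv γ eh (ζ u (e q.1) (pq (od w d))) q.2 := funext fun q => by rw [(he q.1).1]
      rw [h6]
      exact h5
  have hcardD : H + 1 ≤ 2 * D.card := by
    have h1 : Finset.Icc ((H + 1) / 2) H ⊆ D := by
      intro d hd
      rw [Finset.mem_Icc] at hd
      rw [hD, Finset.mem_filter, Finset.mem_Icc]
      omega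
    have h2 := Finset.card_le_card h1
    rw [Nat.card_Icc] at h2
    omega
  have hbox : (bx (Option S) H).card = (2 * H + 1) * (bx S H).card := by
    have e1 := bx_card (ι := Option S) H
    have e2 := bx_card (ι := S) H
    rw [Fintype.card_option, pow_succ, ← e2] at e1
    have e3 : ((bx (Option S) H).card : ℝ) = ((2 * H + 1) * (bx S H).card : ℕ) := by
      push_cast
      rw [e1]
      ring
    exact_mod_cast e3
  have hcard : bad.card * D.card ≤ (t.biUnion Ex).card := by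
    rw [← Finset.card_product]
    refine Finset.card_le_card_of_injOn (fun p => od p.1 p.2) ?_ ?_
    · rintro ⟨w, d⟩ hp
      rw [Finset.mem_coe, Finset.mem_product] at hp
      exact hpair w hp.1 d hp.2
    · rintro ⟨w, d⟩ - ⟨w', d'⟩ - h
      have h1 := congrFun h none
      have h2 : w = w' := funext fun q => congrFun h (some q)
      have h3 : d = d' := by
        change (d : ℤ) = d' at h1
        exact_mod_cast h1
      rw [h2, h3]
  have hnear' : (near.card : ℝ) ≤ 1 / (2 * ((m : ℝ) + 1)) * (bx S H).card := hT₁ H hTa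
  have hnear2 : 2 * (m + 1) * near.card ≤ (bx S H).card := by
    have h1 : (2 * ((m : ℝ) + 1)) * near.card ≤ (bx S H).card := by
      rw [one_div, inv_mul_eq_div, le_div_iff₀ (by positivity)] at hnear'
      linarith
    exact_mod_cast h1
  have hbad2 : 2 * (m + 1) * bad.card ≤ (bx S H).card := by
    have h1 : ∀ u ∈ t, NN * (Ex u).card ≤ (bx (Option S) H).card := fun u hu =>
      hT₂ u hu H ((Finset.le_sup (f := T₂) hu).trans hTc)
    have h2 : NN * (t.biUnion Ex).card ≤ t.card * (bx (Option S) H).card := by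
      calc NN * (t.biUnion Ex).card ≤ NN * ∑ u ∈ t, (Ex u).card := Nat.mul_le_mul_left _ Finset.card_biUnion_le
        _ = ∑ u ∈ t, NN * (Ex u).card := Finset.mul_sum _ _ _
        _ ≤ ∑ u ∈ t, (bx (Option S) H).card := Finset.sum_le_sum h1
        _ = _ := by rw [Finset.sum_const, smul_eq_mul]
    have h3 : (H + 1) * (NN * bad.card) ≤ (H + 1) * (4 * (t.card + 1) * (bx S H).card) := by
      calc (H + 1) * (NN * bad.card) ≤ (2 * D.card) * (NN * bad.card) := Nat.mul_le_mul_right _ hcardD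
        _ = 2 * (NN * (bad.card * D.card)) := by ring
        _ ≤ 2 * (NN * (t.biUnion Ex).card) := Nat.mul_le_mul_left _ (Nat.mul_le_mul_left _ hcard)
        _ ≤ 2 * (t.card * (bx (Option S) H).card) := Nat.mul_le_mul_left _ h2
        _ = (2 * H + 1) * (2 * t.card * (bx S H).card) := by rw [hbox]; ring
        _ ≤ (2 * (H + 1)) * (2 * (t.card + 1) * (bx S H).card) :=
          Nat.mul_le_mul (by omega) (Nat.mul_le_mul_right _ (by omega))
        _ = _ := by ring
    have h4 := Nat.le_of_mul_le_mul_left h3 (by omega)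
    have h5 : (4 * (t.card + 1)) * (2 * (m + 1) * bad.card) ≤ (4 * (t.card + 1)) * (bx S H).card := by
      calc (4 * (t.card + 1)) * (2 * (m + 1) * bad.card) = (8 * (m + 1) * (t.card + 1)) * bad.card := by ring
        _ ≤ NN * bad.card := Nat.mul_le_mul_right _ (by rw [hNN]; omega)
        _ ≤ _ := h4
    exact Nat.le_of_mul_le_mul_left h5 (by omega)
  have hfin : ((bx S H).filter fun w => ¬ GoodS T γ eh K ξ m H w).card ≤ near.card + bad.card :=
    (Finset.card_le_card hsub).trans (Finset.card_union_le _ _)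
  have h1 : 2 * ((m + 1) * ((bx S H).filter fun w => ¬ GoodS T γ eh K ξ m H w).card) ≤ 2 * (bx S H).card := by
    calc 2 * ((m + 1) * ((bx S H).filter fun w => ¬ GoodS T γ eh K ξ m H w).card) ≤
          2 * ((m + 1) * (near.card + bad.card)) := Nat.mul_le_mul_left _ (Nat.mul_le_mul_left _ hfin)
      _ = 2 * (m + 1) * near.card + 2 * (m + 1) * bad.card := by ring
      _ ≤ _ := by omega
  have h2 : m * ((bx S H).filter fun w => ¬ GoodS T γ eh K ξ m H w).card ≤
      (m + 1) * ((bx S H).filter fun w => ¬ GoodS T γ eh K ξ m H w).card := Nat.mul_le_mul_right _ (by omega)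
  omega

open scoped Classical in
/-- **All zeros in growing compact sets.** -/
theorem int_main (hA : Ax T op γ eh) (hR : Rl T op) (hS : Four op S) (K : ℕ → Set (κ → ℂ))
    (hK : ∀ m, IsCompact (K m) ∧ K m ⊆ T.W) (ξ : ℕ → ℂ) : ∃ ω : ℕ → ℕ, Tendsto ω atTop atTop ∧ Monotone ω ∧
    ∀ H : ℕ, ω H * ((bx S H).filter fun w => ¬ GoodS T γ eh (K (ω H)) ξ (ω H) H w).card ≤ (bx S H).card :=
  diag (fun m H => ((bx S H).filter fun w => ¬ GoodS T γ eh (K m) ξ m H w).card) (fun H => (bx S H).card)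
    fun m => fixed hA hR hS (hK m).1 (hK m).2 ξ m

end Pool.Agent.V8H73.GN
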