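import Pool.Agent.V8H73.GN.Ell
import Pool.Agent.V8H73.GN.IntN

/-!
# Systems of equations with exponentials and Weierstrass functions
-/

set_option autoImplicit false
set_option linter.unusedSectionVars false

open Set Filter MvPolynomial
open scoped Topology PeriodPair

namespace Pool.Agent.V8H73.GN

variable {q s n : ℕ} {Λ : Fin q → PeriodPair} {ty : Fin n → Fin q}

theorem TE_rl : Rl (TE s Λ ty) (opE s n) := by
  rintro (k | i) r hr h o ho
  · rcases o with k' | i | i
    · have hk : k' = k := Sum.inl_injective ho
      subst hk
      exact h
    · exact absurd ho (by simp [TE])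
    · exact absurd ho (by simp [TE])
  · rcases o with k' | i' | i'
    · exact absurd ho (by simp [TE])
    · have hk : i' = i := Sum.inr_injective ho
      subst hk
      exact h
    · have hk : i' = i := Sum.inr_injective ho
      subst hk
      have h1 : ∀ᶠ t : ℝ in 𝓝 r, (t : ℂ) ∈ (TE s Λ ty).D (Sum.inr i') :=
        Complex.continuous_ofReal.continuousAt.eventually ((TE_ok.op (Sum.inr i')).mem_nhds hr)
      filter_upwards [h1, eventually_eventually_nhds.2 h] with t ht1 ht2
      exact g_real (T := TE s Λ ty) TE_ok (o := Sum.inr (Sum.inl i')) ht1 ht2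

end Pool.Agent.V8H73.GN
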