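import Pool.Agent.V8H73.AN.Sys
import Pool.Agent.V8H73.GN.Alg

/-!
# Systems of equations with functions of the coordinates: derivatives and the implicit function theorem
-/

set_option autoImplicit false
set_option linter.unusedSectionVars false

open Set Filter MvPolynomial
open scoped Topology ContDiff

namespace Pool.Agent.V8H73.GN

section ift

variable {E : Type*} [NormedAddCommGroup E] [NormedSpace ℂ E] [CompleteSpace E]
  {V : Type*} [NormedAddCommGroup V] [NormedSpace ℂ V] [CompleteSpace V]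

/-- **The zeros in a compact set.** -/
theorem patch {W K : Set V} (hW : IsOpen W) (hK : IsCompact K) (hKW : K ⊆ W) {Φ : E × V → V}
    (hΦ : ∀ v : E × V, v.2 ∈ W → AnalyticAt ℂ Φ v) {D : E → V → V →L[ℂ] V} {d : E → V → ℂ}
    (hD : ∀ x, ∀ z ∈ W, HasFDerivAt (fun w => Φ (x, w)) (D x z) z)
    (hdD : ∀ x, ∀ z ∈ W, d x z ≠ 0 → (D x z).IsInvertible)
    (hdc : ∀ v : E × V, v.2 ∈ W → ContinuousAt (fun v : E × V => d v.1 v.2) v)
    {x0 : E} (hs : ∀ z ∈ K, Φ (x0, z) = 0 → d x0 z ≠ 0) :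
    ∃ (δ : ℝ) (n : ℕ) (ζ : Fin n → E → V), 0 < δ ∧ (∀ i, AnalyticOnNhd ℂ (ζ i) (Metric.ball x0 δ)) ∧
      (∀ i, ∀ x ∈ Metric.ball x0 δ, ζ i x ∈ W) ∧
      (∀ i, ∀ x ∈ Metric.ball x0 δ, Φ (x, ζ i x) = 0) ∧ (∀ i, ∀ x ∈ Metric.ball x0 δ, d x (ζ i x) ≠ 0) ∧
      (∀ i j, i ≠ j → ∀ x ∈ Metric.ball x0 δ, ζ i x ≠ ζ j x) ∧
      ∀ x ∈ Metric.ball x0 δ, ∀ z ∈ K, Φ (x, z) = 0 → ∃ i, ζ i x = z := by
  classical
  have hloc : ∀ z0 : V, ∃ (ψ : E → V) (B : Set V), z0 ∈ K → B ∈ 𝓝 z0 ∧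
      (∀ᶠ x in 𝓝 x0, ∀ z ∈ B, Φ (x, z) = 0 → Φ (x0, z0) = 0 ∧ ψ x = z) ∧
      (Φ (x0, z0) = 0 → ψ x0 = z0 ∧ AnalyticAt ℂ ψ x0 ∧ ∀ᶠ x in 𝓝 x0, Φ (x, ψ x) = 0) := by
    intro z0
    by_cases hz : z0 ∈ K
    · by_cases h0 : Φ (x0, z0) = 0
      · obtain ⟨ψ, h1, h2, h3, h4⟩ := Pool.Agent.V8H73.AN.one_zero (hΦ (x0, z0) (hKW hz)) h0 (hD x0 z0 (hKW hz))
          (hdD _ _ (hKW hz) (hs z0 hz h0))
        rw [nhds_prod_eq, eventually_prod_iff] at h4
        obtain ⟨pa, ha, pb, hb, hab⟩ := h4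
        refine ⟨ψ, {z | pb z}, fun _ => ⟨hb, ?_, fun _ => ⟨h1, h2, h3⟩⟩⟩
        filter_upwards [ha] with x hx z hz h
        exact ⟨h0, hab hx hz h⟩
      · have h4 : ∀ᶠ v in 𝓝 (x0, z0), Φ v ≠ 0 := (hΦ (x0, z0) (hKW hz)).continuousAt.eventually_ne h0
        rw [nhds_prod_eq, eventually_prod_iff] at h4
        obtain ⟨pa, ha, pb, hb, hab⟩ := h4
        refine ⟨fun _ => 0, {z | pb z}, fun _ => ⟨hb, ?_, fun h => absurd h h0⟩⟩
        filter_upwards [ha] with x hx z hz h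
        exact absurd h (hab hx hz)
    · exact ⟨fun _ => 0, univ, fun h => absurd h hz⟩
  choose ψ B hψ using hloc
  obtain ⟨t, ht1, ht2⟩ := hK.elim_nhds_subcover B fun z hz => (hψ z hz).1
  set t' := t.filter fun z => Φ (x0, z) = 0 with ht'
  have hmem : ∀ z ∈ t', z ∈ K ∧ Φ (x0, z) = 0 := fun z hz => by
    rw [ht', Finset.mem_filter] at hz
    exact ⟨ht1 z hz.1, hz.2⟩
  have e1 : ∀ᶠ x in 𝓝 x0, ∀ z0 ∈ t, ∀ z ∈ B z0, Φ (x, z) = 0 → Φ (x0, z0) = 0 ∧ ψ z0 x = z :=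
    (Finset.eventually_all t).2 fun z0 hz0 => (hψ z0 (ht1 z0 hz0)).2.1
  have e2 : ∀ᶠ x in 𝓝 x0, ∀ z0 ∈ t', AnalyticAt ℂ (ψ z0) x ∧ Φ (x, ψ z0 x) = 0 ∧ d x (ψ z0 x) ≠ 0 ∧ ψ z0 x ∈ W := by
    refine (Finset.eventually_all t').2 fun z0 hz0 => ?_
    obtain ⟨h1, h2, h3⟩ := (hψ z0 (hmem z0 hz0).1).2.2 (hmem z0 hz0).2
    have hzW : z0 ∈ W := hKW (hmem z0 hz0).1
    have h4 : ∀ᶠ x in 𝓝 x0, d x (ψ z0 x) ≠ 0 := by
      have hc : ContinuousAt (fun x => d x (ψ z0 x)) x0 := by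
        have h5 : ContinuousAt (fun x => (x, ψ z0 x)) x0 := continuousAt_id.prodMk h2.continuousAt
        exact (hdc (x0, ψ z0 x0) (by rw [h1]; exact hzW)).comp_of_eq h5 rfl
      refine hc.eventually_ne ?_
      rw [h1]
      exact hs z0 (hmem z0 hz0).1 (hmem z0 hz0).2
    have h6 : ∀ᶠ x in 𝓝 x0, ψ z0 x ∈ W := h2.continuousAt.eventually (hW.mem_nhds (by rw [h1]; exact hzW))
    filter_upwards [h2.eventually_analyticAt, h3, h4, h6] with x a b c e using ⟨a, b, c, e⟩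
  have e3 : ∀ᶠ x in 𝓝 x0, ∀ z0 ∈ t', ∀ z1 ∈ t', z0 ≠ z1 → ψ z0 x ≠ ψ z1 x := by
    refine (Finset.eventually_all t').2 fun z0 hz0 => (Finset.eventually_all t').2 fun z1 hz1 => ?_
    obtain ⟨h1, h2, -⟩ := (hψ z0 (hmem z0 hz0).1).2.2 (hmem z0 hz0).2
    obtain ⟨h3, h4, -⟩ := (hψ z1 (hmem z1 hz1).1).2.2 (hmem z1 hz1).2
    by_cases hne : z0 = z1
    · exact Eventually.of_forall fun x h => absurd hne h
    · have h5 : ContinuousAt (fun x => ψ z0 x - ψ z1 x) x0 := h2.continuousAt.sub h4.continuousAt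
      have h6 : ∀ᶠ x in 𝓝 x0, ψ z0 x - ψ z1 x ≠ 0 := h5.eventually_ne (by rw [h1, h3]; exact sub_ne_zero.2 hne)
      filter_upwards [h6] with x hx _ h
      exact hx (sub_eq_zero.2 h)
  obtain ⟨δ, hδ, hball⟩ := Metric.eventually_nhds_iff_ball.1 (e1.and (e2.and e3))
  refine ⟨δ, t'.card, fun i => ψ (t'.equivFin.symm i), hδ, fun i x hx => ((hball x hx).2.1 _ (t'.equivFin.symm i).2).1,
    fun i x hx => ((hball x hx).2.1 _ (t'.equivFin.symm i).2).2.2.2,
    fun i x hx => ((hball x hx).2.1 _ (t'.equivFin.symm i).2).2.1,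
    fun i x hx => ((hball x hx).2.1 _ (t'.equivFin.symm i).2).2.2.1, fun i j hij x hx => ?_, fun x hx z hz h0 => ?_⟩
  · refine (hball x hx).2.2 _ (t'.equivFin.symm i).2 _ (t'.equivFin.symm j).2 fun h => hij ?_
    exact t'.equivFin.symm.injective (Subtype.ext h)
  · obtain ⟨z0, hz0, hzB⟩ := mem_iUnion₂.1 (ht2 hz)
    obtain ⟨h1, h2⟩ := (hball x hx).1 z0 hz0 z hzB h0
    have hz0' : z0 ∈ t' := by
      rw [ht', Finset.mem_filter]
      exact ⟨hz0, h1⟩
    exact ⟨t'.equivFin ⟨z0, hz0'⟩, by simpa using h2⟩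

end ift

/-- functions of the coordinates -/
structure Dat (κ O : Type) where
  β : O → κ
  f : O → ℂ → ℂ
  g : O → ℂ → ℂ
  D : κ → Set ℂ

variable {κ O : Type}

/-- analytic functions with their derivatives -/
structure Ok (T : Dat κ O) : Prop where
  op : ∀ l, IsOpen (T.D l)
  an : ∀ o, AnalyticOnNhd ℂ (T.f o) (T.D (T.β o))
  dv : ∀ o, ∀ t ∈ T.D (T.β o), HasDerivAt (T.f o) (T.g o t) t

/-- the domain -/
def Dat.W (T : Dat κ O) : Set (κ → ℂ) := {z | ∀ l, z l ∈ T.D l}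

/-- the values of the functions -/
def Dat.fz (T : Dat κ O) (z : κ → ℂ) : O → ℂ := fun o => T.f o (z (T.β o))

/-- the values of the derivatives -/
def Dat.gz (T : Dat κ O) (z : κ → ℂ) : O → ℂ := fun o => T.g o (z (T.β o))

variable [Fintype κ] [DecidableEq κ] [Fintype O] [DecidableEq O] {S : Finset (κ × Ex κ O)} {T : Dat κ O}

theorem Ok.W_open (h : Ok T) : IsOpen T.W := by
  have h1 : T.W = ⋂ l, (fun z : κ → ℂ => z l) ⁻¹' T.D l := by
    ext z
    simp [Dat.W]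
  rw [h1]
  exact isOpen_iInter_of_finite fun l => (h.op l).preimage (continuous_apply l)

theorem Ok.g_an (h : Ok T) (o : O) : AnalyticOnNhd ℂ (T.g o) (T.D (T.β o)) := by
  intro t ht
  refine ((h.an o).deriv t ht).congr ?_
  filter_upwards [(h.op _).mem_nhds ht] with s hs using (h.dv o s hs).deriv

/-- a coordinate -/
noncomputable def pl (l : κ) : (κ → ℂ) →L[ℂ] ℂ := ContinuousLinearMap.proj l

theorem pl_apply (l : κ) (v : κ → ℂ) : pl l v = v l := rfl

theorem pl_deriv (l : κ) (z : κ → ℂ) : HasFDerivAt (fun z : κ → ℂ => z l) (pl l) z := hasFDerivAt_apply l z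

theorem Ok.fz_an (h : Ok T) (o : O) {z : κ → ℂ} (hz : z ∈ T.W) :
    AnalyticAt ℂ (fun z : κ → ℂ => T.fz z o) z :=
  ((h.an o) (z (T.β o)) (hz _)).comp_of_eq ((pl (T.β o)).analyticAt z) rfl

theorem Ok.gz_an (h : Ok T) (o : O) {z : κ → ℂ} (hz : z ∈ T.W) :
    AnalyticAt ℂ (fun z : κ → ℂ => T.gz z o) z :=
  ((h.g_an o) (z (T.β o)) (hz _)).comp_of_eq ((pl (T.β o)).analyticAt z) rfl

/-- the values of the equations -/
noncomputable def Ph (T : Dat κ O) (x : S → ℂ) (z : κ → ℂ) : κ → ℂ := fun j => eval (Sum.elim z (T.fz z)) (Pj x j)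

/-- the Jacobian matrix -/
noncomputable def Jm (T : Dat κ O) (x : S → ℂ) (z : κ → ℂ) : Matrix κ κ ℂ := JJ T.β x z (T.fz z) (T.gz z)

/-- the part which comes from the functions -/
noncomputable def Bm (T : Dat κ O) (x : S → ℂ) (z : κ → ℂ) : Matrix κ κ ℂ := BB T.β x z (T.fz z) (T.gz z)

theorem Ph_sum (x : S → ℂ) (z : κ → ℂ) (j : κ) :
    Ph T x z j = ∑ q : S, if q.1.1 = j then x q * mo q.1.2 z (T.fz z) else 0 := by
  unfold Ph Pj
  rw [map_sum]
  refine Finset.sum_congr rfl fun q _ => ?_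
  split_ifs
  · unfold mo
    have h1 : monomial q.1.2 (x q) = C (x q) * monomial q.1.2 1 := by rw [C_mul_monomial, mul_one]
    rw [h1, map_mul, eval_C]
  · rw [map_zero]

theorem ev_deriv (h : Ok T) (P : MvPolynomial (κ ⊕ O) ℂ) {z : κ → ℂ} (hz : z ∈ T.W) : ∃ L : (κ → ℂ) →L[ℂ] ℂ,
    (∀ v, L v = ∑ l, (eval (Sum.elim z (T.fz z)) (pderiv (Sum.inl l) P) +
      ∑ o, if T.β o = l then T.gz z o * eval (Sum.elim z (T.fz z)) (pderiv (Sum.inr o) P) else 0) * v l) ∧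
    HasFDerivAt (fun z : κ → ℂ => eval (Sum.elim z (T.fz z)) P) L z := by
  induction P using MvPolynomial.induction_on with
  | C a =>
    refine ⟨0, fun v => ?_, ?_⟩
    · simp only [pderiv_C, map_zero, mul_zero, ite_self, Finset.sum_const_zero, add_zero, zero_mul]
      rfl
    · simp only [eval_C]
      exact hasFDerivAt_const _ _
  | add p q hp hq =>
    obtain ⟨L1, h1, h1'⟩ := hp
    obtain ⟨L2, h2, h2'⟩ := hq
    refine ⟨L1 + L2, fun v => ?_, ?_⟩
    · have h3 : (L1 + L2) v = L1 v + L2 v := rfl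
      rw [h3, h1, h2, ← Finset.sum_add_distrib]
      refine Finset.sum_congr rfl fun l _ => ?_
      have h4 : ∀ o, (if T.β o = l then T.gz z o * eval (Sum.elim z (T.fz z)) (pderiv (Sum.inr o) (p + q)) else 0) =
          (if T.β o = l then T.gz z o * eval (Sum.elim z (T.fz z)) (pderiv (Sum.inr o) p) else 0) +
          if T.β o = l then T.gz z o * eval (Sum.elim z (T.fz z)) (pderiv (Sum.inr o) q) else 0 := by
        intro o
        split_ifs
        · rw [map_add, map_add, mul_add]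
        · rw [add_zero]
      rw [Finset.sum_congr rfl fun o _ => h4 o, Finset.sum_add_distrib, map_add, map_add]
      ring
    · simp only [map_add]
      exact h1'.add h2'
  | mul_X p o hp =>
    obtain ⟨L1, h1, h1'⟩ := hp
    obtain ⟨L2, h2, h2'⟩ : ∃ L : (κ → ℂ) →L[ℂ] ℂ, (∀ v, L v = ∑ l, ((if Sum.inl l = o then (1 : ℂ) else 0) +
        ∑ a, if T.β a = l then T.gz z a * (if Sum.inr a = o then (1 : ℂ) else 0) else 0) * v l) ∧
        HasFDerivAt (fun z : κ → ℂ => (Sum.elim z (T.fz z) : κ ⊕ O → ℂ) o) L z := by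
      rcases o with l0 | o0
      · refine ⟨pl l0, fun v => ?_, pl_deriv l0 z⟩
        rw [Finset.sum_eq_single l0 (fun l _ hl => by simp [hl]) (fun h => absurd (Finset.mem_univ _) h), pl_apply]
        simp
      · refine ⟨T.g o0 (z (T.β o0)) • pl (T.β o0), fun v => ?_,
          (h.dv o0 _ (hz _)).comp_hasFDerivAt z (pl_deriv (T.β o0) z)⟩
        have h3 : (T.g o0 (z (T.β o0)) • pl (T.β o0)) v = T.g o0 (z (T.β o0)) * v (T.β o0) := rfl
        rw [h3, Finset.sum_eq_single (T.β o0) (fun l _ hl => ?_) (fun h => absurd (Finset.mem_univ _) h),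
          Finset.sum_eq_single o0 (fun a _ ha => ?_) (fun h => absurd (Finset.mem_univ _) h)]
        · simp [Dat.gz]
        · simp [ha]
        · rw [Finset.sum_eq_zero (fun a _ => ?_)]
          · simp
          · by_cases ha : a = o0
            · rw [ha, if_neg (Ne.symm hl)]
            · simp [ha]
    refine ⟨eval (Sum.elim z (T.fz z)) p • L2 + (Sum.elim z (T.fz z) : κ ⊕ O → ℂ) o • L1, fun v => ?_, ?_⟩
    · have h3 : (eval (Sum.elim z (T.fz z)) p • L2 + (Sum.elim z (T.fz z) : κ ⊕ O → ℂ) o • L1) v =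
          eval (Sum.elim z (T.fz z)) p * L2 v + (Sum.elim z (T.fz z) : κ ⊕ O → ℂ) o * L1 v := rfl
      rw [h3, h1, h2, Finset.mul_sum, Finset.mul_sum, ← Finset.sum_add_distrib]
      refine Finset.sum_congr rfl fun l _ => ?_
      have e1 : ∀ x : κ ⊕ O, eval (Sum.elim z (T.fz z)) ((Pi.single x 1 : κ ⊕ O → MvPolynomial _ ℂ) o) =
          if x = o then 1 else 0 := by
        intro x
        by_cases h : x = o
        · subst h
          simp
        · rw [if_neg h, Pi.single_eq_of_ne (Ne.symm h), map_zero]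
      have e2 : ∀ a, (if T.β a = l then T.gz z a * eval (Sum.elim z (T.fz z)) (pderiv (Sum.inr a) (p * X o)) else 0) =
          eval (Sum.elim z (T.fz z)) p * (if T.β a = l then T.gz z a * (if Sum.inr a = o then 1 else 0) else 0) +
          (Sum.elim z (T.fz z) : κ ⊕ O → ℂ) o *
            (if T.β a = l then T.gz z a * eval (Sum.elim z (T.fz z)) (pderiv (Sum.inr a) p) else 0) := by
        intro a
        by_cases ha : T.β a = l
        · simp only [if_pos ha]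
          rw [Derivation.leibniz, pderiv_X]
          simp only [smul_eq_mul, map_add, map_mul, eval_X]
          rw [e1]
          ring
        · simp only [if_neg ha, mul_zero, add_zero]
      simp only [e2, Finset.sum_add_distrib, ← Finset.mul_sum]
      rw [Derivation.leibniz, pderiv_X]
      simp only [smul_eq_mul, map_add, map_mul, eval_X]
      rw [e1]
      ring
    · simp only [map_mul, eval_X]
      exact h1'.mul h2'

open Classical in
/-- the derivative of the system -/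
noncomputable def Dl (T : Dat κ O) (x : S → ℂ) (z : κ → ℂ) : (κ → ℂ) →L[ℂ] (κ → ℂ) :=
  if h : Ok T ∧ z ∈ T.W then ContinuousLinearMap.pi fun j => (ev_deriv h.1 (Pj x j) h.2).choose else 0

theorem Dl_apply (h : Ok T) (x : S → ℂ) {z : κ → ℂ} (hz : z ∈ T.W) (v : κ → ℂ) : Dl T x z v = (Jm T x z).mulVec v := by
  unfold Dl
  rw [dif_pos ⟨h, hz⟩]
  funext j
  exact (ev_deriv h (Pj x j) hz).choose_spec.1 v

theorem Ph_deriv (h : Ok T) (x : S → ℂ) {z : κ → ℂ} (hz : z ∈ T.W) : HasFDerivAt (fun z => Ph T x z) (Dl T x z) z := by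
  unfold Dl
  rw [dif_pos ⟨h, hz⟩]
  refine hasFDerivAt_pi.2 fun j => ?_
  exact (ev_deriv h (Pj x j) hz).choose_spec.2

theorem Dl_inv (hT : Ok T) {x : S → ℂ} {z : κ → ℂ} (hz : z ∈ T.W) (h : (Jm T x z).det ≠ 0) : (Dl T x z).IsInvertible := by
  have hinj : Function.Injective (Dl T x z : (κ → ℂ) →ₗ[ℂ] (κ → ℂ)) := by
    rw [injective_iff_map_eq_zero]
    intro v hv
    have h1 : (Jm T x z).mulVec v = 0 := by rw [← Dl_apply hT x hz]; exact hv
    exact Matrix.eq_zero_of_mulVec_eq_zero h h1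
  refine ⟨(LinearEquiv.ofInjectiveEndo _ hinj).toContinuousLinearEquiv, ?_⟩
  ext v
  rfl

end Pool.Agent.V8H73.GN
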